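import Pool.Agent.U996.UW.One

/-!
# Dynamical form: almost every parameter and almost every point
-/

set_option autoImplicit false

namespace Pool.Agent.U996.UW

open Finset MeasureTheory Filter Topology
open scoped ENNReal
open Pool.Agent.Y957.AD (PolyVar)
open Pool.Agent.Y957.VK

/-- from the unit intervals on the logarithmic scale to all positive parameters -/
theorem ae_cubes1 (Q : ℝ → Prop)
    (h : ∀ b : ℤ, ∀ᵐ u ∂((volume : Measure ℝ).restrict (Set.Icc (0 : ℝ) 1)), Q (Real.exp (b + u))) :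
    ∀ᵐ a : ℝ, 0 < a → Q a := by
  have key : ∀ b : ℤ, (volume : Measure ℝ) {u | u ∈ Set.Icc (0 : ℝ) 1 ∧ ¬ Q (Real.exp (b + u))} = 0 := by
    intro b
    have h3 := h b
    rw [ae_restrict_iff' measurableSet_Icc, ae_iff] at h3
    refine measure_mono_null ?_ h3
    intro ω hω
    simp only [Set.mem_ofPred_eq, Classical.not_imp]
    exact ⟨hω.1, hω.2⟩
  rw [ae_iff]
  refine measure_mono_null ?_ (measure_iUnion_null fun b : ℤ =>
    addHaar_image_eq_zero_of_differentiableOn_of_addHaar_eq_zero (volume : Measure ℝ)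
      (f := fun u => Real.exp (b + u)) ?_ (key b))
  · intro a ha
    simp only [Set.mem_ofPred_eq, Classical.not_imp] at ha
    obtain ⟨ha1, ha2⟩ := ha
    rw [Set.mem_iUnion]
    have e : Real.exp (((⌊Real.log a⌋ : ℤ) : ℝ) + Int.fract (Real.log a)) = a := by
      rw [Int.floor_add_fract, Real.exp_log ha1]
    refine ⟨⌊Real.log a⌋, Int.fract (Real.log a), ⟨⟨?_, ?_⟩, ?_⟩, e⟩
    · exact Int.fract_nonneg _
    · exact (Int.fract_lt_one _).le
    · show ¬ Q (Real.exp (((⌊Real.log a⌋ : ℤ) : ℝ) + Int.fract (Real.log a)))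
      rw [e]
      exact ha2
  · exact (differentiable_id.const_add _).exp.differentiableOn

/-- **Almost every dilation, almost every point.** -/
theorem ae_points {X : Type} [MeasurableSpace X] (ν : Measure X) [IsFiniteMeasure ν] (g : X → ℕ → ℂ)
    (hgm : ∀ n, Measurable fun x => g x n) (hg1 : ∀ x n, ‖g x n‖ ≤ 1) (A : ℝ → ℂ)
    (hA1 : ∀ x, ‖A x‖ ≤ 1) (hAm : Measurable A) (hAv : PolyVar A) (hAw : WNeg A) (c : ℝ) (hc : 0 < c) :
    ∀ᵐ a : ℝ, 0 < a → ∀ᵐ x ∂ν, ∀ K : ℕ, Tendsto (fun N : ℕ => (Real.log N) ^ K / N *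
      ‖∑ n ∈ Finset.Icc 1 N, g x n * A (a * (n : ℝ) ^ c)‖) atTop (𝓝 0) := by
  refine ae_cubes1 (fun a => ∀ᵐ x ∂ν, ∀ K : ℕ, Tendsto (fun N : ℕ => (Real.log N) ^ K / N *
      ‖∑ n ∈ Finset.Icc 1 N, g x n * A (a * (n : ℝ) ^ c)‖) atTop (𝓝 0)) fun b => ?_
  have h1 := Pool.Agent.Y901.VK.bc (X × ℝ) (ν.prod (volume.restrict (Set.Icc (0 : ℝ) 1)))
    (fun p n => g p.1 n * A (Real.exp (b + p.2) * (n : ℝ) ^ c))
    (fun n => ((hgm n).comp measurable_fst).mul
      (hAm.comp ((Real.measurable_exp.comp (measurable_const.add measurable_snd)).mul_const _)))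
    (fun p n => by
      rw [norm_mul]
      exact mul_le_one₀ (hg1 _ n) (norm_nonneg _) (hA1 _))
    (negF_univ ν g hg1 A hA1 hAm hAv hAw (b : ℝ) c hc)
  have h2 : ∀ᵐ q ∂((volume.restrict (Set.Icc (0 : ℝ) 1)).prod ν), ∀ K : ℕ,
      Tendsto (fun N : ℕ => (Real.log N) ^ K / N *
        ‖∑ n ∈ Finset.Icc 1 N, g q.2 n * A (Real.exp (b + q.1) * (n : ℝ) ^ c)‖) atTop (𝓝 0) :=
    (Measure.measurePreserving_swap (μ := (volume.restrict (Set.Icc (0 : ℝ) 1)))
      (ν := ν)).quasiMeasurePreserving.ae h1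
  exact Measure.ae_ae_of_ae_prod h2

end Pool.Agent.U996.UW
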