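import Pool.Agent.U996.UW.Asym
import Pool.Agent.Y727.VK.Pr

/-!
# One sequence; prime arguments; inversion of the parameter
-/

set_option autoImplicit false

namespace Pool.Agent.U996.UW

open Finset MeasureTheory Filter Topology

theorem pos_meas (k : ℕ) : MeasurableSet {α : Fin k → ℝ | ∀ i, 0 < α i} := by
  have e : {α : Fin k → ℝ | ∀ i, 0 < α i} = Set.pi Set.univ (fun _ => Set.Ioi (0 : ℝ)) := by
    ext α
    simp
  rw [e]
  exact MeasurableSet.univ_pi fun _ => measurableSet_Ioi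

/-- from `Fin 1 → ℝ` to `ℝ` -/
theorem ae_one (P : ℝ → Prop)
    (h : ∀ᵐ α ∂((volume : Measure (Fin 1 → ℝ)).restrict {α | ∀ i, 0 < α i}), P (α 0)) :
    ∀ᵐ a : ℝ, 0 < a → P a := by
  rw [ae_restrict_iff' (pos_meas 1)] at h
  have hm := (volume_preserving_funUnique (Fin 1) ℝ).symm
  have h2 := hm.quasiMeasurePreserving.ae h
  filter_upwards [h2] with a ha hpos
  have h3 := ha (fun i => by
    have : (MeasurableEquiv.funUnique (Fin 1) ℝ).symm a i = a := rfl
    rw [this]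
    exact hpos)
  exact h3

/-- inversion of the parameter -/
theorem ae_inv (P : ℝ → Prop) (h : ∀ᵐ a : ℝ, 0 < a → P a) : ∀ᵐ d : ℝ, 0 < d → P (1 / d) := by
  rw [ae_iff] at h ⊢
  have h1 : (volume : Measure ℝ) ((fun a : ℝ => 1 / a) '' {a : ℝ | ¬(0 < a → P a)}) = 0 := by
    refine addHaar_image_eq_zero_of_differentiableOn_of_addHaar_eq_zero (volume : Measure ℝ) ?_ h
    intro a ha
    have ha0 : 0 < a := by
      by_contra hc
      exact ha fun h => absurd h hc
    exact ((differentiableAt_const (1 : ℝ)).div differentiableAt_id ha0.ne').differentiableWithinAt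
  refine measure_mono_null ?_ h1
  intro d hd
  simp only [Set.mem_ofPred_eq, Classical.not_imp] at hd
  refine ⟨1 / d, ?_, by simp⟩
  simp only [Set.mem_ofPred_eq, Classical.not_imp]
  exact ⟨by have := hd.1; positivity, hd.2⟩

/-- the prime number theorem -/
theorem pnt : Tendsto (fun N : ℕ => (Nat.primeCounting N : ℝ) * Real.log N / N) atTop (𝓝 1) := by
  have h1 := Pool.Agent.Y727.VK.pi_sub_lim.add
    (Pool.Agent.Y727.VK.theta_lim Pool.Agent.Y957.VK.lw_all.2.2)
  rw [zero_add] at h1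
  refine h1.congr fun N => ?_
  ring

theorem pi_sum (N : ℕ) : ∑ n ∈ Icc 1 N, (if n.Prime then (1 : ℝ) else 0) = Nat.primeCounting N := by
  rw [Pool.Agent.Y727.VK.pi_eq, Finset.sum_filter]

theorem pi_dense : ∀ᶠ N : ℕ in atTop, (N : ℝ) / Real.log N ^ 2 ≤
    ∑ n ∈ Icc 1 N, (if n.Prime then (1 : ℝ) else 0) := by
  have h1 : ∀ᶠ N : ℕ in atTop, 1 / 2 < (Nat.primeCounting N : ℝ) * Real.log N / N :=
    pnt.eventually (lt_mem_nhds (by norm_num))
  filter_upwards [h1, nlog.eventually_ge_atTop 2, eventually_ge_atTop 2] with N h2 h3 h4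
  have hN : (0 : ℝ) < N := by exact_mod_cast (by omega : 0 < N)
  rw [pi_sum, div_le_iff₀ (by positivity)]
  rw [lt_div_iff₀ hN] at h2
  have h5 : 0 ≤ (Nat.primeCounting N : ℝ) * Real.log N := by positivity
  nlinarith

/-- from a weighted bound with all powers of the logarithm to an eventual inequality -/
theorem ev_of_tendsto (E : ℕ → ℝ)
    (h : ∀ K : ℕ, Tendsto (fun N : ℕ => (Real.log N) ^ K / N * |E N|) atTop (𝓝 0)) (K : ℕ) :
    ∀ᶠ N : ℕ in atTop, |E N| ≤ N / Real.log N ^ K := by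
  have h1 : ∀ᶠ N : ℕ in atTop, (Real.log N) ^ K / N * |E N| < 1 :=
    (h K).eventually (gt_mem_nhds one_pos)
  filter_upwards [h1, nlog.eventually_ge_atTop 1, eventually_ge_atTop 1] with N h2 h3 h4
  have hN : (0 : ℝ) < N := by exact_mod_cast h4
  have hl : 0 < Real.log N ^ K := by positivity
  rw [le_div_iff₀ hl]
  rw [div_mul_eq_mul_div, div_lt_one hN] at h2
  linarith

/-- from a weighted bound to the asymptotic formula -/
theorem asym_of (w X R : ℕ → ℝ) (hw0 : ∀ n, 0 ≤ w n) (hw1 : ∀ n, w n ≤ 1) (hR0 : ∀ n, 0 ≤ R n)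
    (hR1 : ∀ n, R n ≤ 1) (k B : ℕ) (L : ℝ)
    (hR : Tendsto (fun n : ℕ => R n * Real.log n ^ k) atTop (𝓝 L))
    (hs : ∀ᶠ N : ℕ in atTop, (N : ℝ) / Real.log N ^ B ≤ ∑ n ∈ Icc 1 N, w n)
    (hX : ∀ K : ℕ, Tendsto (fun N : ℕ => (Real.log N) ^ K / N *
      |∑ n ∈ Icc 1 N, w n * (X n - R n)|) atTop (𝓝 0)) :
    Tendsto (fun N : ℕ => (∑ n ∈ Icc 1 N, w n * X n) * Real.log N ^ k / ∑ n ∈ Icc 1 N, w n) atTop
      (𝓝 L) := by
  have h1 := wsum_lim w R hw0 hw1 hR0 hR1 k B L hR hs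
  have h2 : Tendsto (fun N : ℕ => (∑ n ∈ Icc 1 N, w n * (X n - R n)) * Real.log N ^ k /
      ∑ n ∈ Icc 1 N, w n) atTop (𝓝 0) := by
    refine squeeze_zero_norm' ?_ (hX (k + B))
    filter_upwards [hs, nlog.eventually_ge_atTop 1, eventually_ge_atTop 1] with N h3 h4 h5
    have hN : (0 : ℝ) < N := by exact_mod_cast h5
    have hl : 0 < Real.log N := by linarith
    have hp : 0 < (N : ℝ) / Real.log N ^ B := by positivity
    have hs0 : 0 < ∑ n ∈ Icc 1 N, w n := lt_of_lt_of_le hp h3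
    rw [norm_div, norm_mul, Real.norm_eq_abs, Real.norm_eq_abs, Real.norm_eq_abs, abs_of_pos hs0,
      abs_of_pos (show 0 < Real.log N ^ k by positivity)]
    calc |∑ n ∈ Icc 1 N, w n * (X n - R n)| * Real.log N ^ k / ∑ n ∈ Icc 1 N, w n ≤
          |∑ n ∈ Icc 1 N, w n * (X n - R n)| * Real.log N ^ k / (N / Real.log N ^ B) :=
          div_le_div_of_nonneg_left (by positivity) hp h3
      _ = _ := by
          rw [pow_add]
          field_simp
  have h3 := h1.add h2
  rw [add_zero] at h3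
  refine h3.congr fun N => ?_
  have e : ∑ n ∈ Icc 1 N, (w n * R n + w n * (X n - R n)) = ∑ n ∈ Icc 1 N, w n * X n :=
    Finset.sum_congr rfl fun n _ => by ring
  rw [← add_div, ← add_mul, ← Finset.sum_add_distrib, e]

end Pool.Agent.U996.UW
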