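import Pool.Agent.U996.UW.Tuples

/-!
# The main terms
-/

set_option autoImplicit false

namespace Pool.Agent.U996.UW

open Finset Filter Topology

theorem nlog : Tendsto (fun n : ℕ => Real.log n) atTop atTop :=
  Real.tendsto_log_atTop.comp tendsto_natCast_atTop_atTop

/-- one factor -/
theorem rz_lim (x : ℕ → ℝ) (h : ℤ) (c : ℝ) (hc : 0 < c) (hx : Tendsto x atTop atTop)
    (hlog : Tendsto (fun n : ℕ => Real.log (x n) / Real.log n) atTop (𝓝 c)) :
    Tendsto (fun n : ℕ => rz (⌊x n⌋ + h) * Real.log n) atTop (𝓝 (1 / c)) := by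
  have h1 : ∀ᶠ n : ℕ in atTop, 2 * (|(h : ℝ)| + 1) ≤ x n ∧ |(h : ℝ)| + 4 ≤ x n :=
    (hx.eventually_ge_atTop _).and (hx.eventually_ge_atTop _)
  have h2 : ∀ᶠ n : ℕ in atTop, 1 ≤ Real.log n := nlog.eventually_ge_atTop 1
  have hz : Tendsto (fun n : ℕ => Real.log 2 / Real.log n) atTop (𝓝 0) := nlog.const_div_atTop _
  have h3 : Tendsto (fun n : ℕ => Real.log ((⌊x n⌋ + h : ℤ) : ℝ) / Real.log n) atTop (𝓝 c) := by
    have l1 := hlog.sub hz
    have l2 := hlog.add hz
    rw [sub_zero] at l1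
    rw [add_zero] at l2
    refine tendsto_of_tendsto_of_tendsto_of_le_of_le' l1 l2 ?_ ?_
    · filter_upwards [h1, h2] with n hn hl
      have hf := Int.sub_one_lt_floor (x n)
      have ha := neg_abs_le (h : ℝ)
      have hp := abs_nonneg (h : ℝ)
      have hx0 : 0 < x n := by linarith [hn.1]
      rw [← sub_div]
      apply div_le_div_of_nonneg_right _ (by linarith)
      rw [← Real.log_div hx0.ne' (by norm_num)]
      refine Real.log_le_log (by positivity) ?_
      push_cast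
      linarith [hn.1]
    · filter_upwards [h1, h2] with n hn hl
      have hf := Int.sub_one_lt_floor (x n)
      have hf2 := Int.floor_le (x n)
      have ha := neg_abs_le (h : ℝ)
      have ha2 := le_abs_self (h : ℝ)
      have hp := abs_nonneg (h : ℝ)
      have hx0 : 0 < x n := by linarith [hn.1]
      rw [← add_div]
      apply div_le_div_of_nonneg_right _ (by linarith)
      rw [← Real.log_mul hx0.ne' (by norm_num)]
      refine Real.log_le_log ?_ ?_
      · push_cast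
        linarith [hn.1]
      · push_cast
        linarith [hn.1]
  have h4 := h3.inv₀ hc.ne'
  rw [one_div]
  refine h4.congr' ?_
  filter_upwards [h1, h2] with n hn hl
  have hf := Int.sub_one_lt_floor (x n)
  have ha := neg_abs_le (h : ℝ)
  have h5 : 3 ≤ ⌊x n⌋ + h := by
    have : (2 : ℝ) < ((⌊x n⌋ + h : ℤ) : ℝ) := by
      push_cast
      linarith [hn.2]
    have h6 : (2 : ℤ) < ⌊x n⌋ + h := by exact_mod_cast this
    omega
  unfold rz
  rw [if_pos h5, inv_div]
  ring

/-- powers -/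
theorem pow_lim (α c : ℝ) (hα : 0 < α) (hc : 0 < c) :
    Tendsto (fun n : ℕ => α * (n : ℝ) ^ c) atTop atTop ∧
    Tendsto (fun n : ℕ => Real.log (α * (n : ℝ) ^ c) / Real.log n) atTop (𝓝 c) := by
  constructor
  · exact ((tendsto_rpow_atTop hc).comp tendsto_natCast_atTop_atTop).const_mul_atTop hα
  · have h1 : Tendsto (fun n : ℕ => Real.log α / Real.log n + c) atTop (𝓝 (0 + c)) :=
      (nlog.const_div_atTop _).add_const c
    rw [zero_add] at h1
    refine h1.congr' ?_
    filter_upwards [eventually_ge_atTop 2] with n hn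
    have hn1 : (1 : ℝ) < n := by exact_mod_cast hn
    have hl : 0 < Real.log n := Real.log_pos hn1
    rw [Real.log_mul hα.ne' (by positivity), Real.log_rpow (by linarith)]
    field_simp

theorem rz_nonneg (z : ℤ) : 0 ≤ rz z := by
  unfold rz
  split_ifs with h
  · have : (3 : ℝ) ≤ z := by exact_mod_cast h
    have := Real.log_nonneg (show (1 : ℝ) ≤ z by linarith)
    positivity
  · exact le_rfl

theorem rz_le_one (z : ℤ) : rz z ≤ 1 := by
  unfold rz
  split_ifs with h
  · have h3 : (3 : ℝ) ≤ z := by exact_mod_cast h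
    have h4 : 1 ≤ Real.log z := log_three.le.trans (Real.log_le_log (by norm_num) h3)
    rw [div_le_one (by linarith)]
    exact h4
  · norm_num

theorem pz_nonneg (z : ℤ) : 0 ≤ pz z := by
  unfold pz
  split_ifs <;> norm_num

theorem pz_le_one (z : ℤ) : pz z ≤ 1 := by
  unfold pz
  split_ifs <;> norm_num

/-- the product of the densities -/
theorem prod_lim (k : ℕ) (α c : Fin k → ℝ) (hα : ∀ j, 0 < α j) (hc : ∀ j, 0 < c j) (h : Fin k → ℤ) :
    Tendsto (fun n : ℕ => (∏ j, rz (⌊α j * (n : ℝ) ^ (c j)⌋ + h j)) * Real.log n ^ k) atTop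
      (𝓝 (∏ j, 1 / c j)) := by
  have h1 : Tendsto (fun n : ℕ => ∏ j, (rz (⌊α j * (n : ℝ) ^ (c j)⌋ + h j) * Real.log n)) atTop
      (𝓝 (∏ j, 1 / c j)) := by
    refine tendsto_finset_prod _ fun j _ => ?_
    exact rz_lim _ (h j) (c j) (hc j) (pow_lim _ _ (hα j) (hc j)).1 (pow_lim _ _ (hα j) (hc j)).2
  refine h1.congr fun n => ?_
  rw [Finset.prod_mul_distrib, Finset.prod_const, Finset.card_univ, Fintype.card_fin]

/-- **Weighted sums of a slowly varying density.** -/
theorem wsum_lim (w R : ℕ → ℝ) (hw0 : ∀ n, 0 ≤ w n) (hw1 : ∀ n, w n ≤ 1) (hR0 : ∀ n, 0 ≤ R n)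
    (hR1 : ∀ n, R n ≤ 1) (k B : ℕ) (L : ℝ)
    (hR : Tendsto (fun n : ℕ => R n * Real.log n ^ k) atTop (𝓝 L))
    (hs : ∀ᶠ N : ℕ in atTop, (N : ℝ) / Real.log N ^ B ≤ ∑ n ∈ Icc 1 N, w n) :
    Tendsto (fun N : ℕ => (∑ n ∈ Icc 1 N, w n * R n) * Real.log N ^ k / ∑ n ∈ Icc 1 N, w n) atTop
      (𝓝 L) := by
  obtain ⟨D, hD⟩ : ∃ D : ℕ, D = B + k + 1 := ⟨_, rfl⟩
  -- the ratio of the logarithms
  have hll : Tendsto (fun N : ℕ => Real.log (Real.log N) / Real.log N) atTop (𝓝 0) := by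
    have h1 : Tendsto (fun x : ℝ => Real.log x / x) atTop (𝓝 0) := by
      have := Real.isLittleO_log_id_atTop.tendsto_div_nhds_zero
      simpa using this
    exact h1.comp nlog
  obtain ⟨q, hq⟩ : ∃ q : ℕ → ℝ, q = fun N : ℕ => 1 - D * (Real.log (Real.log N) / Real.log N) := ⟨_, rfl⟩
  have hq1 : Tendsto q atTop (𝓝 1) := by
    rw [hq]
    have := (hll.const_mul (D : ℝ)).const_sub 1
    simpa using this
  have hT : Tendsto (fun N => ((q N)⁻¹) ^ k) atTop (𝓝 1) := by
    have := (hq1.inv₀ one_ne_zero).pow k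
    simpa using this
  have hL0 : 0 ≤ L := by
    refine ge_of_tendsto hR (eventually_atTop.2 ⟨1, fun n hn => ?_⟩)
    have := Real.log_natCast_nonneg n
    have := hR0 n
    positivity
  rw [Metric.tendsto_atTop]
  intro ε hε
  obtain ⟨e, he⟩ : ∃ e : ℝ, e = min 1 (ε / (4 * (2 + L))) := ⟨_, rfl⟩
  have he0 : 0 < e := by rw [he]; positivity
  have he1 : e ≤ 1 := by rw [he]; exact min_le_left _ _
  have he2 : e * (2 + L) ≤ ε / 4 := by
    have h1 : e ≤ ε / (4 * (2 + L)) := by rw [he]; exact min_le_right _ _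
    calc e * (2 + L) ≤ ε / (4 * (2 + L)) * (2 + L) := mul_le_mul_of_nonneg_right h1 (by positivity)
      _ = ε / 4 := by field_simp
  obtain ⟨n0, hn0⟩ := (Metric.tendsto_atTop.1 hR) e he0
  have hsm : Tendsto (fun N : ℕ => (1 + L) / Real.log N) atTop (𝓝 0) := nlog.const_div_atTop _
  have hbig : Tendsto (fun N : ℕ => (N : ℝ) / Real.log N ^ D) atTop atTop := by
    have h1 : Tendsto (fun x : ℝ => Real.log x ^ D / x) atTop (𝓝 0) := by
      have h2 := Real.isLittleO_pow_log_id_atTop (n := D)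
      simpa using h2.tendsto_div_nhds_zero
    have h2 : Tendsto (fun x : ℝ => Real.log x ^ D / x) atTop (𝓝[>] 0) := by
      rw [tendsto_nhdsWithin_iff]
      refine ⟨h1, ?_⟩
      filter_upwards [eventually_gt_atTop (1 : ℝ)] with x hx
      have h5 := Real.log_pos hx
      have h6 : 0 < x := by linarith
      exact div_pos (pow_pos h5 D) h6
    have h3 := h2.inv_tendsto_nhdsGT_zero
    refine (h3.comp tendsto_natCast_atTop_atTop).congr fun N => ?_
    simp
  have ev1 : ∀ᶠ N : ℕ in atTop, 1 ≤ Real.log N := nlog.eventually_ge_atTop 1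
  have ev2 : ∀ᶠ N : ℕ in atTop, (1 + L) / Real.log N < ε / 4 := hsm.eventually (gt_mem_nhds (by positivity))
  have ev3 : ∀ᶠ N : ℕ in atTop, ((q N)⁻¹) ^ k < 1 + e := hT.eventually (gt_mem_nhds (by linarith))
  have ev4 : ∀ᶠ N : ℕ in atTop, 1 / 2 < q N := hq1.eventually (lt_mem_nhds (by norm_num))
  have ev5 : ∀ᶠ N : ℕ in atTop, (n0 : ℝ) + 2 ≤ (N : ℝ) / Real.log N ^ D := hbig.eventually_ge_atTop _
  obtain ⟨N0, hN0⟩ := ((((ev1.and ev2).and ev3).and ev4).and (ev5.and hs)).exists_forall_of_atTop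
  refine ⟨max N0 2, fun N hN => ?_⟩
  obtain ⟨⟨⟨⟨a1, a2⟩, a3⟩, a4⟩, a5, a6⟩ := hN0 N ((le_max_left _ _).trans hN)
  have hN2 : 2 ≤ N := (le_max_right _ _).trans hN
  have hNr : (2 : ℝ) ≤ N := by exact_mod_cast hN2
  have hNpos : (0 : ℝ) < N := by linarith
  obtain ⟨ℓ, hℓ⟩ : ∃ ℓ : ℝ, ℓ = Real.log N := ⟨_, rfl⟩
  rw [← hℓ] at a1 a2 a5 a6 ⊢
  have hℓ0 : 0 < ℓ := by linarith
  obtain ⟨s, hsdef⟩ : ∃ s : ℝ, s = ∑ n ∈ Icc 1 N, w n := ⟨_, rfl⟩
  rw [← hsdef] at a6 ⊢
  have hs0 : 0 < s := lt_of_lt_of_le (by positivity) a6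
  obtain ⟨M, hM⟩ : ∃ M : ℝ, M = (N : ℝ) / ℓ ^ D := ⟨_, rfl⟩
  rw [← hM] at a5
  have hM0 : 0 < M := by rw [hM]; positivity
  -- pointwise bound
  have hpt : ∀ n ∈ Icc 1 N, w n * |R n * ℓ ^ k - L| ≤
      (if (n : ℝ) ≤ M then ℓ ^ k + L else 0) + w n * (e * (2 + L)) := by
    intro n hn
    rw [Finset.mem_Icc] at hn
    have hnpos : (0 : ℝ) < n := by exact_mod_cast hn.1
    have hnN : (n : ℝ) ≤ N := by exact_mod_cast hn.2
    have hlk : 0 ≤ ℓ ^ k := by positivity
    have hwe : 0 ≤ w n * (e * (2 + L)) := mul_nonneg (hw0 n) (by positivity)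
    split_ifs with hnM
    · have h1 : |R n * ℓ ^ k - L| ≤ ℓ ^ k + L := by
        rw [abs_le]
        constructor
        · have := mul_nonneg (hR0 n) hlk
          linarith
        · have := mul_le_mul_of_nonneg_right (hR1 n) hlk
          linarith
      have h2 : w n * |R n * ℓ ^ k - L| ≤ 1 * (ℓ ^ k + L) :=
        mul_le_mul (hw1 n) h1 (abs_nonneg _) zero_le_one
      linarith
    · rw [zero_add]
      apply mul_le_mul_of_nonneg_left _ (hw0 n)
      push Not at hnM
      have hnn0 : n0 ≤ n := by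
        have : (n0 : ℝ) ≤ n := by linarith
        exact_mod_cast this
      have h1 := hn0 n hnn0
      rw [Real.dist_eq] at h1
      have hlogn : ℓ * q N ≤ Real.log n := by
        have h2 : Real.log M ≤ Real.log n := Real.log_le_log hM0 hnM.le
        have h3 : Real.log M = ℓ * q N := by
          rw [hM, Real.log_div hNpos.ne' (by positivity), Real.log_pow, hq]
          simp only
          rw [← hℓ]
          field_simp
        rw [← h3]
        exact h2
      have hlognN : Real.log n ≤ ℓ := by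
        rw [hℓ]
        exact Real.log_le_log hnpos hnN
      have hqpos : 0 < q N := by linarith
      have hlog0 : 0 < Real.log n := lt_of_lt_of_le (by positivity) hlogn
      obtain ⟨r, hr⟩ : ∃ r : ℝ, r = (ℓ / Real.log n) ^ k := ⟨_, rfl⟩
      have hr1 : 1 ≤ r := by
        rw [hr]
        apply one_le_pow₀
        rw [one_le_div hlog0]
        exact hlognN
      have hr2 : r ≤ 1 + e := by
        refine le_trans ?_ a3.le
        rw [hr]
        apply pow_le_pow_left₀ (by positivity)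
        rw [div_le_iff₀ hlog0]
        calc ℓ = (q N)⁻¹ * (ℓ * q N) := by field_simp
          _ ≤ (q N)⁻¹ * Real.log n := mul_le_mul_of_nonneg_left hlogn (by positivity)
      have h4 : R n * ℓ ^ k - L = (R n * Real.log n ^ k - L) * r + L * (r - 1) := by
        rw [hr, div_pow]
        field_simp
        ring
      rw [h4]
      refine (abs_add_le _ _).trans ?_
      rw [abs_mul, abs_mul, abs_of_pos (show 0 < r by linarith), abs_of_nonneg hL0,
        abs_of_nonneg (show 0 ≤ r - 1 by linarith)]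
      have h5 : |R n * Real.log n ^ k - L| * r ≤ e * 2 :=
        mul_le_mul h1.le (by linarith) (by linarith) he0.le
      have h6 : L * (r - 1) ≤ L * e := mul_le_mul_of_nonneg_left (by linarith) hL0
      linarith
  have hsum : |(∑ n ∈ Icc 1 N, w n * R n) * ℓ ^ k - L * s| ≤ M * (ℓ ^ k + L) + s * (e * (2 + L)) := by
    have e1 : (∑ n ∈ Icc 1 N, w n * R n) * ℓ ^ k - L * s =
        ∑ n ∈ Icc 1 N, w n * (R n * ℓ ^ k - L) := by
      rw [hsdef, Finset.mul_sum, Finset.sum_mul, ← Finset.sum_sub_distrib]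
      exact Finset.sum_congr rfl fun n _ => by ring
    rw [e1]
    refine (Finset.abs_sum_le_sum_abs _ _).trans ?_
    have h1 : ∑ n ∈ Icc 1 N, |w n * (R n * ℓ ^ k - L)| ≤
        ∑ n ∈ Icc 1 N, ((if (n : ℝ) ≤ M then ℓ ^ k + L else 0) + w n * (e * (2 + L))) := by
      refine Finset.sum_le_sum fun n hn => ?_
      rw [abs_mul, abs_of_nonneg (hw0 n)]
      exact hpt n hn
    refine h1.trans ?_
    rw [Finset.sum_add_distrib, ← Finset.sum_mul, ← hsdef]
    have h2 : ∑ n ∈ Icc 1 N, (if (n : ℝ) ≤ M then ℓ ^ k + L else 0) ≤ M * (ℓ ^ k + L) := by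
      rw [← Finset.sum_filter, Finset.sum_const, nsmul_eq_mul]
      apply mul_le_mul_of_nonneg_right _ (by positivity)
      have h3 : ((Icc 1 N).filter fun n : ℕ => (n : ℝ) ≤ M).card ≤ ⌊M⌋₊ := by
        calc _ ≤ (Icc 1 ⌊M⌋₊).card := by
              apply Finset.card_le_card
              intro n hn
              rw [Finset.mem_filter, Finset.mem_Icc] at hn
              rw [Finset.mem_Icc]
              exact ⟨hn.1.1, Nat.le_floor hn.2⟩
          _ = _ := by simp
      calc _ ≤ ((⌊M⌋₊ : ℕ) : ℝ) := by exact_mod_cast h3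
        _ ≤ M := Nat.floor_le hM0.le
    linarith
  rw [Real.dist_eq]
  have e2 : (∑ n ∈ Icc 1 N, w n * R n) * ℓ ^ k / s - L =
      ((∑ n ∈ Icc 1 N, w n * R n) * ℓ ^ k - L * s) / s := by
    field_simp
  rw [e2, abs_div, abs_of_pos hs0, div_lt_iff₀ hs0]
  refine lt_of_le_of_lt hsum ?_
  have h7 : M * (ℓ ^ k + L) ≤ (1 + L) / ℓ * s := by
    have h8 : M = N / ℓ ^ B / (ℓ ^ k * ℓ) := by
      rw [hM, hD, pow_add, pow_add, pow_one]
      field_simp
    have h9 : ℓ ^ k + L ≤ (1 + L) * ℓ ^ k := by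
      have : 1 ≤ ℓ ^ k := one_le_pow₀ a1
      nlinarith
    calc M * (ℓ ^ k + L) ≤ M * ((1 + L) * ℓ ^ k) := mul_le_mul_of_nonneg_left h9 hM0.le
      _ = (1 + L) / ℓ * (N / ℓ ^ B) := by
          rw [h8]
          field_simp
      _ ≤ _ := mul_le_mul_of_nonneg_left a6 (by positivity)
  have h10 : (1 + L) / ℓ * s ≤ ε / 4 * s := mul_le_mul_of_nonneg_right a2.le hs0.le
  have h11 : s * (e * (2 + L)) ≤ s * (ε / 4) := mul_le_mul_of_nonneg_left he2 hs0.le
  nlinarith

end Pool.Agent.U996.UW
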