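import Pool.Agent.U996.UW.Core

/-!
# Mean squares over a dyadic block with arbitrary weights: the bound
-/

set_option autoImplicit false

namespace Pool.Agent.U996.UW

open Finset MeasureTheory Filter Topology FourierTransform
open scoped ENNReal
open Pool.Agent.H376R2.MR (er)
open Pool.Agent.Y957.AD (er_norm er_add er_zero PolyVar four_shift memLp_of_bdd)
open Pool.Agent.Y957.VK
open Pool.Agent.Y185.VK (vb vb_sub vb_nonneg vb_le Bw_int Bw_zero Bw_in Bw_le Bw_meas)
open Pool.Agent.Y220.VK (freq_bd)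

theorem enorm_sq (z : ℂ) : ‖z‖ₑ ^ 2 = ENNReal.ofReal (‖z‖ ^ 2) := by
  rw [ENNReal.ofReal_pow (norm_nonneg _), ofReal_norm]

/-- one block, all the analytic input as hypotheses -/
theorem block_abs (A : ℝ → ℂ) (hA1 : ∀ x, ‖A x‖ ≤ 1) (hAm : Measurable A) {x c L V T β Z δ' R : ℝ}
    (N N' : ℕ) (hN : 1 ≤ N) (hNN : N ≤ N') (hNN' : N' ≤ 2 * N) (hc : 0 < c) (hL : L = 1 + c * Real.log 2)
    (hT : 1 ≤ T) (hβ : 0 ≤ β) (hZ : 0 ≤ Z) (hδ' : 0 ≤ δ')
    (hV : ∀ s, 0 ≤ s → s ≤ 1 → ∫ y, ‖Bw A x L (y + s) - Bw A x L y‖ ≤ V * s)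
    (hb : ∀ ξ, |ξ| ≤ T → ‖𝓕 (Bw A x L) ξ‖ ≤ β)
    (hz : ∀ τ : ℝ, |τ| ≤ 2 * (2 * Real.pi * c * T) →
      ‖∑ n ∈ Ioc N N', er τ (Real.log n)‖ ≤ Z * (N / (1 + |τ|) + δ'))
    (hR : R = N * (Z * (N * β ^ 2 * (2 * Real.log (1 + 2 * (2 * Real.pi * c) * T) / (2 * Real.pi * c)) +
      δ' * L)))
    (w : ℕ → ℂ) (hw : ∀ n, ‖w n‖ ≤ 1) :
    ∫⁻ u in Set.Icc (0 : ℝ) 1,
      ‖∑ n ∈ Ioc N N', w n * A (Real.exp (x - c * Real.log N + u) * (n : ℝ) ^ c)‖ₑ ^ 2 ≤
      ENNReal.ofReal (R + N ^ 2 * V ^ 2 / 8 / T) := by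
  have hπ := Real.pi_pos
  have hN0 : (0 : ℝ) < N := by exact_mod_cast hN
  have hl2 : 0 < Real.log 2 := Real.log_pos (by norm_num)
  have hL0 : 0 ≤ L := by rw [hL]; positivity
  -- the functions
  obtain ⟨B, hB⟩ : ∃ B : ℝ → ℂ, B = fun y => Bw A x L (y + -(c * Real.log N)) := ⟨_, rfl⟩
  obtain ⟨d, hd⟩ : ∃ d : ℕ → ℂ, d = fun n => if n ∈ Ioc N N' then w n else 0 := ⟨_, rfl⟩
  have hBi0 : Integrable (Bw A x L) := Bw_int hA1 hAm x L
  have hBi : Integrable B := by rw [hB]; exact hBi0.comp_add_right _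
  have hB1 : ∀ y, ‖B y‖ ≤ 1 := fun y => by rw [hB]; exact Bw_le hA1 _ _ _
  have hd1 : ∀ n, ‖d n‖ ≤ 1 := fun n => by
    rw [hd]
    simp only
    split_ifs
    · exact hw n
    · simp
  have hFB : ∀ ξ, ‖𝓕 B ξ‖ = ‖𝓕 (Bw A x L) ξ‖ := fun ξ => by
    rw [hB, four_shift, norm_mul, er_norm, one_mul]
  have hBc : Continuous (𝓕 B) := VectorFourier.fourierIntegral_continuous Real.continuous_fourierChar
      (by exact continuous_inner) hBi
  obtain ⟨φ, hφ⟩ : ∃ φ : ℝ → ℝ, φ = fun ξ => ‖𝓕 B ξ‖ ^ 2 := ⟨_, rfl⟩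
  have hφc : Continuous φ := by rw [hφ]; exact hBc.norm.pow 2
  have hφ0 : ∀ ξ, 0 ≤ φ ξ := fun ξ => by rw [hφ]; positivity
  obtain ⟨E, hE⟩ : ∃ E : ℝ → ℝ, E = fun ξ => ‖∑ n ∈ Ioc N N', w n * er ξ (2 * Real.pi * c * Real.log n)‖ ^ 2 :=
    ⟨_, rfl⟩
  have hEc : Continuous E := by
    rw [hE]
    exact (continuous_finsetSum _ fun n _ => continuous_const.mul (er_cont _)).norm.pow 2
  have hE0 : ∀ ξ, 0 ≤ E ξ := fun ξ => by rw [hE]; positivity
  have hED : ∀ ξ, ‖Dn d c N' (2 * Real.pi * ξ)‖ ^ 2 = E ξ := by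
    intro ξ
    rw [hE]
    simp only
    congr 2
    unfold Dn
    rw [hd]
    simp only [ite_mul, zero_mul]
    rw [← Finset.sum_filter]
    have e : (Finset.Icc 1 N').filter (fun n => n ∈ Ioc N N') = Ioc N N' := by
      ext n
      simp only [Finset.mem_filter, Finset.mem_Icc, Finset.mem_Ioc]
      omega
    rw [e]
    refine Finset.sum_congr rfl fun n _ => ?_
    congr 1
    unfold er
    congr 2
    push_cast
    ring
  have hEN : ∀ ξ, E ξ ≤ (N : ℝ) ^ 2 := by
    intro ξ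
    rw [hE]
    refine pow_le_pow_left₀ (norm_nonneg _) ?_ 2
    refine (norm_sum_le _ _).trans ?_
    calc ∑ n ∈ Ioc N N', ‖w n * er ξ (2 * Real.pi * c * Real.log n)‖ ≤ ∑ n ∈ Ioc N N', (1 : ℝ) := by
          refine Finset.sum_le_sum fun n _ => ?_
          rw [norm_mul, er_norm, mul_one]
          exact hw n
      _ = (N' : ℝ) - N := by
          rw [Finset.sum_const, Nat.card_Ioc, nsmul_eq_mul, mul_one, Nat.cast_sub hNN]
      _ ≤ N := by
          have : (N' : ℝ) ≤ 2 * N := by exact_mod_cast hNN'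
          linarith
  -- the kernel
  have hφint : ∫ ξ in Set.Icc (-T) T, φ ξ ≤ L := by
    have h1 : ∫⁻ ξ, ‖𝓕 B ξ‖ₑ ^ 2 ≤ ENNReal.ofReal L := by
      rw [Pool.Agent.TH794.QD.plancherel _ hBi (memLp_of_bdd hBi hB1)]
      have h2 : ∫⁻ y, ‖B y‖ₑ ^ 2 = ∫⁻ y, ‖Bw A x L y‖ₑ ^ 2 := by
        rw [hB]
        exact lintegral_add_right_eq_self (fun y => ‖Bw A x L y‖ₑ ^ 2) _
      rw [h2]
      exact B_sq (Bw_le hA1 _ _) fun y hy => Bw_zero hy
    have h3 : ENNReal.ofReal (∫ ξ in Set.Icc (-T) T, φ ξ) ≤ ENNReal.ofReal L := by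
      rw [ofReal_integral_eq_lintegral_ofReal (hφc.continuousOn.integrableOn_compact isCompact_Icc)
        (ae_of_all _ fun ξ => hφ0 ξ)]
      refine le_trans (setLIntegral_le_lintegral _ _) (le_trans (le_of_eq ?_) h1)
      refine lintegral_congr fun ξ => ?_
      rw [enorm_sq, hφ]
    exact (ENNReal.ofReal_le_ofReal_iff hL0).1 h3
  have hM : ∀ ξ ∈ Set.Icc (-T) T, ∫ y in Set.Icc (-T) T,
      ‖∑ n ∈ Ioc N N', er (ξ - y) (2 * Real.pi * c * Real.log n)‖ * φ y ≤
      Z * (N * β ^ 2 * (2 * Real.log (1 + 2 * (2 * Real.pi * c) * T) / (2 * Real.pi * c)) + δ' * L) := by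
    intro ξ hξ
    have hker : Continuous fun y : ℝ => 1 / (1 + (2 * Real.pi * c) * |ξ - y|) := by
      refine continuous_const.div (by fun_prop) fun y => ?_
      have : 0 ≤ (2 * Real.pi * c) * |ξ - y| := by positivity
      linarith
    have h1 : ∀ y ∈ Set.Icc (-T) T,
        ‖∑ n ∈ Ioc N N', er (ξ - y) (2 * Real.pi * c * Real.log n)‖ * φ y ≤
        Z * N * β ^ 2 * (1 / (1 + (2 * Real.pi * c) * |ξ - y|)) + Z * δ' * φ y := by
      intro y hy
      have e1 : ∑ n ∈ Ioc N N', er (ξ - y) (2 * Real.pi * c * Real.log n) =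
          ∑ n ∈ Ioc N N', er (2 * Real.pi * c * (ξ - y)) (Real.log n) := by
        refine Finset.sum_congr rfl fun n _ => ?_
        unfold er
        congr 2
        push_cast
        ring
      have h2 : |ξ - y| ≤ 2 * T := by
        rw [abs_le]
        constructor <;> linarith [hξ.1, hξ.2, hy.1, hy.2]
      have e3 : |2 * Real.pi * c * (ξ - y)| = 2 * Real.pi * c * |ξ - y| := by
        rw [abs_mul, abs_of_pos (show 0 < 2 * Real.pi * c by positivity)]
      have h3 := hz (2 * Real.pi * c * (ξ - y)) (by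
        rw [e3]
        calc 2 * Real.pi * c * |ξ - y| ≤ 2 * Real.pi * c * (2 * T) :=
              mul_le_mul_of_nonneg_left h2 (by positivity)
          _ = _ := by ring)
      rw [e3, ← e1] at h3
      have h4 : φ y ≤ β ^ 2 := by
        rw [hφ]
        simp only
        rw [hFB]
        exact pow_le_pow_left₀ (norm_nonneg _) (hb y (abs_le.2 hy)) 2
      have h5 := hφ0 y
      have h6 : 0 ≤ Z * (N / (1 + 2 * Real.pi * c * |ξ - y|)) := by positivity
      calc _ ≤ Z * (N / (1 + 2 * Real.pi * c * |ξ - y|) + δ') * φ y :=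
            mul_le_mul_of_nonneg_right h3 h5
        _ = Z * (N / (1 + 2 * Real.pi * c * |ξ - y|)) * φ y + Z * δ' * φ y := by ring
        _ ≤ Z * (N / (1 + 2 * Real.pi * c * |ξ - y|)) * β ^ 2 + Z * δ' * φ y := by
            have := mul_le_mul_of_nonneg_left h4 h6
            linarith
        _ = _ := by ring
    have h7 : ∫ y in Set.Icc (-T) T,
        ‖∑ n ∈ Ioc N N', er (ξ - y) (2 * Real.pi * c * Real.log n)‖ * φ y ≤
        ∫ y in Set.Icc (-T) T,
          (Z * N * β ^ 2 * (1 / (1 + (2 * Real.pi * c) * |ξ - y|)) + Z * δ' * φ y) := by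
      refine setIntegral_mono_on ?_ ?_ measurableSet_Icc h1
      · refine ContinuousOn.integrableOn_compact isCompact_Icc (Continuous.continuousOn ?_)
        refine Continuous.mul (Continuous.norm ?_) hφc
        exact continuous_finsetSum _ fun n _ => (er_cont _).comp (continuous_const.sub continuous_id)
      · refine ContinuousOn.integrableOn_compact isCompact_Icc (Continuous.continuousOn ?_)
        exact (continuous_const.mul hker).add (continuous_const.mul hφc)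
    refine h7.trans ?_
    rw [integral_add, integral_const_mul, integral_const_mul]
    · have h8 := kern_int (a := 2 * Real.pi * c) (T := T) (ξ := ξ) (by positivity) hξ
      have h9 : Z * N * β ^ 2 * ∫ y in Set.Icc (-T) T, 1 / (1 + (2 * Real.pi * c) * |ξ - y|) ≤
          Z * N * β ^ 2 * (2 * Real.log (1 + 2 * (2 * Real.pi * c) * T) / (2 * Real.pi * c)) :=
        mul_le_mul_of_nonneg_left h8 (by positivity)
      have h10 : Z * δ' * ∫ y in Set.Icc (-T) T, φ y ≤ Z * δ' * L :=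
        mul_le_mul_of_nonneg_left hφint (by positivity)
      calc _ ≤ _ := add_le_add h9 h10
        _ = _ := by ring
    · exact (continuous_const.mul hker).continuousOn.integrableOn_compact isCompact_Icc
    · exact (continuous_const.mul hφc).continuousOn.integrableOn_compact isCompact_Icc
  have hlogpos : 0 ≤ Real.log (1 + 2 * (2 * Real.pi * c) * T) := by
    apply Real.log_nonneg
    have : 0 ≤ 2 * (2 * Real.pi * c) * T := by positivity
    linarith
  have hMM : 0 ≤ Z * (N * β ^ 2 * (2 * Real.log (1 + 2 * (2 * Real.pi * c) * T) / (2 * Real.pi * c)) +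
      δ' * L) := by positivity
  have hsch := schur (Ioc N N') w (fun n => 2 * Real.pi * c * Real.log n) φ hφc hφ0 T _ hMM hM
  have hW : ∑ n ∈ Ioc N N', ‖w n‖ ^ 2 ≤ N := by
    calc ∑ n ∈ Ioc N N', ‖w n‖ ^ 2 ≤ ∑ n ∈ Ioc N N', (1 : ℝ) := by
          refine Finset.sum_le_sum fun n _ => ?_
          have := hw n
          have := norm_nonneg (w n)
          nlinarith
      _ = (N' : ℝ) - N := by
          rw [Finset.sum_const, Nat.card_Ioc, nsmul_eq_mul, mul_one, Nat.cast_sub hNN]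
      _ ≤ N := by
          have : (N' : ℝ) ≤ 2 * N := by exact_mod_cast hNN'
          linarith
  have hRb : ∫ ξ in Set.Icc (-T) T, E ξ * φ ξ ≤ R := by
    rw [hE]
    refine hsch.trans ?_
    rw [hR, mul_comm]
    exact mul_le_mul_of_nonneg_right hW hMM
  have hcut := cut E φ hEc hφc hE0 hφ0 (V := V) hT (by positivity) hEN hRb (fun ξ hξ => by
    rw [hφ]
    simp only
    rw [hFB]
    exact pow_le_pow_left₀ (norm_nonneg _) (four_decay hBi0 hV (by linarith)) 2)
  -- Plancherel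
  have hpl : ∫⁻ u, ‖Gn d B c N' u‖ₑ ^ 2 ≤ ENNReal.ofReal (R + N ^ 2 * V ^ 2 / 8 / T) := by
    rw [← Pool.Agent.TH794.QD.plancherel _ (Gn_int d hBi c N')
      (memLp_of_bdd (Gn_int d hBi c N') (Gn_le d hd1 hB1 c N'))]
    refine le_trans (le_of_eq (lintegral_congr fun ξ => ?_)) hcut
    rw [four_Gn _ hBi, enorm_mul, mul_pow, enorm_sq, enorm_sq, ← ENNReal.ofReal_mul (by positivity),
      hED, hφ]
  refine le_trans ?_ hpl
  refine le_trans ?_ (setLIntegral_le_lintegral (Set.Icc (0 : ℝ) 1) _)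
  refine setLIntegral_mono' measurableSet_Icc fun u hu => le_of_eq ?_
  congr 2
  unfold Gn
  rw [hd]
  simp only [ite_mul, zero_mul]
  rw [← Finset.sum_filter]
  have e : (Finset.Icc 1 N').filter (fun n => n ∈ Ioc N N') = Ioc N N' := by
    ext n
    simp only [Finset.mem_filter, Finset.mem_Icc, Finset.mem_Ioc]
    omega
  rw [e]
  refine Finset.sum_congr rfl fun n hn => ?_
  rw [Finset.mem_Ioc] at hn
  have hnN : (N : ℝ) < n := by exact_mod_cast hn.1
  have hn0 : (0 : ℝ) < n := by linarith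
  have hn2 : (n : ℝ) ≤ 2 * N := by
    have : (n : ℝ) ≤ N' := by exact_mod_cast hn.2
    have : (N' : ℝ) ≤ 2 * N := by exact_mod_cast hNN'
    linarith
  have hl1 : Real.log N ≤ Real.log n := Real.log_le_log hN0 hnN.le
  have hl3 : Real.log n ≤ Real.log 2 + Real.log N := by
    rw [← Real.log_mul (by norm_num) hN0.ne']
    exact Real.log_le_log hn0 hn2
  have hmem : u + c * Real.log n + -(c * Real.log N) ∈ Set.Icc 0 L := by
    constructor
    · have := hu.1
      nlinarith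
    · rw [hL]
      have := hu.2
      nlinarith
  rw [hB]
  simp only
  rw [Bw_in hmem, Real.rpow_def_of_pos hn0, ← Real.exp_add]
  congr 3
  ring

end Pool.Agent.U996.UW
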