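import Pool.Agent.U996.UW.Prod
import Pool.Agent.U996.UW.One

/-!
# Chains with real multipliers (nested floors)
-/

set_option autoImplicit false

namespace Pool.Agent.U996.UW

open Finset MeasureTheory Filter Topology
open scoped ENNReal
open Pool.Agent.H376R2.MR (er)
open Pool.Agent.Y957.AD (er_norm er_add er_zero PolyVar)
open Pool.Agent.Y957.VK

/-- the terms of the chain -/
noncomputable def term {k : ℕ} (α : Fin k → ℝ) (h : Fin k → ℤ) (p : ℕ) : ℕ → ℤ
  | 0 => p
  | i + 1 => if hi : i < k then ⌊α ⟨i, hi⟩ * (term α h p i : ℝ)⌋ + h ⟨i, hi⟩ else 0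

/-- the terms `1, …, i` are primes -/
def good {k : ℕ} (α : Fin k → ℝ) (h : Fin k → ℤ) (p i : ℕ) : Prop :=
  ∀ j, 1 ≤ j → j ≤ i → (term α h p j).toNat.Prime

theorem term_succ {k : ℕ} (α : Fin k → ℝ) (h : Fin k → ℤ) (p : ℕ) (i : Fin k) :
    term α h p (i + 1) = ⌊α i * (term α h p i : ℝ)⌋ + h i := by
  rw [term, dif_pos i.isLt]

theorem good_pos {k : ℕ} {α : Fin k → ℝ} {h : Fin k → ℤ} {p i : ℕ} (hp : 1 ≤ p) (hg : good α h p i) :
    1 ≤ term α h p i := by
  rcases Nat.eq_zero_or_pos i with h0 | h0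
  · rw [h0, term]
    exact_mod_cast hp
  · have := (hg i h0 le_rfl).two_le
    omega

theorem good_mono {k : ℕ} {α : Fin k → ℝ} {h : Fin k → ℤ} {p i j : ℕ} (hij : j ≤ i)
    (hg : good α h p i) : good α h p j := fun l h1 h2 => hg l h1 (h2.trans hij)

theorem good_succ {k : ℕ} (α : Fin k → ℝ) (h : Fin k → ℤ) (p i : ℕ) :
    good α h p (i + 1) ↔ good α h p i ∧ (term α h p (i + 1)).toNat.Prime := by
  constructor
  · intro hg
    exact ⟨good_mono (Nat.le_succ i) hg, hg (i + 1) (by omega) le_rfl⟩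
  · rintro ⟨hg, hi⟩ j h1 h2
    rcases Nat.lt_or_ge i j with h3 | h3
    · have : j = i + 1 := by omega
      rw [this]
      exact hi
    · exact hg j h1 h3

theorem term_update {k : ℕ} (α : Fin k → ℝ) (h : Fin k → ℤ) (p : ℕ) (i : Fin k) (a : ℝ) :
    ∀ j : ℕ, j ≤ i → term (Function.update α i a) h p j = term α h p j := by
  intro j
  induction j with
  | zero => intro _; rfl
  | succ j ih =>
    intro hj
    have hjk : j < k := by have := i.isLt; omega
    rw [term, term, dif_pos hjk, dif_pos hjk, ih (by omega)]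
    have hne : (⟨j, hjk⟩ : Fin k) ≠ i := by
      intro hh
      have := congrArg Fin.val hh
      simp only at this
      omega
    rw [Function.update_of_ne hne]

theorem good_update {k : ℕ} (α : Fin k → ℝ) (h : Fin k → ℤ) (p : ℕ) (i : Fin k) (a : ℝ) :
    good (Function.update α i a) h p i ↔ good α h p i := by
  constructor
  · intro hg j h1 h2
    rw [← term_update α h p i a j h2]
    exact hg j h1 h2
  · intro hg j h1 h2
    rw [term_update α h p i a j h2]
    exact hg j h1 h2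

theorem term_meas {k : ℕ} (b : Fin k → ℝ) (h : Fin k → ℤ) (p : ℕ) : ∀ j : ℕ,
    Measurable fun ω : Fin k → ℝ => term (fun l => Real.exp (b l + ω l)) h p j := by
  intro j
  induction j with
  | zero => exact measurable_const
  | succ j ih =>
    by_cases hj : j < k
    · have e : (fun ω : Fin k → ℝ => term (fun l => Real.exp (b l + ω l)) h p (j + 1)) =
          fun ω => (fun z : ℤ => z + h ⟨j, hj⟩)
            ⌊Real.exp (b ⟨j, hj⟩ + ω ⟨j, hj⟩) * ((fun z : ℤ => (z : ℝ))
              (term (fun l => Real.exp (b l + ω l)) h p j))⌋ := by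
        funext ω
        rw [term, dif_pos hj]
      rw [e]
      refine (measurable_from_top (f := fun z : ℤ => z + h ⟨j, hj⟩)).comp (Int.measurable_floor.comp ?_)
      refine Measurable.mul ?_ ((measurable_from_top (f := fun z : ℤ => (z : ℝ))).comp ih)
      exact ((measurable_pi_apply _).const_add _).exp
    · have e : (fun ω : Fin k → ℝ => term (fun l => Real.exp (b l + ω l)) h p (j + 1)) =
          fun _ => 0 := by
        funext ω
        rw [term, dif_neg hj]
      rw [e]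
      exact measurable_const

theorem good_meas {k : ℕ} (b : Fin k → ℝ) (h : Fin k → ℤ) (p i : ℕ) :
    MeasurableSet {ω : Fin k → ℝ | good (fun l => Real.exp (b l + ω l)) h p i} := by
  have e : {ω : Fin k → ℝ | good (fun l => Real.exp (b l + ω l)) h p i} =
      ⋂ j : ℕ, {ω | 1 ≤ j → j ≤ i → (term (fun l => Real.exp (b l + ω l)) h p j).toNat.Prime} := by
    ext ω
    simp only [Set.mem_iInter, Set.mem_ofPred_eq]
    rfl
  rw [e]
  refine MeasurableSet.iInter fun j => ?_
  exact (term_meas b h p j) (MeasurableSet.of_discrete (s := {z : ℤ | 1 ≤ j → j ≤ i → z.toNat.Prime}))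

/-- growth -/
theorem term_growth {k : ℕ} (b : Fin k → ℝ) (h : Fin k → ℤ) : ∀ i : ℕ, i ≤ k → ∃ G : ℕ, 1 ≤ G ∧
    ∀ α : Fin k → ℝ, (∀ l, Real.exp (b l) ≤ α l ∧ α l ≤ Real.exp (b l + 1)) → ∀ p : ℕ, 1 ≤ p →
      good α h p i → (term α h p i).toNat ≤ G * p := by
  intro i
  induction i with
  | zero =>
    intro _
    refine ⟨1, le_rfl, fun α _ p _ _ => ?_⟩
    rw [term, Int.toNat_natCast, one_mul]
  | succ i ih =>
    intro hi
    obtain ⟨G, hG, hg⟩ := ih (by omega)
    have hik : i < k := by omega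
    obtain ⟨B, hB⟩ : ∃ B : ℕ, Real.exp (b ⟨i, hik⟩ + 1) + |(h ⟨i, hik⟩ : ℝ)| ≤ B :=
      ⟨_, Nat.le_ceil _⟩
    refine ⟨(B + 1) * G, by nlinarith, fun α hα p hp hgood => ?_⟩
    have h1 := hg α hα p hp (good_mono (Nat.le_succ i) hgood)
    have h2 := good_pos hp (good_mono (Nat.le_succ i) hgood)
    have h3 := good_pos hp hgood
    have h4 : term α h p (i + 1) = ⌊α ⟨i, hik⟩ * (term α h p i : ℝ)⌋ + h ⟨i, hik⟩ := by
      rw [term, dif_pos hik]
    obtain ⟨z, hz⟩ : ∃ z : ℤ, z = term α h p i := ⟨_, rfl⟩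
    rw [← hz] at h1 h2 h4
    have hz1 : (1 : ℝ) ≤ z := by exact_mod_cast h2
    have hzn : ((z.toNat : ℕ) : ℝ) = z := by
      have : ((z.toNat : ℕ) : ℤ) = z := Int.toNat_of_nonneg (by omega)
      exact_mod_cast this
    have h5 : ((term α h p (i + 1) : ℤ) : ℝ) ≤ B * z := by
      rw [h4]
      push_cast
      have h6 := Int.floor_le (α ⟨i, hik⟩ * (z : ℝ))
      have h7 : α ⟨i, hik⟩ * (z : ℝ) ≤ Real.exp (b ⟨i, hik⟩ + 1) * z :=
        mul_le_mul_of_nonneg_right (hα ⟨i, hik⟩).2 (by linarith)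
      have h8 : (h ⟨i, hik⟩ : ℝ) ≤ |(h ⟨i, hik⟩ : ℝ)| * z :=
        (le_abs_self _).trans (le_mul_of_one_le_right (abs_nonneg _) hz1)
      have h9 : (Real.exp (b ⟨i, hik⟩ + 1) + |(h ⟨i, hik⟩ : ℝ)|) * z ≤ B * z :=
        mul_le_mul_of_nonneg_right hB (by linarith)
      linarith
    have h6 : (((term α h p (i + 1)).toNat : ℕ) : ℝ) = (term α h p (i + 1) : ℝ) := by
      have : (((term α h p (i + 1)).toNat : ℕ) : ℤ) = term α h p (i + 1) :=
        Int.toNat_of_nonneg (by omega)
      exact_mod_cast this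
    have h7 : (((term α h p (i + 1)).toNat : ℕ) : ℝ) ≤ ((B * (G * p) : ℕ) : ℝ) := by
      rw [h6]
      refine h5.trans ?_
      rw [← hzn]
      push_cast
      apply mul_le_mul_of_nonneg_left _ (Nat.cast_nonneg _)
      exact_mod_cast h1
    have h8 : (term α h p (i + 1)).toNat ≤ B * (G * p) := by exact_mod_cast h7
    calc _ ≤ B * (G * p) := h8
      _ ≤ (B + 1) * G * p := by
          rw [mul_assoc]
          exact Nat.mul_le_mul_right _ (Nat.le_succ B)

/-- the fibres of one step -/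
theorem step_fibre (a : ℝ) (ha : 0 < a) (h m : ℤ) (B : ℕ) (hB : 1 / a + 1 ≤ B) :
    ∃ Z : Finset ℤ, Z.card ≤ B ∧ ∀ z : ℤ, ⌊a * (z : ℝ)⌋ + h = m → z ∈ Z := by
  refine ⟨Finset.Ico ⌈((m - h : ℤ) : ℝ) / a⌉ ⌈((m - h + 1 : ℤ) : ℝ) / a⌉, ?_, ?_⟩
  · rw [Int.card_Ico]
    have h1 := Int.ceil_lt_add_one (((m - h + 1 : ℤ) : ℝ) / a)
    have h2 := Int.le_ceil (((m - h : ℤ) : ℝ) / a)
    have h3 : ((m - h + 1 : ℤ) : ℝ) / a - ((m - h : ℤ) : ℝ) / a = 1 / a := by
      push_cast
      field_simp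
      ring
    have h4 : ((⌈((m - h + 1 : ℤ) : ℝ) / a⌉ - ⌈((m - h : ℤ) : ℝ) / a⌉ : ℤ) : ℝ) ≤ ((B : ℤ) : ℝ) := by
      push_cast at *
      linarith
    have h5 : ⌈((m - h + 1 : ℤ) : ℝ) / a⌉ - ⌈((m - h : ℤ) : ℝ) / a⌉ ≤ (B : ℤ) := by exact_mod_cast h4
    omega
  · intro z hz
    have h1 : ⌊a * (z : ℝ)⌋ = m - h := by omega
    rw [Int.floor_eq_iff] at h1
    rw [Finset.mem_Ico]
    constructor
    · rw [Int.ceil_le, div_le_iff₀ ha, mul_comm (z : ℝ)]
      exact h1.1
    · rw [Int.lt_ceil, lt_div_iff₀ ha, mul_comm (z : ℝ)]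
      have := h1.2
      push_cast at *
      linarith

/-- the fibres of the chain -/
theorem term_fibre {k : ℕ} (b : Fin k → ℝ) (h : Fin k → ℤ) : ∀ i : ℕ, i ≤ k → ∃ B : ℕ, 
    ∀ α : Fin k → ℝ, (∀ l, Real.exp (b l) ≤ α l ∧ α l ≤ Real.exp (b l + 1)) → ∀ (N : ℕ) (m : ℤ),
      ((Icc 1 N).filter fun p => term α h p i = m).card ≤ B := by
  classical
  intro i
  induction i with
  | zero =>
    intro _
    refine ⟨1, fun α _ N m => ?_⟩
    rw [Finset.card_le_one]
    intro x hx y hy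
    have h1 := (Finset.mem_filter.1 hx).2
    have h2 := (Finset.mem_filter.1 hy).2
    rw [term] at h1 h2
    have : (x : ℤ) = y := h1.trans h2.symm
    exact_mod_cast this
  | succ i ih =>
    intro hi
    obtain ⟨B, hg⟩ := ih (by omega)
    have hik : i < k := by omega
    obtain ⟨D, hD⟩ : ∃ D : ℕ, 1 / Real.exp (b ⟨i, hik⟩) + 1 ≤ D := ⟨_, Nat.le_ceil _⟩
    refine ⟨D * B, fun α hα N m => ?_⟩
    have ha : 0 < α ⟨i, hik⟩ := lt_of_lt_of_le (Real.exp_pos _) (hα ⟨i, hik⟩).1
    have hD' : 1 / α ⟨i, hik⟩ + 1 ≤ D := by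
      have := one_div_le_one_div_of_le (Real.exp_pos _) (hα ⟨i, hik⟩).1
      linarith
    obtain ⟨Z, hZ, hmem⟩ := step_fibre (α ⟨i, hik⟩) ha (h ⟨i, hik⟩) m D hD'
    have hsub : ((Icc 1 N).filter fun p => term α h p (i + 1) = m) ⊆
        Z.biUnion fun z => (Icc 1 N).filter fun p => term α h p i = z := by
      intro p hp
      rw [Finset.mem_filter] at hp
      rw [Finset.mem_biUnion]
      refine ⟨term α h p i, hmem _ ?_, Finset.mem_filter.2 ⟨hp.1, rfl⟩⟩
      have h1 := hp.2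
      rw [term, dif_pos hik] at h1
      exact h1
    calc _ ≤ (Z.biUnion fun z => (Icc 1 N).filter fun p => term α h p i = z).card :=
          Finset.card_le_card hsub
      _ ≤ Z.card * B := Finset.card_biUnion_le_card_mul _ _ _ fun z _ => hg α hα N z
      _ ≤ D * B := Nat.mul_le_mul_right _ hZ

open Classical in
/-- **Mean squares over the last multiplier.** -/
theorem chain_neg (w : ℕ → ℂ) (hw : ∀ n, ‖w n‖ ≤ 1) (k : ℕ) (h : Fin (k + 1) → ℤ) (i : Fin (k + 1))
    (b : Fin (k + 1) → ℝ) (A : ℝ → ℂ) (hA1 : ∀ x, ‖A x‖ ≤ 1) (hAm : Measurable A) (hAv : PolyVar A)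
    (hAw : WNeg A) :
    NegF (Measure.pi fun _ : Fin (k + 1) => (volume : Measure ℝ).restrict (Set.Icc (0 : ℝ) 1))
      (fun ω n => if good (fun l => Real.exp (b l + ω l)) h n i then
        w n * A (Real.exp (b i + ω i) * (term (fun l => Real.exp (b l + ω l)) h n i : ℝ)) else 0) := by
  intro _ K
  obtain ⟨C, hC, hmap⟩ := full_map A hA1 hAm hAv hAw (b i) 1 one_pos K
  obtain ⟨G, hG, hgr⟩ := term_growth b h i (by have := i.isLt; omega)
  obtain ⟨B, hfib⟩ := term_fibre b h i (by have := i.isLt; omega)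
  refine ⟨C * B ^ 2 * G ^ 2, by positivity, fun N τ hN _ => ?_⟩
  refine cube_update k i _ _ fun ω hω => ?_
  obtain ⟨α, hα⟩ : ∃ α : Fin (k + 1) → ℝ, α = fun l => Real.exp (b l + ω l) := ⟨_, rfl⟩
  have hαb : ∀ l, Real.exp (b l) ≤ α l ∧ α l ≤ Real.exp (b l + 1) := by
    intro l
    rw [hα]
    exact ⟨Real.exp_le_exp.2 (by linarith [(hω l).1]), Real.exp_le_exp.2 (by linarith [(hω l).2])⟩
  have hupd : ∀ u : ℝ, (fun l => Real.exp (b l + Function.update ω i u l)) =
      Function.update α i (Real.exp (b i + u)) := by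
    intro u
    funext l
    by_cases hl : l = i
    · rw [hl, Function.update_self, Function.update_self]
    · rw [Function.update_of_ne hl, Function.update_of_ne hl, hα]
  have hNr : (2 : ℝ) ≤ N := by exact_mod_cast hN
  have h1 := hmap ℕ ((Icc 1 N).filter fun n => good α h n i) (fun n => w n * er τ (Real.log n))
    (fun n => (term α h n i).toNat) (G * N) B (by nlinarith) (fun n _ => by
      rw [norm_mul, er_norm, mul_one]
      exact hw n) (fun n hn => by
      rw [Finset.mem_filter, Finset.mem_Icc] at hn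
      have h2 := good_pos hn.1.1 hn.2
      have h3 := hgr α hαb n hn.1.1 hn.2
      have h4 : G * n ≤ G * N := Nat.mul_le_mul_left _ hn.1.2
      constructor
      · omega
      · omega) (fun m => by
      refine le_trans (Finset.card_le_card ?_) (hfib α hαb N (m : ℤ))
      intro n hn
      rw [Finset.mem_filter, Finset.mem_filter] at hn
      rw [Finset.mem_filter]
      refine ⟨hn.1.1, ?_⟩
      have h2 := good_pos (Finset.mem_Icc.1 hn.1.1).1 hn.1.2
      have h3 := hn.2
      omega)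
  refine le_trans (le_of_eq (lintegral_congr fun u => ?_)) (h1.trans (ENNReal.ofReal_le_ofReal ?_))
  · congr 2
    rw [Finset.sum_filter]
    refine Finset.sum_congr rfl fun n hn => ?_
    beta_reduce
    rw [hupd, good_update, term_update α h n i _ i le_rfl, Function.update_self]
    by_cases hg : good α h n i
    · rw [if_pos hg, if_pos hg, Real.rpow_one]
      have h2 := good_pos (Finset.mem_Icc.1 hn).1 hg
      have h3 : (((term α h n i).toNat : ℕ) : ℝ) = (term α h n i : ℝ) := by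
        have : (((term α h n i).toNat : ℕ) : ℤ) = term α h n i := Int.toNat_of_nonneg (by omega)
        exact_mod_cast this
      rw [h3]
      ring
    · rw [if_neg hg, if_neg hg, zero_mul]
  · have hG1 : (1 : ℝ) ≤ G := by exact_mod_cast hG
    have hlog : 0 < Real.log N := Real.log_pos (by linarith)
    have hll : Real.log N ≤ Real.log ((G * N : ℕ) : ℝ) := by
      apply Real.log_le_log (by linarith)
      push_cast
      exact le_mul_of_one_le_left (by linarith) hG1
    have h5 : Real.log N ^ K ≤ Real.log ((G * N : ℕ) : ℝ) ^ K := pow_le_pow_left₀ hlog.le hll K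
    calc C * (B : ℝ) ^ 2 * (((G * N : ℕ) : ℝ) ^ 2 / Real.log ((G * N : ℕ) : ℝ) ^ K) ≤
          C * (B : ℝ) ^ 2 * (((G * N : ℕ) : ℝ) ^ 2 / Real.log N ^ K) := by
          apply mul_le_mul_of_nonneg_left _ (by positivity)
          exact div_le_div_of_nonneg_left (by positivity) (by positivity) h5
      _ = _ := by
          push_cast
          ring

end Pool.Agent.U996.UW
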