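import Pool.Agent.U996.UW.Chain

/-!
# Chains with real multipliers: almost every vector of multipliers, asymptotic formulas
-/

set_option autoImplicit false

namespace Pool.Agent.U996.UW

open Finset MeasureTheory Filter Topology
open scoped ENNReal
open Pool.Agent.Y957.AD (PolyVar)
open Pool.Agent.Y957.VK

open Classical in
theorem chain_ae (w : ℕ → ℝ) (hw : ∀ n, |w n| ≤ 1) (k : ℕ) (h : Fin (k + 1) → ℤ) (i : Fin (k + 1)) :
    ∀ᵐ α ∂((volume : Measure (Fin (k + 1) → ℝ)).restrict {α | ∀ i, 0 < α i}), ∀ K : ℕ,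
      Tendsto (fun N : ℕ => (Real.log N) ^ K / N *
        |∑ n ∈ Finset.Icc 1 N, (if good α h n i then w n else 0) *
          (pz (term α h n (i + 1)) - rz (term α h n (i + 1)))|) atTop (𝓝 0) := by
  refine ae_cubes (k + 1) (fun α => ∀ K : ℕ,
      Tendsto (fun N : ℕ => (Real.log N) ^ K / N *
        |∑ n ∈ Finset.Icc 1 N, (if good α h n i then w n else 0) *
          (pz (term α h n (i + 1)) - rz (term α h n (i + 1)))|) atTop (𝓝 0)) fun b => ?_
  have h1 := Pool.Agent.Y901.VK.bc (Fin (k + 1) → ℝ)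
    (Measure.pi fun _ : Fin (k + 1) => (volume : Measure ℝ).restrict (Set.Icc (0 : ℝ) 1))
    (fun ω n => if good (fun l => Real.exp ((b l : ℝ) + ω l)) h n i then
        ((w n : ℝ) : ℂ) * sh (fun m => pI m - pR m) (h i) (Real.exp ((b i : ℝ) + ω i) *
          (term (fun l => Real.exp ((b l : ℝ) + ω l)) h n i : ℝ)) else 0)
    (fun n => by
      refine Measurable.ite (good_meas (fun l => (b l : ℝ)) h n i) ?_ measurable_const
      refine Measurable.const_mul ?_ _
      refine (sh_meas _ _).comp ?_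
      refine Measurable.mul ?_ ((measurable_from_top (f := fun z : ℤ => (z : ℝ))).comp
        (term_meas (fun l => (b l : ℝ)) h n i))
      exact ((measurable_pi_apply _).const_add _).exp)
    (fun ω n => by
      split_ifs
      · rw [norm_mul]
        refine mul_le_one₀ ?_ (norm_nonneg _) (sh_le fp_le _ _)
        rw [Complex.norm_real]
        exact hw n
      · simp)
    (chain_neg (fun n => ((w n : ℝ) : ℂ)) (fun n => by
      rw [Complex.norm_real]
      exact hw n) k h i (fun l => (b l : ℝ)) (sh (fun m => pI m - pR m) (h i)) (sh_le fp_le _)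
      (sh_meas _ _) (sh_var fp_le _) (sh_neg fp_le neg_fp _))
  filter_upwards [h1] with ω hω K
  refine (hω K).congr fun N => ?_
  congr 1
  obtain ⟨α, hα⟩ : ∃ α : Fin (k + 1) → ℝ, α = fun l => Real.exp ((b l : ℝ) + ω l) := ⟨_, rfl⟩
  have hαi : Real.exp ((b i : ℝ) + ω i) = α i := by rw [hα]
  rw [← hα, hαi]
  have hpos : ∀ l, 0 < α l := by
    intro l
    rw [hα]
    exact Real.exp_pos _
  have e1 : ∑ n ∈ Finset.Icc 1 N, (if good α h n i then
        ((w n : ℝ) : ℂ) * sh (fun m => pI m - pR m) (h i) (α i * (term α h n i : ℝ)) else 0) =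
      ((∑ n ∈ Finset.Icc 1 N, (if good α h n i then w n else 0) *
          (pz (term α h n (i + 1)) - rz (term α h n (i + 1))) : ℝ) : ℂ) := by
    rw [Complex.ofReal_sum]
    refine Finset.sum_congr rfl fun n hn => ?_
    by_cases hg : good α h n i
    · rw [if_pos hg, if_pos hg]
      have h2 := good_pos (Finset.mem_Icc.1 hn).1 hg
      have h3 : 0 ≤ α i * (term α h n i : ℝ) := by
        have : (1 : ℝ) ≤ term α h n i := by exact_mod_cast h2
        have := hpos i
        positivity
      have h4 : sh (fun m => pI m - pR m) (h i) (α i * (term α h n i : ℝ)) =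
          sh pI (h i) (α i * (term α h n i : ℝ)) - sh pR (h i) (α i * (term α h n i : ℝ)) := rfl
      rw [h4, sh_pI _ _ h3, sh_pR _ _ h3, ← term_succ]
      push_cast
      ring
    · rw [if_neg hg, if_neg hg]
      simp
  rw [e1, Complex.norm_real, Real.norm_eq_abs]

theorem term_lim {k : ℕ} (α : Fin k → ℝ) (hα : ∀ l, 0 < α l) (h : Fin k → ℤ) : ∀ i : ℕ, i ≤ k →
    ∃ c : ℝ, 0 < c ∧ Tendsto (fun n : ℕ => (term α h n i : ℝ) / n) atTop (𝓝 c) := by
  intro i
  induction i with
  | zero =>
    intro _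
    refine ⟨1, one_pos, ?_⟩
    refine (tendsto_const_nhds (x := (1 : ℝ))).congr' ?_
    filter_upwards [eventually_ge_atTop 1] with n hn
    have : (n : ℝ) ≠ 0 := by exact_mod_cast (by omega : n ≠ 0)
    rw [term]
    push_cast
    field_simp
  | succ i ih =>
    intro hi
    obtain ⟨c, hc, hlim⟩ := ih (by omega)
    have hik : i < k := by omega
    refine ⟨α ⟨i, hik⟩ * c, mul_pos (hα _) hc, ?_⟩
    have h1 : Tendsto (fun n : ℕ => (term α h n (i + 1) : ℝ) / n -
        α ⟨i, hik⟩ * ((term α h n i : ℝ) / n)) atTop (𝓝 0) := by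
      refine squeeze_zero_norm' (a := fun n : ℕ => (1 + |(h ⟨i, hik⟩ : ℝ)|) / (n : ℝ)) ?_
        (tendsto_const_nhds.div_atTop tendsto_natCast_atTop_atTop)
      filter_upwards [eventually_ge_atTop 1] with n hn
      have hn0 : (0 : ℝ) < n := by exact_mod_cast hn
      have e : (term α h n (i + 1) : ℝ) / n - α ⟨i, hik⟩ * ((term α h n i : ℝ) / n) =
          ((term α h n (i + 1) : ℝ) - α ⟨i, hik⟩ * (term α h n i : ℝ)) / n := by ring
      rw [e, norm_div, Real.norm_eq_abs, Real.norm_of_nonneg hn0.le]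
      apply div_le_div_of_nonneg_right _ hn0.le
      rw [term, dif_pos hik]
      push_cast
      have h2 := Int.floor_le (α ⟨i, hik⟩ * (term α h n i : ℝ))
      have h3 := Int.lt_floor_add_one (α ⟨i, hik⟩ * (term α h n i : ℝ))
      have h4 := neg_abs_le (h ⟨i, hik⟩ : ℝ)
      have h5 := le_abs_self (h ⟨i, hik⟩ : ℝ)
      rw [abs_le]
      constructor <;> linarith
    have h2 := h1.add (hlim.const_mul (α ⟨i, hik⟩))
    rw [zero_add] at h2
    refine h2.congr fun n => ?_
    ring

/-- linear growth -/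
theorem lin_lim (x : ℕ → ℝ) (c : ℝ) (hc : 0 < c) (hx : Tendsto (fun n : ℕ => x n / n) atTop (𝓝 c)) :
    Tendsto x atTop atTop ∧ Tendsto (fun n : ℕ => Real.log (x n) / Real.log n) atTop (𝓝 1) := by
  constructor
  · have h1 := hx.pos_mul_atTop hc tendsto_natCast_atTop_atTop
    refine h1.congr' ?_
    filter_upwards [eventually_ge_atTop 1] with n hn
    have : (n : ℝ) ≠ 0 := by exact_mod_cast (by omega : n ≠ 0)
    field_simp
  · have h1 : Tendsto (fun n : ℕ => Real.log (x n / n) / Real.log n + 1) atTop (𝓝 (0 + 1)) := by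
      refine Tendsto.add_const 1 ?_
      exact ((Real.continuousAt_log hc.ne').tendsto.comp hx).div_atTop nlog
    rw [zero_add] at h1
    refine h1.congr' ?_
    filter_upwards [hx.eventually (lt_mem_nhds hc), eventually_ge_atTop 2] with n h2 h3
    have hn : (1 : ℝ) < n := by exact_mod_cast h3
    have hl : 0 < Real.log n := Real.log_pos hn
    have hx0 : 0 < x n := by
      rcases lt_or_ge 0 (x n) with h4 | h4
      · exact h4
      · exact absurd h2 (not_lt.2 (div_nonpos_of_nonpos_of_nonneg h4 (by linarith)))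
    rw [Real.log_div hx0.ne' (by linarith)]
    field_simp
    ring

open Classical in
/-- **The number of chains.** -/
theorem chain_asym (w : ℕ → ℝ) (hw0 : ∀ n, 0 ≤ w n) (hw1 : ∀ n, w n ≤ 1) (k : ℕ) :
    ∀ᵐ α ∂((volume : Measure (Fin k → ℝ)).restrict {α | ∀ i, 0 < α i}), ∀ h : Fin k → ℤ, ∀ B : ℕ,
      (∀ᶠ N : ℕ in atTop, (N : ℝ) / Real.log N ^ B ≤ ∑ n ∈ Icc 1 N, w n) → ∀ i : ℕ, i ≤ k →
      Tendsto (fun N : ℕ => (∑ n ∈ Icc 1 N, if good α h n i then w n else 0) * Real.log N ^ i /
        ∑ n ∈ Icc 1 N, w n) atTop (𝓝 1) := by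
  have hall : ∀ᵐ α ∂((volume : Measure (Fin k → ℝ)).restrict {α | ∀ i, 0 < α i}),
      ∀ (h : Fin k → ℤ) (i : Fin k) (K : ℕ), Tendsto (fun N : ℕ => (Real.log N) ^ K / N *
        |∑ n ∈ Finset.Icc 1 N, (if good α h n i then w n else 0) *
          (pz (term α h n (i + 1)) - rz (term α h n (i + 1)))|) atTop (𝓝 0) := by
    rcases k with _ | k
    · exact ae_of_all _ fun α h i => i.elim0
    · rw [ae_all_iff]
      intro h
      rw [ae_all_iff]
      intro i
      exact chain_ae w (fun n => by rw [abs_of_nonneg (hw0 n)]; exact hw1 n) k h i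
  filter_upwards [hall, ae_restrict_mem (pos_meas k)] with α hα hpos h B hB i
  have hposN : ∀ᶠ N : ℕ in atTop, 0 < ∑ n ∈ Icc 1 N, w n := by
    filter_upwards [hB, nlog.eventually_ge_atTop 1, eventually_ge_atTop 1] with N h1 h2 h3
    have hN : (0 : ℝ) < N := by exact_mod_cast h3
    have hl : 0 < Real.log N := by linarith
    exact lt_of_lt_of_le (by positivity) h1
  induction i with
  | zero =>
    intro _
    refine (tendsto_const_nhds (x := (1 : ℝ))).congr' ?_
    filter_upwards [hposN] with N hN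
    have e : ∑ n ∈ Icc 1 N, (if good α h n 0 then w n else 0) = ∑ n ∈ Icc 1 N, w n := by
      refine Finset.sum_congr rfl fun n _ => ?_
      rw [if_pos]
      intro j h1 h2
      omega
    rw [e, pow_zero, mul_one, div_self hN.ne']
  | succ i ih =>
    intro hi
    have hik : i < k := by omega
    have h1 := ih (by omega)
    obtain ⟨c, hc, hlim⟩ := term_lim α hpos h i (by omega)
    have hx : Tendsto (fun n : ℕ => α ⟨i, hik⟩ * (term α h n i : ℝ) / n) atTop
        (𝓝 (α ⟨i, hik⟩ * c)) := by
      refine (hlim.const_mul (α ⟨i, hik⟩)).congr fun n => ?_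
      ring
    have hx2 := lin_lim (fun n => α ⟨i, hik⟩ * (term α h n i : ℝ)) _ (mul_pos (hpos _) hc) hx
    have hR : Tendsto (fun n : ℕ => rz (term α h n (i + 1)) * Real.log n ^ 1) atTop (𝓝 1) := by
      have h2 := rz_lim _ (h ⟨i, hik⟩) 1 one_pos hx2.1 hx2.2
      rw [div_one] at h2
      refine h2.congr fun n => ?_
      rw [pow_one, term_succ α h n ⟨i, hik⟩]
    have hs : ∀ᶠ N : ℕ in atTop, (N : ℝ) / Real.log N ^ (B + i + 1) ≤
        ∑ n ∈ Icc 1 N, (if good α h n i then w n else 0) := by
      filter_upwards [hB, nlog.eventually_ge_atTop 2, eventually_ge_atTop 1, hposN,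
        h1.eventually (lt_mem_nhds (show (1 / 2 : ℝ) < 1 by norm_num))] with N h2 h3 h4 h5 h6
      have hN : (0 : ℝ) < N := by exact_mod_cast h4
      have hl : 0 < Real.log N := by linarith
      rw [lt_div_iff₀ h5] at h6
      rw [div_le_iff₀ (by positivity), pow_succ, pow_add]
      rw [div_le_iff₀ (by positivity)] at h2
      obtain ⟨s, hs⟩ : ∃ s : ℝ, s = ∑ n ∈ Icc 1 N, (if good α h n i then w n else 0) := ⟨_, rfl⟩
      obtain ⟨t, ht⟩ : ∃ t : ℝ, t = ∑ n ∈ Icc 1 N, w n := ⟨_, rfl⟩
      rw [← hs] at h6 ⊢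
      rw [← ht] at h2 h5 h6
      have h7 : 0 ≤ s * Real.log N ^ i := le_trans (by positivity) h6.le
      calc (N : ℝ) ≤ t * Real.log N ^ B := h2
        _ ≤ (2 * (s * Real.log N ^ i)) * Real.log N ^ B :=
            mul_le_mul_of_nonneg_right (by linarith) (by positivity)
        _ ≤ (Real.log N * (s * Real.log N ^ i)) * Real.log N ^ B :=
            mul_le_mul_of_nonneg_right (mul_le_mul_of_nonneg_right h3 h7) (by positivity)
        _ = _ := by ring
    have h2 := asym_of (fun n => if good α h n i then w n else 0) (fun n => pz (term α h n (i + 1)))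
      (fun n => rz (term α h n (i + 1))) (fun n => by split_ifs; exacts [hw0 n, le_rfl])
      (fun n => by split_ifs; exacts [hw1 n, zero_le_one]) (fun n => rz_nonneg _)
      (fun n => rz_le_one _) 1 (B + i + 1) 1 hR hs (hα h ⟨i, hik⟩)
    have h3 := h2.mul h1
    rw [mul_one] at h3
    refine h3.congr' ?_
    filter_upwards [hs, hposN, nlog.eventually_ge_atTop 1, eventually_ge_atTop 1] with N h4 h5 h6 h7
    have hN : (0 : ℝ) < N := by exact_mod_cast h7
    have hl : 0 < Real.log N := by linarith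
    have h8 : 0 < ∑ n ∈ Icc 1 N, (if good α h n i then w n else 0) := lt_of_lt_of_le (by positivity) h4
    have e : ∑ n ∈ Icc 1 N, (if good α h n i then w n else 0) * pz (term α h n (i + 1)) =
        ∑ n ∈ Icc 1 N, (if good α h n (i + 1) then w n else 0) := by
      refine Finset.sum_congr rfl fun n _ => ?_
      unfold pz
      by_cases hg : good α h n i
      · by_cases hp : (term α h n (i + 1)).toNat.Prime
        · rw [if_pos hg, if_pos hp, if_pos ((good_succ α h n i).2 ⟨hg, hp⟩), mul_one]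
        · rw [if_pos hg, if_neg hp, if_neg (fun hh => hp ((good_succ α h n i).1 hh).2), mul_zero]
      · rw [if_neg hg, if_neg (fun hh => hg ((good_succ α h n i).1 hh).1), zero_mul]
    rw [e]
    field_simp
    ring

end Pool.Agent.U996.UW
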