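import Pool.Agent.U996.UW.Window

/-!
# A bounded sequence with small twisted sums has small oscillating integrals, with any shift
-/

set_option autoImplicit false

namespace Pool.Agent.U996.UW

open Finset MeasureTheory
open Pool.Agent.H376R2.MR (er)
open Pool.Agent.Y957.AD (er_norm er_add er_zero)
open Pool.Agent.Y957.VK

theorem step_meas (a : ℕ → ℂ) : Measurable fun t : ℝ => a ⌊t⌋₊ :=
  (measurable_from_nat (f := a)).comp Nat.measurable_floor

theorem step_ii (a : ℕ → ℂ) (ha : ∀ n, ‖a n‖ ≤ 1) (x η u v : ℝ) :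
    IntervalIntegrable (fun y => a ⌊Real.exp (x + y)⌋₊ * er η y) volume u v := by
  rw [intervalIntegrable_iff]
  refine Measure.integrableOn_of_bounded (M := 1) (by simp [Set.uIoc]) ?_ ?_
  · refine Measurable.aestronglyMeasurable ?_
    refine ((step_meas a).comp (Real.measurable_exp.comp (measurable_const.add measurable_id))).mul ?_
    unfold er
    fun_prop
  · refine ae_of_all _ fun y => ?_
    rw [norm_mul, er_norm, mul_one]
    exact ha _

theorem cell_int (a : ℕ → ℂ) (x η : ℝ) {m : ℕ} (hm : 1 ≤ m) :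
    ∫ y in (Real.log m - x)..(Real.log (m + 1 : ℕ) - x), a ⌊Real.exp (x + y)⌋₊ * er η y =
      er η (-x) * (a m * (er η (Real.log m) * ps η m)) := by
  have hm0 : (0 : ℝ) < m := by exact_mod_cast hm
  have hle : Real.log m - x ≤ Real.log (m + 1 : ℕ) - x := by
    have := Real.log_le_log hm0 (show (m : ℝ) ≤ ((m + 1 : ℕ) : ℝ) by push_cast; linarith)
    linarith
  have e1 : ∫ y in (Real.log m - x)..(Real.log (m + 1 : ℕ) - x), a ⌊Real.exp (x + y)⌋₊ * er η y =
      ∫ y in (Real.log m - x)..(Real.log (m + 1 : ℕ) - x), a m * er η y := by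
    rw [intervalIntegral.integral_of_le hle, intervalIntegral.integral_of_le hle,
      integral_Ioc_eq_integral_Ioo, integral_Ioc_eq_integral_Ioo]
    refine setIntegral_congr_fun measurableSet_Ioo fun y hy => ?_
    have h1 : (m : ℝ) < Real.exp (x + y) := by
      have := Real.exp_lt_exp.2 (show Real.log m < x + y by linarith [hy.1])
      rwa [Real.exp_log hm0] at this
    have h2 : Real.exp (x + y) < (m + 1 : ℕ) := by
      have := Real.exp_lt_exp.2 (show x + y < Real.log (m + 1 : ℕ) by linarith [hy.2])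
      rwa [Real.exp_log (by positivity)] at this
    have h3 : ⌊Real.exp (x + y)⌋₊ = m := by
      rw [Nat.floor_eq_iff (Real.exp_pos _).le]
      refine ⟨h1.le, ?_⟩
      push_cast at h2
      exact h2
    show a ⌊Real.exp (x + y)⌋₊ * er η y = a m * er η y
    rw [h3]
  rw [e1, intervalIntegral.integral_const_mul]
  have e2 : ∫ y in (Real.log m - x)..(Real.log (m + 1 : ℕ) - x), er η y =
      er η (-x) * (er η (Real.log m) * ps η m) := by
    have h1 := intervalIntegral.integral_comp_add_right (a := 0) (b := dl m)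
      (fun y => er η y) (Real.log m - x)
    have e3 : dl m + (Real.log m - x) = Real.log (m + 1 : ℕ) - x := by
      unfold dl
      push_cast
      ring
    rw [zero_add, e3] at h1
    rw [← h1]
    have e4 : ∀ y : ℝ, er η (y + (Real.log m - x)) = (er η (-x) * er η (Real.log m)) * er η y := by
      intro y
      rw [← er_add, ← er_add]
      congr 1
      ring
    simp only [e4]
    rw [intervalIntegral.integral_const_mul]
    unfold ps
    ring
  rw [e2]
  ring

theorem cells (a : ℕ → ℂ) (ha : ∀ n, ‖a n‖ ≤ 1) (x η : ℝ) {m0 : ℕ} (hm : 1 ≤ m0) : ∀ m1 : ℕ, m0 ≤ m1 →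
    ∫ y in (Real.log m0 - x)..(Real.log m1 - x), a ⌊Real.exp (x + y)⌋₊ * er η y =
      er η (-x) * ∑ m ∈ Ico m0 m1, a m * (er η (Real.log m) * ps η m) := by
  intro m1 h
  induction m1, h using Nat.le_induction with
  | base => simp
  | succ m1 h ih =>
    rw [Finset.sum_Ico_succ_top h, mul_add, ← ih, ← cell_int a x η (hm.trans h)]
    exact (intervalIntegral.integral_add_adjacent_intervals (step_ii a ha x η _ _)
      (step_ii a ha x η _ _)).symm

/-- reindexing of the partial sums -/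
theorem reidx (g : ℕ → ℂ) (p : ℕ → ℕ) (m0 : ℕ) (hp : ∀ m, m0 ≤ m → p (m + 1) = p m + 1) :
    ∀ j, m0 ≤ j → p m0 ≤ p j ∧ ∑ m ∈ Ico m0 j, g (p m) = ∑ k ∈ Ico (p m0) (p j), g k := by
  intro j hj
  induction j, hj using Nat.le_induction with
  | base => simp
  | succ j hj ih =>
    refine ⟨?_, ?_⟩
    · rw [hp j hj]
      exact ih.1.trans (Nat.le_succ _)
    · rw [Finset.sum_Ico_succ_top hj, ih.2, hp j hj, Finset.sum_Ico_succ_top ih.1]

theorem fsum (g : ℕ → ℂ) {a b : ℕ} (ha : 1 ≤ a) (hab : a ≤ b) :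
    ∑ k ∈ Ico a b, g k = ∑ k ∈ Icc 1 (b - 1), g k - ∑ k ∈ Icc 1 (a - 1), g k := by
  have e : ∀ n, 1 ≤ n → Icc 1 (n - 1) = Ico 1 n := by
    intro n hn
    ext k
    simp only [Finset.mem_Icc, Finset.mem_Ico]
    omega
  rw [e b (ha.trans hab), e a ha, ← Finset.sum_Ico_consecutive g ha hab]
  ring

theorem pow_le_fact_exp (K : ℕ) {x : ℝ} (hx : 0 ≤ x) : x ^ K ≤ K.factorial * Real.exp x := by
  have h1 := Real.pow_div_factorial_le_exp x hx K
  rw [div_le_iff₀ (by positivity)] at h1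
  linarith

/-- the sum over the cells -/
theorem cellsum (f : ℕ → ℂ) (hf1 : ∀ n, ‖f n‖ ≤ 1) (hf : Neg f) (h : ℤ) (P K : ℕ) (E : ℝ) (hE : 1 ≤ E) :
    ∃ C X0 : ℝ, 0 ≤ C ∧ ∀ (x η X : ℝ) (m0 m1 : ℕ), 1 ≤ x → X = Real.exp x → X0 ≤ X →
      |η| ≤ Real.exp (P * x) → X - 1 ≤ m0 → m0 ≤ m1 → (m1 : ℝ) ≤ E * X → X / 2 ≤ m1 →
      ‖∑ m ∈ Ico m0 m1, f ((m : ℤ) + h).toNat * (er η (Real.log m) * ps η m)‖ ≤ C / x ^ K := by
  obtain ⟨H, hH⟩ : ∃ H : ℝ, H = |(h : ℝ)| := ⟨_, rfl⟩
  have hH0 : 0 ≤ H := by rw [hH]; exact abs_nonneg _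
  obtain ⟨CF, hCF⟩ := hf (2 * P) (2 * K)
  refine ⟨2 * E + (|CF| * (2 * E) * 2 ^ (2 * K) * 2) * (2 + E * 4 * (1 + 8 * H)), 8 * H + 32,
    by positivity, ?_⟩
  intro x η X m0 m1 hx hX hX0 hη hm0 h01 hm1 hm1'
  have hXpos : 0 < X := by rw [hX]; exact Real.exp_pos _
  have hX32 : 32 ≤ X := by linarith
  have hm0r : X / 2 ≤ m0 := by linarith
  have hm0pos : (0 : ℝ) < m0 := by linarith
  have hm0n : 1 ≤ m0 := by exact_mod_cast (show (1 : ℝ) ≤ (m0 : ℝ) by linarith)
  have h01r : (m0 : ℝ) ≤ m1 := by exact_mod_cast h01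
  have hxK : 1 ≤ x ^ K := one_le_pow₀ hx
  have hxKpos : 0 < x ^ K := by positivity
  have hnum : (m1 : ℝ) - m0 ≤ E * X := by linarith
  rcases le_or_gt (X * x ^ K) |η| with hc | hc
  · -- high frequencies: trivial bound
    have hη0 : 0 < |η| := lt_of_lt_of_le (by positivity) hc
    have hηne : η ≠ 0 := abs_pos.1 hη0
    have h1 : ‖∑ m ∈ Ico m0 m1, f ((m : ℤ) + h).toNat * (er η (Real.log m) * ps η m)‖ ≤
        ((m1 : ℝ) - m0) * (2 / |η|) := by
      refine (norm_sum_le _ _).trans ?_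
      have h2 : ∑ m ∈ Ico m0 m1, ‖f ((m : ℤ) + h).toNat * (er η (Real.log m) * ps η m)‖ ≤
          ∑ _m ∈ Ico m0 m1, 2 / |η| := by
        refine Finset.sum_le_sum fun m _ => ?_
        rw [norm_mul, norm_mul, er_norm, one_mul]
        calc _ ≤ 1 * (2 / |η|) := mul_le_mul (hf1 _) (ps_le2 η hηne m) (norm_nonneg _) zero_le_one
          _ = _ := one_mul _
      refine h2.trans (le_of_eq ?_)
      rw [Finset.sum_const, Nat.card_Ico, nsmul_eq_mul, Nat.cast_sub h01]
    refine h1.trans ?_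
    have h2 : ((m1 : ℝ) - m0) * (2 / |η|) ≤ (E * X) * (2 / (X * x ^ K)) := by
      refine mul_le_mul hnum ?_ (by positivity) (by positivity)
      exact div_le_div_of_nonneg_left (by norm_num) (by positivity) hc
    refine h2.trans ?_
    have e : (E * X) * (2 / (X * x ^ K)) = 2 * E / x ^ K := by
      field_simp
    rw [e]
    apply div_le_div_of_nonneg_right _ hxKpos.le
    have : 0 ≤ (|CF| * (2 * E) * 2 ^ (2 * K) * 2) * (2 + E * 4 * (1 + 8 * H)) := by positivity
    linarith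
  · -- low frequencies: partial summation
    obtain ⟨p, hp⟩ : ∃ p : ℕ → ℕ, p = fun m : ℕ => ((m : ℤ) + h).toNat := ⟨_, rfl⟩
    have hhH := abs_le.1 (le_of_eq hH.symm : |(h : ℝ)| ≤ H)
    have hpr : ∀ m, m0 ≤ m → ((p m : ℕ) : ℝ) = m + h := by
      intro m hm
      have hmr : (m0 : ℝ) ≤ m := by exact_mod_cast hm
      have h1 : (0 : ℝ) ≤ (m : ℝ) + h := by linarith
      have h2 : 0 ≤ (m : ℤ) + h := by exact_mod_cast h1
      rw [hp]
      have h3 : ((((m : ℤ) + h).toNat : ℤ)) = (m : ℤ) + h := Int.toNat_of_nonneg h2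
      exact_mod_cast h3
    have hps : ∀ m, m0 ≤ m → p (m + 1) = p m + 1 := by
      intro m hm
      have h1 := hpr m hm
      have h2 := hpr (m + 1) (by omega)
      have h3 : ((p (m + 1) : ℕ) : ℝ) = ((p m + 1 : ℕ) : ℝ) := by
        rw [h2]
        push_cast
        rw [h1]
        ring
      exact_mod_cast h3
    obtain ⟨c, hcdef⟩ : ∃ c : ℕ → ℂ, c = fun m => f (p m) * er η (Real.log (p m)) := ⟨_, rfl⟩
    obtain ⟨G, hG⟩ : ∃ G : ℕ → ℂ, G = fun m : ℕ => er η (Real.log m - Real.log (m + h)) * ps η m :=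
      ⟨_, rfl⟩
    have e1 : ∑ m ∈ Ico m0 m1, f ((m : ℤ) + h).toNat * (er η (Real.log m) * ps η m) =
        ∑ m ∈ Ico m0 m1, c m * G m := by
      refine Finset.sum_congr rfl fun m hm => ?_
      have hm' := (Finset.mem_Ico.1 hm).1
      rw [hcdef, hG]
      simp only
      have e0 : er η (Real.log ((m : ℝ) + h)) * er η (Real.log m - Real.log ((m : ℝ) + h)) =
          er η (Real.log m) := by
        rw [← er_add]
        congr 1
        ring
      rw [hpr m hm', ← e0, hp]
      ring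
    rw [e1]
    obtain ⟨Bd, hBd⟩ : ∃ Bd : ℝ, Bd = |CF| * (2 * E * X) * 2 ^ (2 * K) / x ^ (2 * K) * 2 := ⟨_, rfl⟩
    have hBd0 : 0 ≤ Bd := by rw [hBd]; positivity
    have hF : ∀ N : ℕ, X / 4 ≤ N → (N : ℝ) ≤ 2 * E * X →
        ‖∑ k ∈ Icc 1 N, f k * er η (Real.log k)‖ ≤
          |CF| * (2 * E * X) * 2 ^ (2 * K) / x ^ (2 * K) := by
      intro N hN1 hN2
      have hN8 : (8 : ℝ) ≤ N := by linarith
      have hN0 : (0 : ℝ) < N := by linarith
      have hN2' : 2 ≤ N := by exact_mod_cast (show (2 : ℝ) ≤ (N : ℝ) by linarith)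
      have hXN : X ≤ (N : ℝ) ^ 2 := by nlinarith
      have hη2 : |η| ≤ (N : ℝ) ^ (2 * P) := by
        calc |η| ≤ Real.exp (P * x) := hη
          _ = X ^ P := by rw [hX, ← Real.exp_nat_mul]
          _ ≤ ((N : ℝ) ^ 2) ^ P := pow_le_pow_left₀ hXpos.le hXN P
          _ = _ := by rw [← pow_mul]
      have h1 := hCF N η hN2' hη2
      have hlogN : x / 2 ≤ Real.log N := by
        have h2 := Real.log_le_log hXpos hXN
        rw [Real.log_pow, hX, Real.log_exp] at h2
        push_cast at h2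
        linarith
      have h3 : (x / 2) ^ (2 * K) ≤ Real.log N ^ (2 * K) :=
        pow_le_pow_left₀ (by linarith) hlogN _
      calc _ ≤ CF * N / Real.log N ^ (2 * K) := h1
        _ ≤ |CF| * (2 * E * X) / (x / 2) ^ (2 * K) := by
            refine div_le_div₀ (by positivity) ?_ (by positivity) h3
            exact mul_le_mul (le_abs_self _) hN2 hN0.le (abs_nonneg _)
        _ = _ := by
            rw [div_pow]
            field_simp
    have hB : ∀ j, m0 ≤ j → j ≤ m1 → ‖∑ m ∈ Ico m0 j, c m‖ ≤ Bd := by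
      intro j hj hj1
      have hjr : (m0 : ℝ) ≤ j := by exact_mod_cast hj
      have hjr1 : (j : ℝ) ≤ m1 := by exact_mod_cast hj1
      have h1 := reidx (fun k => f k * er η (Real.log k)) p m0 hps j hj
      have hpm0 := hpr m0 le_rfl
      have hpj := hpr j hj
      have hp1 : 1 ≤ p m0 := by
        exact_mod_cast (show (1 : ℝ) ≤ ((p m0 : ℕ) : ℝ) by rw [hpm0]; linarith)
      have hp2 : 1 ≤ p j := hp1.trans h1.1
      rw [hcdef]
      simp only
      rw [h1.2, fsum _ hp1 h1.1]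
      refine (norm_sub_le _ _).trans ?_
      have hEX : X ≤ E * X := by nlinarith
      have h2 := hF (p j - 1) (by rw [Nat.cast_sub hp2, hpj]; push_cast; linarith)
        (by rw [Nat.cast_sub hp2, hpj]; push_cast; linarith)
      have h3 := hF (p m0 - 1) (by rw [Nat.cast_sub hp1, hpm0]; push_cast; linarith)
        (by rw [Nat.cast_sub hp1, hpm0]; push_cast; linarith)
      rw [hBd]
      linarith
    have hGm : ‖G m1‖ ≤ 2 / X := by
      rw [hG]
      simp only
      rw [norm_mul, er_norm, one_mul]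
      refine (ps_le η (hm0n.trans h01)).trans ?_
      rw [div_le_div_iff₀ (by linarith) hXpos]
      linarith
    have hV : ∀ m ∈ Ico m0 m1, ‖G (m + 1) - G m‖ ≤ 4 / X ^ 2 * ((1 + 8 * H) * x ^ K) := by
      intro m hm
      have hm' := (Finset.mem_Ico.1 hm).1
      have hmr : (m0 : ℝ) ≤ m := by exact_mod_cast hm'
      have hmpos : (0 : ℝ) < m := by linarith
      have hm1n : 1 ≤ m := hm0n.trans hm'
      have e2 : G (m + 1) - G m =
          er η (Real.log (m + 1 : ℕ) - Real.log ((m + 1 : ℕ) + h)) * (ps η (m + 1) - ps η m) +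
          (er η (Real.log (m + 1 : ℕ) - Real.log ((m + 1 : ℕ) + h)) -
            er η (Real.log m - Real.log (m + h))) * ps η m := by
        rw [hG]
        ring
      rw [e2]
      refine (norm_add_le _ _).trans ?_
      rw [norm_mul, norm_mul, er_norm, one_mul]
      have h1 := ps_diff η hm1n
      have h2 := er_lip η (Real.log (m + 1 : ℕ) - Real.log ((m + 1 : ℕ) + h))
        (Real.log m - Real.log (m + h))
      have h3 := shift_log (m := m) (H := H) (h := h) (le_of_eq hH.symm) (by linarith)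
      have h4 := ps_le η hm1n
      push_cast at h2 ⊢
      have h5 : ‖er η (Real.log ((m : ℝ) + 1) - Real.log ((m : ℝ) + 1 + h)) -
          er η (Real.log m - Real.log (m + h))‖ ≤ |η| * (4 * H / (m : ℝ) ^ 2) :=
        h2.trans (mul_le_mul_of_nonneg_left h3 (abs_nonneg _))
      have h6 : ‖er η (Real.log ((m : ℝ) + 1) - Real.log ((m : ℝ) + 1 + h)) -
          er η (Real.log m - Real.log (m + h))‖ * ‖ps η m‖ ≤
          (|η| * (4 * H / (m : ℝ) ^ 2)) * (1 / m) :=
        mul_le_mul h5 h4 (norm_nonneg _) (by positivity)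
      have h7 : X / 2 ≤ m := by linarith
      have h8 : 1 / (m : ℝ) ^ 2 ≤ 4 / X ^ 2 := by
        rw [div_le_div_iff₀ (by positivity) (by positivity)]
        nlinarith
      have h9 : (|η| * (4 * H / (m : ℝ) ^ 2)) * (1 / m) ≤ 4 / X ^ 2 * (8 * H * x ^ K) := by
        have h10 : |η| / m ≤ 2 * x ^ K := by
          rw [div_le_iff₀ hmpos]
          nlinarith
        calc (|η| * (4 * H / (m : ℝ) ^ 2)) * (1 / m) = (4 * H) * (1 / (m : ℝ) ^ 2) * (|η| / m) := by
              field_simp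
          _ ≤ (4 * H) * (4 / X ^ 2) * (2 * x ^ K) := by
              refine mul_le_mul (mul_le_mul_of_nonneg_left h8 (by positivity)) h10 (by positivity)
                (by positivity)
          _ = _ := by ring
      have h11 : 4 / X ^ 2 ≤ 4 / X ^ 2 * x ^ K := le_mul_of_one_le_right (by positivity) hxK
      calc _ ≤ 1 / (m : ℝ) ^ 2 + (|η| * (4 * H / (m : ℝ) ^ 2)) * (1 / m) := add_le_add h1 h6
        _ ≤ 4 / X ^ 2 * x ^ K + 4 / X ^ 2 * (8 * H * x ^ K) := by linarith
        _ = _ := by ring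
    have hmain := abel_bd c G m0 m1 h01 Bd (2 / X) (4 / X ^ 2 * ((1 + 8 * H) * x ^ K)) hBd0 hB hGm hV
    refine hmain.trans ?_
    have h12 : 2 / X + ((m1 : ℝ) - m0) * (4 / X ^ 2 * ((1 + 8 * H) * x ^ K)) ≤
        (2 + E * 4 * (1 + 8 * H)) * x ^ K / X := by
      have h13 : ((m1 : ℝ) - m0) * (4 / X ^ 2 * ((1 + 8 * H) * x ^ K)) ≤
          (E * X) * (4 / X ^ 2 * ((1 + 8 * H) * x ^ K)) :=
        mul_le_mul_of_nonneg_right hnum (by positivity)
      have e3 : (E * X) * (4 / X ^ 2 * ((1 + 8 * H) * x ^ K)) = E * 4 * (1 + 8 * H) * x ^ K / X := by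
        field_simp
      have h14 : 2 / X ≤ 2 * x ^ K / X := by
        apply div_le_div_of_nonneg_right _ hXpos.le
        linarith
      rw [e3] at h13
      calc _ ≤ 2 * x ^ K / X + E * 4 * (1 + 8 * H) * x ^ K / X := add_le_add h14 h13
        _ = _ := by ring
    calc Bd * (2 / X + ((m1 : ℝ) - m0) * (4 / X ^ 2 * ((1 + 8 * H) * x ^ K))) ≤
          Bd * ((2 + E * 4 * (1 + 8 * H)) * x ^ K / X) := mul_le_mul_of_nonneg_left h12 hBd0
      _ = (|CF| * (2 * E) * 2 ^ (2 * K) * 2) * (2 + E * 4 * (1 + 8 * H)) / x ^ K := by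
          rw [hBd, two_mul K, pow_add x]
          field_simp
      _ ≤ _ := by
          apply div_le_div_of_nonneg_right _ hxKpos.le
          linarith


theorem log_near {X : ℝ} {m : ℕ} (hX : 4 ≤ X) (h1 : (m : ℝ) ≤ X) (h2 : X < m + 1) :
    |Real.log m - Real.log X| ≤ 2 / X := by
  have hX0 : 0 < X := by linarith
  have hm0 : (0 : ℝ) < m := by linarith
  have h3 := Real.log_le_log hm0 h1
  rw [abs_sub_comm, abs_of_nonneg (by linarith), ← Real.log_div hX0.ne' hm0.ne']
  have h4 := Real.log_le_sub_one_of_pos (show 0 < X / m by positivity)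
  have h5 : X / m - 1 ≤ 2 / X := by
    rw [div_sub_one hm0.ne', div_le_div_iff₀ hm0 hX0]
    nlinarith
  linarith

/-- **Small twisted sums imply small oscillating integrals, with any shift.** -/
theorem wneg_of (f : ℕ → ℂ) (hf1 : ∀ n, ‖f n‖ ≤ 1) (hf : Neg f) (h : ℤ) :
    WNeg (fun t : ℝ => f ((⌊t⌋₊ : ℤ) + h).toNat) := by
  intro P K L hL
  obtain ⟨E, hE⟩ : ∃ E : ℝ, E = Real.exp L := ⟨_, rfl⟩
  have hE1 : 1 ≤ E := by rw [hE]; exact Real.one_le_exp hL
  obtain ⟨C, X0, hC, hmain⟩ := cellsum f hf1 hf h P K E hE1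
  obtain ⟨Y, hY⟩ : ∃ Y : ℝ, Y = max X0 4 := ⟨_, rfl⟩
  have hY4 : 4 ≤ Y := by rw [hY]; exact le_max_right _ _
  have hY0 : 0 < Real.log Y := Real.log_pos (by linarith)
  refine ⟨C + 4 * K.factorial + L * Real.log Y ^ K, by positivity, fun x η hx hη => ?_⟩
  have hx0 : 0 < x := by linarith
  have hxK : 0 < x ^ K := by positivity
  obtain ⟨X, hX⟩ : ∃ X : ℝ, X = Real.exp x := ⟨_, rfl⟩
  have hXpos : 0 < X := by rw [hX]; exact Real.exp_pos _
  obtain ⟨a, ha⟩ : ∃ a : ℕ → ℂ, a = fun m : ℕ => f ((m : ℤ) + h).toNat := ⟨_, rfl⟩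
  have ha1 : ∀ n, ‖a n‖ ≤ 1 := fun n => by rw [ha]; exact hf1 _
  have e0 : ∀ y : ℝ, (fun t : ℝ => f ((⌊t⌋₊ : ℤ) + h).toNat) (Real.exp (x + y)) * er η y =
      a ⌊Real.exp (x + y)⌋₊ * er η y := fun y => by rw [ha]
  simp only [e0]
  rcases lt_or_ge X Y with hs | hs
  · -- small
    have h1 := intervalIntegral.norm_integral_le_of_norm_le_const (a := 0) (b := L) (C := 1)
      (f := fun y => a ⌊Real.exp (x + y)⌋₊ * er η y) (fun y _ => by
        rw [norm_mul, er_norm, mul_one]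
        exact ha1 _)
    rw [sub_zero, one_mul, abs_of_nonneg hL] at h1
    refine h1.trans ?_
    rw [le_div_iff₀ hxK]
    have h2 : x ≤ Real.log Y := by
      have := Real.log_le_log hXpos hs.le
      rwa [hX, Real.log_exp] at this
    have h3 : x ^ K ≤ Real.log Y ^ K := pow_le_pow_left₀ hx0.le h2 K
    have h4 : L * x ^ K ≤ L * Real.log Y ^ K := mul_le_mul_of_nonneg_left h3 hL
    have : 0 ≤ C + 4 * (K.factorial : ℝ) := by positivity
    linarith
  · have hX4 : 4 ≤ X := hY4.trans hs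
    have hX0 : X0 ≤ X := (le_max_left _ _).trans (hY ▸ hs)
    obtain ⟨m0, hm0⟩ : ∃ m0 : ℕ, m0 = ⌊X⌋₊ := ⟨_, rfl⟩
    obtain ⟨m1, hm1⟩ : ∃ m1 : ℕ, m1 = ⌊E * X⌋₊ := ⟨_, rfl⟩
    have hEX : X ≤ E * X := by nlinarith
    have h01 : m0 ≤ m1 := by rw [hm0, hm1]; exact Nat.floor_le_floor hEX
    have a1 : (m0 : ℝ) ≤ X := by rw [hm0]; exact Nat.floor_le hXpos.le
    have a2 : X < m0 + 1 := by rw [hm0]; exact Nat.lt_floor_add_one _
    have b1 : (m1 : ℝ) ≤ E * X := by rw [hm1]; exact Nat.floor_le (by positivity)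
    have b2 : E * X < m1 + 1 := by rw [hm1]; exact Nat.lt_floor_add_one _
    have hm0n : 1 ≤ m0 := by
      rw [hm0]
      exact Nat.le_floor (by push_cast; linarith)
    have h1 := hmain x η X m0 m1 hx hX hX0 hη (by linarith) h01 b1 (by linarith)
    have hxlog : Real.log X = x := by rw [hX, Real.log_exp]
    have hxlog2 : Real.log (E * X) = x + L := by
      rw [Real.log_mul (by positivity) hXpos.ne', hE, Real.log_exp, hxlog]
      ring
    have c0 := log_near hX4 a1 a2
    have c1 := log_near (X := E * X) (m := m1) (by linarith) b1 b2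
    rw [hxlog] at c0
    rw [hxlog2] at c1
    have c2 : 2 / (E * X) ≤ 2 / X := div_le_div_of_nonneg_left (by norm_num) hXpos hEX
    have h2 := cells a ha1 x η hm0n m1 h01
    have h3 : ‖∫ y in (Real.log m0 - x)..(Real.log m1 - x), a ⌊Real.exp (x + y)⌋₊ * er η y‖ ≤
        C / x ^ K := by
      rw [h2, norm_mul, er_norm, one_mul, ha]
      exact h1
    have h4 := intervalIntegral.integral_interval_sub_interval_comm
      (step_ii a ha1 x η 0 L) (step_ii a ha1 x η (Real.log m0 - x) (Real.log m1 - x))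
      (step_ii a ha1 x η 0 (Real.log m0 - x))
    have nb : ∀ u v : ℝ, ‖∫ y in u..v, a ⌊Real.exp (x + y)⌋₊ * er η y‖ ≤ |v - u| := by
      intro u v
      have h5 := intervalIntegral.norm_integral_le_of_norm_le_const (a := u) (b := v) (C := 1)
        (f := fun y => a ⌊Real.exp (x + y)⌋₊ * er η y) (fun y _ => by
          rw [norm_mul, er_norm, mul_one]
          exact ha1 _)
      rwa [one_mul] at h5
    have h6 := nb 0 (Real.log m0 - x)
    have h7 := nb L (Real.log m1 - x)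
    rw [sub_zero] at h6
    have h8 : |Real.log m1 - x - L| ≤ 2 / X := by
      have : Real.log m1 - x - L = Real.log m1 - (x + L) := by ring
      rw [this]
      exact c1.trans c2
    have h9 : ‖∫ y in (0 : ℝ)..L, a ⌊Real.exp (x + y)⌋₊ * er η y‖ ≤ C / x ^ K + 4 / X := by
      have e1 : ∫ y in (0 : ℝ)..L, a ⌊Real.exp (x + y)⌋₊ * er η y =
          (∫ y in (Real.log m0 - x)..(Real.log m1 - x), a ⌊Real.exp (x + y)⌋₊ * er η y) +
          ((∫ y in (0 : ℝ)..(Real.log m0 - x), a ⌊Real.exp (x + y)⌋₊ * er η y) -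
            ∫ y in L..(Real.log m1 - x), a ⌊Real.exp (x + y)⌋₊ * er η y) := by
        rw [← h4]
        ring
      rw [e1]
      refine (norm_add_le _ _).trans ?_
      have h10 := norm_sub_le (∫ y in (0 : ℝ)..(Real.log m0 - x), a ⌊Real.exp (x + y)⌋₊ * er η y)
        (∫ y in L..(Real.log m1 - x), a ⌊Real.exp (x + y)⌋₊ * er η y)
      have e2 : 4 / X = 2 / X + 2 / X := by ring
      linarith
    refine h9.trans ?_
    have h11 := pow_le_fact_exp K hx0.le
    rw [← hX] at h11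
    have h12 : 4 / X ≤ 4 * K.factorial / x ^ K := by
      rw [div_le_div_iff₀ hXpos hxK]
      nlinarith
    have h13 : C / x ^ K + 4 * K.factorial / x ^ K ≤
        (C + 4 * K.factorial + L * Real.log Y ^ K) / x ^ K := by
      rw [← add_div]
      apply div_le_div_of_nonneg_right _ hxK.le
      have : 0 ≤ L * Real.log Y ^ K := by positivity
      linarith
    linarith

end Pool.Agent.U996.UW
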