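import Pool.Agent.U996.UW.Schur
import Pool.Agent.U996.UW.WNeg
import Pool.Agent.Y957.VK.Fin2

/-!
# Mean squares over a dyadic block with arbitrary weights
-/

set_option autoImplicit false

namespace Pool.Agent.U996.UW

open Finset MeasureTheory Filter Topology FourierTransform
open scoped ENNReal
open Pool.Agent.H376R2.MR (er)
open Pool.Agent.Y957.AD (er_norm er_add er_zero PolyVar four_shift memLp_of_bdd)
open Pool.Agent.Y957.VK
open Pool.Agent.Y185.VK (vb vb_sub vb_nonneg vb_le Bw_int Bw_zero Bw_in Bw_le Bw_meas)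
open Pool.Agent.Y691.AD (va va_sub va_mono va_nonneg int_var)

theorem kern_int {a T ξ : ℝ} (ha : 0 < a) (hξ : ξ ∈ Set.Icc (-T) T) :
    ∫ x in Set.Icc (-T) T, 1 / (1 + a * |ξ - x|) ≤ 2 * Real.log (1 + 2 * a * T) / a := by
  have h1 : -T ≤ ξ := hξ.1
  have h2 : ξ ≤ T := hξ.2
  have hT : 0 ≤ T := by linarith
  have hc : Continuous fun x : ℝ => 1 / (1 + a * |ξ - x|) := by
    refine continuous_const.div (by fun_prop) fun x => ?_
    have : 0 ≤ a * |ξ - x| := by positivity
    linarith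
  rw [integral_Icc_eq_integral_Ioc, ← intervalIntegral.integral_of_le (by linarith),
    ← intervalIntegral.integral_add_adjacent_intervals (b := ξ) (hc.intervalIntegrable _ _)
      (hc.intervalIntegrable _ _)]
  have e1 : ∫ x in (-T)..ξ, 1 / (1 + a * |ξ - x|) = Real.log (1 + a * (ξ + T)) / a := by
    have h3 : ∀ x ∈ Set.uIcc (-T) ξ, HasDerivAt (fun y : ℝ => -(Real.log (1 + a * (ξ - y)) / a))
        (1 / (1 + a * |ξ - x|)) x := by
      intro x hx
      rw [Set.uIcc_of_le h1] at hx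
      have h4 : 0 ≤ ξ - x := by linarith [hx.2]
      have h5 : 0 < 1 + a * (ξ - x) := by positivity
      have h6 : HasDerivAt (fun y : ℝ => 1 + a * (ξ - y)) (a * (-1)) x :=
        (((hasDerivAt_id x).const_sub ξ).const_mul a).const_add 1
      have h7 := ((h6.log h5.ne').div_const a).neg
      have e : -(a * (-1) / (1 + a * (ξ - x)) / a) = 1 / (1 + a * |ξ - x|) := by
        rw [abs_of_nonneg h4]
        field_simp
      rw [e] at h7
      exact h7
    rw [intervalIntegral.integral_eq_sub_of_hasDerivAt h3 (hc.intervalIntegrable _ _)]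
    simp
  have e2 : ∫ x in ξ..T, 1 / (1 + a * |ξ - x|) = Real.log (1 + a * (T - ξ)) / a := by
    have h3 : ∀ x ∈ Set.uIcc ξ T, HasDerivAt (fun y : ℝ => Real.log (1 + a * (y - ξ)) / a)
        (1 / (1 + a * |ξ - x|)) x := by
      intro x hx
      rw [Set.uIcc_of_le h2] at hx
      have h4 : 0 ≤ x - ξ := by linarith [hx.1]
      have h5 : 0 < 1 + a * (x - ξ) := by positivity
      have h6 : HasDerivAt (fun y : ℝ => 1 + a * (y - ξ)) (a * 1) x :=
        (((hasDerivAt_id x).sub_const ξ).const_mul a).const_add 1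
      have h7 := (h6.log h5.ne').div_const a
      have e : (a * 1 / (1 + a * (x - ξ)) / a) = 1 / (1 + a * |ξ - x|) := by
        rw [abs_sub_comm, abs_of_nonneg h4]
        field_simp
      rw [e] at h7
      exact h7
    rw [intervalIntegral.integral_eq_sub_of_hasDerivAt h3 (hc.intervalIntegrable _ _)]
    simp
  rw [e1, e2, ← add_div]
  apply div_le_div_of_nonneg_right _ ha.le
  have h3 : Real.log (1 + a * (ξ + T)) ≤ Real.log (1 + 2 * a * T) := by
    apply Real.log_le_log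
    · have : 0 ≤ a * (ξ + T) := mul_nonneg ha.le (by linarith)
      linarith
    · nlinarith
  have h4 : Real.log (1 + a * (T - ξ)) ≤ Real.log (1 + 2 * a * T) := by
    apply Real.log_le_log
    · have : 0 ≤ a * (T - ξ) := mul_nonneg ha.le (by linarith)
      linarith
    · nlinarith
  linarith

/-- modulus of continuity of the window function, uniformly in the window -/
theorem win_u (A : ℝ → ℂ) (hA1 : ∀ x, ‖A x‖ ≤ 1) (hA : Measurable A) (hV : PolyVar A) :
    ∃ C D : ℝ, 0 ≤ C ∧ 0 ≤ D ∧ ∀ b L s : ℝ, 0 ≤ L → 0 ≤ s → s ≤ 1 →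
      ∫ y, ‖Bw A b L (y + s) - Bw A b L y‖ ≤ (2 + C * Real.exp (D * |b|)) * Real.exp (D * L) * s := by
  obtain ⟨C, D, hD, h⟩ := id hV
  refine ⟨|C|, D, abs_nonneg _, hD.le, fun b L s hL hs _ => ?_⟩
  have hX : 1 ≤ Real.exp (|b| + L) := Real.one_le_exp (by positivity)
  have h1 := h _ hX
  have h2 : va A (Real.exp (|b| + L)) ≤ |C| * Real.exp (D * (|b| + L)) := by
    unfold va
    refine ENNReal.toReal_le_of_le_ofReal (by positivity) (h1.trans (ENNReal.ofReal_le_ofReal ?_))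
    rw [← Real.exp_mul, mul_comm (|b| + L) D]
    exact mul_le_mul_of_nonneg_right (le_abs_self C) (Real.exp_pos _).le
  have h3 : va A (Real.exp (b + L)) ≤ va A (Real.exp (|b| + L)) :=
    va_mono hV (Real.exp_pos _).le (Real.exp_le_exp.2 (by linarith [le_abs_self b]))
  have hm : Monotone (vb A b L) := by
    intro y y' hy
    have := vb_sub hA1 hV b hL y y' hy
    have := norm_nonneg (Bw A b L y' - Bw A b L y)
    linarith
  refine (int_var (Bw_int hA1 hA b L) hm (vb_nonneg A b L) (vb_le hV b L)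
    (vb_sub hA1 hV b hL) hs).trans ?_
  refine mul_le_mul_of_nonneg_right ?_ hs
  have h4 : 1 ≤ Real.exp (D * L) := Real.one_le_exp (by positivity)
  have e : Real.exp (D * (|b| + L)) = Real.exp (D * |b|) * Real.exp (D * L) := by
    rw [← Real.exp_add]; congr 1; ring
  rw [e] at h2
  calc 2 + va A (Real.exp (b + L)) ≤ 2 * Real.exp (D * L) +
        |C| * (Real.exp (D * |b|) * Real.exp (D * L)) := by linarith
    _ = (2 + |C| * Real.exp (D * |b|)) * Real.exp (D * L) := by ring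

/-- the Fourier transform of the window -/
theorem four_win (A : ℝ → ℂ) (x L ξ : ℝ) (hL : 0 ≤ L) :
    𝓕 (Bw A x L) ξ = ∫ y in (0 : ℝ)..L, A (Real.exp (x + y)) * er (-(2 * Real.pi * ξ)) y := by
  rw [Real.fourier_real_eq_integral_exp_smul, intervalIntegral.integral_of_le hL,
    ← integral_Icc_eq_integral_Ioc, ← integral_indicator measurableSet_Icc]
  congr 1
  funext y
  by_cases hy : y ∈ Set.Icc 0 L
  · rw [Set.indicator_of_mem hy, Bw_in hy, smul_eq_mul, mul_comm]
    unfold er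
    congr 3
    push_cast
    ring
  · rw [Set.indicator_of_notMem hy, Bw_zero hy, smul_zero]

/-- Plancherel with the frequencies cut at `T` -/
theorem cut (E F : ℝ → ℝ) (hE : Continuous E) (hF : Continuous F) (hE0 : ∀ x, 0 ≤ E x)
    (hF0 : ∀ x, 0 ≤ F x) {T V N2 R : ℝ} (hT : 1 ≤ T) (hN2 : 0 ≤ N2) (hEN : ∀ x, E x ≤ N2)
    (hR : ∫ ξ in Set.Icc (-T) T, E ξ * F ξ ≤ R)
    (hFV : ∀ ξ, T < |ξ| → F ξ ≤ (V / (4 * |ξ|)) ^ 2) :
    ∫⁻ ξ, ENNReal.ofReal (E ξ * F ξ) ≤ ENNReal.ofReal (R + N2 * V ^ 2 / 8 / T) := by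
  have hT0 : 0 < T := by linarith
  obtain ⟨K, hK⟩ : ∃ K : ℝ, K = N2 * V ^ 2 / 8 := ⟨_, rfl⟩
  have hK0 : 0 ≤ K := by rw [hK]; positivity
  have hR0 : 0 ≤ R := le_trans (setIntegral_nonneg measurableSet_Icc fun ξ _ =>
    mul_nonneg (hE0 ξ) (hF0 ξ)) hR
  have h5 : ∀ ξ : ℝ, ENNReal.ofReal (E ξ * F ξ) ≤
      (Set.Icc (-T) T).indicator (fun ξ => ENNReal.ofReal (E ξ * F ξ)) ξ +
      (Set.Iic T)ᶜ.indicator (fun x => ENNReal.ofReal (K / 2 * (x ^ 2)⁻¹)) |ξ| := by
    intro ξ
    by_cases hξ : |ξ| ≤ T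
    · rw [Set.indicator_of_mem (show ξ ∈ Set.Icc (-T) T from abs_le.1 hξ)]
      exact le_add_right le_rfl
    · refine le_add_left ?_
      rw [Set.indicator_of_mem (by simpa using hξ)]
      have hξ1 : T < |ξ| := not_le.1 hξ
      have hξ0 : 0 < |ξ| := by linarith
      apply ENNReal.ofReal_le_ofReal
      calc E ξ * F ξ ≤ N2 * (V / (4 * |ξ|)) ^ 2 := mul_le_mul (hEN ξ) (hFV ξ hξ1) (hF0 ξ) hN2
        _ = _ := by
            rw [hK]
            field_simp
            ring
  calc _ ≤ ∫⁻ ξ : ℝ, ((Set.Icc (-T) T).indicator (fun ξ => ENNReal.ofReal (E ξ * F ξ)) ξ +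
        (Set.Iic T)ᶜ.indicator (fun x => ENNReal.ofReal (K / 2 * (x ^ 2)⁻¹)) |ξ|) := lintegral_mono h5
    _ = (∫⁻ ξ in Set.Icc (-T) T, ENNReal.ofReal (E ξ * F ξ)) + ∫⁻ ξ : ℝ,
        (Set.Iic T)ᶜ.indicator (fun x => ENNReal.ofReal (K / 2 * (x ^ 2)⁻¹)) |ξ| := by
        rw [lintegral_add_left, lintegral_indicator measurableSet_Icc]
        exact ((hE.mul hF).measurable.ennreal_ofReal).indicator measurableSet_Icc
    _ ≤ ENNReal.ofReal R + ENNReal.ofReal (K / T) := by
        refine add_le_add ?_ (tail_int hT hK0)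
        rw [← ofReal_integral_eq_lintegral_ofReal]
        · exact ENNReal.ofReal_le_ofReal hR
        · exact (hE.mul hF).continuousOn.integrableOn_compact isCompact_Icc
        · exact ae_of_all _ fun ξ => mul_nonneg (hE0 ξ) (hF0 ξ)
    _ = _ := by
        rw [← ENNReal.ofReal_add hR0 (by positivity), hK]

theorem log_pow_le_rpow (K : ℕ) {δ : ℝ} (hδ : 0 < δ) {x : ℝ} (hx : 1 ≤ x) :
    Real.log x ^ K ≤ K.factorial / δ ^ K * x ^ δ := by
  have hx0 : 0 < x := by linarith
  have h1 := Real.pow_div_factorial_le_exp (δ * Real.log x) (by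
    have := Real.log_nonneg hx
    positivity) K
  rw [mul_comm δ, ← Real.rpow_def_of_pos hx0, mul_pow, div_le_iff₀ (by positivity)] at h1
  rw [div_mul_eq_mul_div, le_div_iff₀ (by positivity)]
  linarith

end Pool.Agent.U996.UW
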