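import Pool.Agent.U996.UW.Dyad

/-!
# Arbitrary weights: the full sum, families, and almost every tuple of dilations
-/

set_option autoImplicit false

namespace Pool.Agent.U996.UW

open Finset MeasureTheory Filter Topology
open scoped ENNReal
open Pool.Agent.H376R2.MR (er)
open Pool.Agent.Y957.AD (er_norm er_add er_zero PolyVar)
open Pool.Agent.Y957.VK

theorem halving (K : ℕ) : ∃ N0 : ℕ, 4 ≤ N0 ∧ ∀ N M : ℕ, N0 ≤ N → N ≤ 2 * M → 2 * M ≤ N + 1 →
    (M : ℝ) ^ 2 / Real.log M ^ K ≤ 3 / 8 * ((N : ℝ) ^ 2 / Real.log N ^ K) := by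
  have h1 : Tendsto (fun N : ℕ => 1 + 1 / (N : ℝ)) atTop (𝓝 (1 + 0)) :=
    tendsto_const_nhds.add tendsto_one_div_atTop_nhds_zero_nat
  have hlog : Tendsto (fun N : ℕ => Real.log N - Real.log 2) atTop atTop :=
    tendsto_atTop_add_const_right _ _ (Real.tendsto_log_atTop.comp tendsto_natCast_atTop_atTop)
  have h2 : Tendsto (fun N : ℕ => 1 + Real.log 2 / (Real.log N - Real.log 2)) atTop (𝓝 (1 + 0)) :=
    tendsto_const_nhds.add (hlog.const_div_atTop (Real.log 2))
  have h3 : Tendsto (fun N : ℕ => (1 + 1 / (N : ℝ)) ^ 2 *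
      (1 + Real.log 2 / (Real.log N - Real.log 2)) ^ K) atTop (𝓝 ((1 + 0) ^ 2 * (1 + 0) ^ K)) :=
    (h1.pow 2).mul (h2.pow K)
  have h4 : ∀ᶠ N : ℕ in atTop, (1 + 1 / (N : ℝ)) ^ 2 *
      (1 + Real.log 2 / (Real.log N - Real.log 2)) ^ K < 3 / 2 := by
    refine h3.eventually (gt_mem_nhds ?_)
    norm_num
  obtain ⟨N1, hN1⟩ := h4.exists_forall_of_atTop
  refine ⟨max N1 4, le_max_right _ _, fun N M hN hM1 hM2 => ?_⟩
  have h5 := hN1 N ((le_max_left _ _).trans hN)
  have hN4 : 4 ≤ N := (le_max_right _ _).trans hN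
  have hN4r : (4 : ℝ) ≤ N := by exact_mod_cast hN4
  have hN0 : (0 : ℝ) < N := by linarith
  have hM1r : (N : ℝ) ≤ 2 * M := by exact_mod_cast hM1
  have hM2r : 2 * (M : ℝ) ≤ N + 1 := by exact_mod_cast hM2
  have hM0 : (0 : ℝ) < M := by linarith
  have hl2 : 0 < Real.log 2 := Real.log_pos (by norm_num)
  have hlN : Real.log 4 ≤ Real.log N := Real.log_le_log (by norm_num) hN4r
  have hl4 : Real.log 4 = 2 * Real.log 2 := by
    rw [show (4 : ℝ) = 2 ^ 2 by norm_num, Real.log_pow]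
    push_cast
    ring
  have hd : 0 < Real.log N - Real.log 2 := by linarith
  have hlM : Real.log N - Real.log 2 ≤ Real.log M := by
    rw [← Real.log_div hN0.ne' (by norm_num)]
    exact Real.log_le_log (by positivity) (by linarith)
  have hMsq : (M : ℝ) ^ 2 ≤ (N : ℝ) ^ 2 / 4 * (1 + 1 / (N : ℝ)) ^ 2 := by
    have e : (N : ℝ) ^ 2 / 4 * (1 + 1 / (N : ℝ)) ^ 2 = ((N + 1) / 2) ^ 2 := by
      field_simp
      ring
    rw [e]
    exact pow_le_pow_left₀ hM0.le (by linarith) 2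
  have hlK : 0 < Real.log N ^ K := by
    have : 0 < Real.log N := by linarith
    positivity
  have e2 : (1 + Real.log 2 / (Real.log N - Real.log 2)) ^ K =
      Real.log N ^ K / (Real.log N - Real.log 2) ^ K := by
    rw [← div_pow]
    congr 1
    field_simp
    ring
  rw [e2] at h5
  have h6 : (Real.log N - Real.log 2) ^ K ≤ Real.log M ^ K := pow_le_pow_left₀ hd.le hlM K
  have hdK : 0 < (Real.log N - Real.log 2) ^ K := by positivity
  calc (M : ℝ) ^ 2 / Real.log M ^ K ≤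
        ((N : ℝ) ^ 2 / 4 * (1 + 1 / (N : ℝ)) ^ 2) / (Real.log N - Real.log 2) ^ K :=
        div_le_div₀ (by positivity) hMsq hdK h6
    _ = (1 / 4) * ((1 + 1 / (N : ℝ)) ^ 2 * (Real.log N ^ K / (Real.log N - Real.log 2) ^ K)) *
          ((N : ℝ) ^ 2 / Real.log N ^ K) := by
        field_simp
    _ ≤ (1 / 4) * (3 / 2) * ((N : ℝ) ^ 2 / Real.log N ^ K) := by
        apply mul_le_mul_of_nonneg_right _ (by positivity)
        linarith
    _ = _ := by ring

theorem enorm_add_sq (a b : ℂ) : ‖a + b‖ₑ ^ 2 ≤ 2 * ‖a‖ₑ ^ 2 + 2 * ‖b‖ₑ ^ 2 := by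
  have e : ∀ z : ℂ, 2 * ‖z‖ₑ ^ 2 = ENNReal.ofReal (2 * ‖z‖ ^ 2) := fun z => by
    rw [enorm_sq, ENNReal.ofReal_mul (by norm_num), ENNReal.ofReal_ofNat]
  rw [e, e, ← ENNReal.ofReal_add (by positivity) (by positivity), enorm_sq]
  apply ENNReal.ofReal_le_ofReal
  have h := norm_add_le a b
  have h0 := norm_nonneg (a + b)
  have h1 : ‖a + b‖ ^ 2 ≤ (‖a‖ + ‖b‖) ^ 2 := pow_le_pow_left₀ h0 h 2
  nlinarith [sq_nonneg (‖a‖ - ‖b‖)]

/-- **Arbitrary weights, the full sum.** -/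
theorem full (A : ℝ → ℂ) (hA1 : ∀ x, ‖A x‖ ≤ 1) (hAm : Measurable A) (hAv : PolyVar A) (hAw : WNeg A)
    (b c : ℝ) (hc : 0 < c) (K : ℕ) : ∃ C : ℝ, 0 ≤ C ∧ ∀ N : ℕ, 2 ≤ N →
      ∀ w : ℕ → ℂ, (∀ n, ‖w n‖ ≤ 1) →
        ∫⁻ u in Set.Icc (0 : ℝ) 1, ‖∑ n ∈ Icc 1 N, w n * A (Real.exp (b + u) * (n : ℝ) ^ c)‖ₑ ^ 2 ≤
          ENNReal.ofReal (C * (N ^ 2 / Real.log N ^ K)) := by
  obtain ⟨Cb, hCb, hblk⟩ := block A hA1 hAm hAv hAw b c hc K
  obtain ⟨N0, hN04, hhalf⟩ := halving K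
  have hlN0 : 0 ≤ Real.log N0 := Real.log_natCast_nonneg _
  refine ⟨3 * Cb + Real.log N0 ^ K, by positivity, ?_⟩
  intro N
  induction N using Nat.strong_induction_on with
  | _ N ih =>
    intro hN w hw
    have hNr : (2 : ℝ) ≤ N := by exact_mod_cast hN
    have hN0 : (0 : ℝ) < N := by linarith
    have hlog0 : 0 < Real.log N := Real.log_pos (by linarith)
    have hlK : 0 < Real.log N ^ K := by positivity
    rcases lt_or_ge N N0 with hs | hs
    · have h1 := triv_sum A hA1 (Icc 1 N) w hw fun u n => Real.exp (b + u) * (n : ℝ) ^ c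
      refine h1.trans (ENNReal.ofReal_le_ofReal ?_)
      rw [Nat.card_Icc, Nat.add_sub_cancel, mul_div_assoc', le_div_iff₀ hlK]
      have h2 : Real.log N ^ K ≤ Real.log N0 ^ K :=
        pow_le_pow_left₀ hlog0.le (Real.log_le_log hN0 (by exact_mod_cast hs.le)) K
      have h3 : (N : ℝ) ^ 2 * Real.log N ^ K ≤ (N : ℝ) ^ 2 * Real.log N0 ^ K :=
        mul_le_mul_of_nonneg_left h2 (by positivity)
      have h4 : 0 ≤ 3 * Cb * (N : ℝ) ^ 2 := by positivity
      nlinarith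
    · obtain ⟨M, hM⟩ : ∃ M : ℕ, M = (N + 1) / 2 := ⟨_, rfl⟩
      have hM1 : N ≤ 2 * M := by omega
      have hM2 : 2 * M ≤ N + 1 := by omega
      have hM3 : 2 ≤ M := by omega
      have hM4 : M < N := by omega
      have hh := hhalf N M hs hM1 hM2
      have h1 := ih M hM4 hM3 w hw
      have h2 := hblk M N hM3 hM4.le hM1 w hw
      have e1 : ∀ u : ℝ, ∑ n ∈ Icc 1 N, w n * A (Real.exp (b + u) * (n : ℝ) ^ c) =
          ∑ n ∈ Icc 1 M, w n * A (Real.exp (b + u) * (n : ℝ) ^ c) +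
          ∑ n ∈ Ioc M N, w n * A (Real.exp (b + u) * (n : ℝ) ^ c) := by
        intro u
        have e2 : Icc 1 N = Ioc 0 N := rfl
        have e3 : Icc 1 M = Ioc 0 M := rfl
        rw [e2, e3]
        exact (Finset.sum_Ioc_consecutive _ (Nat.zero_le _) hM4.le).symm
      have hm1 : Measurable fun u : ℝ =>
          2 * ‖∑ n ∈ Icc 1 M, w n * A (Real.exp (b + u) * (n : ℝ) ^ c)‖ₑ ^ 2 := by
        refine Measurable.const_mul (Measurable.pow_const (Measurable.enorm ?_) 2) 2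
        refine Finset.measurable_fun_sum _ fun n _ => measurable_const.mul (hAm.comp ?_)
        exact (Real.measurable_exp.comp (measurable_const.add measurable_id)).mul measurable_const
      calc ∫⁻ u in Set.Icc (0 : ℝ) 1,
            ‖∑ n ∈ Icc 1 N, w n * A (Real.exp (b + u) * (n : ℝ) ^ c)‖ₑ ^ 2 ≤
            ∫⁻ u in Set.Icc (0 : ℝ) 1,
              (2 * ‖∑ n ∈ Icc 1 M, w n * A (Real.exp (b + u) * (n : ℝ) ^ c)‖ₑ ^ 2 +
                2 * ‖∑ n ∈ Ioc M N, w n * A (Real.exp (b + u) * (n : ℝ) ^ c)‖ₑ ^ 2) := by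
            refine lintegral_mono fun u => ?_
            show ‖∑ n ∈ Icc 1 N, w n * A (Real.exp (b + u) * (n : ℝ) ^ c)‖ₑ ^ 2 ≤ _
            rw [e1]
            exact enorm_add_sq _ _
        _ = 2 * (∫⁻ u in Set.Icc (0 : ℝ) 1,
              ‖∑ n ∈ Icc 1 M, w n * A (Real.exp (b + u) * (n : ℝ) ^ c)‖ₑ ^ 2) +
            2 * ∫⁻ u in Set.Icc (0 : ℝ) 1,
              ‖∑ n ∈ Ioc M N, w n * A (Real.exp (b + u) * (n : ℝ) ^ c)‖ₑ ^ 2 := by
            rw [lintegral_add_left hm1, lintegral_const_mul' _ _ (by norm_num),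
              lintegral_const_mul' _ _ (by norm_num)]
        _ ≤ 2 * ENNReal.ofReal ((3 * Cb + Real.log N0 ^ K) * (M ^ 2 / Real.log M ^ K)) +
            2 * ENNReal.ofReal (Cb * M ^ 2 / Real.log M ^ K) := by gcongr
        _ = ENNReal.ofReal (2 * ((3 * Cb + Real.log N0 ^ K) * (M ^ 2 / Real.log M ^ K)) +
            2 * (Cb * M ^ 2 / Real.log M ^ K)) := by
            have hlM : 0 ≤ Real.log M := Real.log_natCast_nonneg _
            have h2a : ∀ a : ℝ, 2 * ENNReal.ofReal a = ENNReal.ofReal (2 * a) := fun a => by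
              rw [ENNReal.ofReal_mul (by norm_num), ENNReal.ofReal_ofNat]
            rw [h2a, h2a, ← ENNReal.ofReal_add (by positivity) (by positivity)]
        _ ≤ _ := by
            apply ENNReal.ofReal_le_ofReal
            have h3 : 0 ≤ (N : ℝ) ^ 2 / Real.log N ^ K := by positivity
            have hl : 0 ≤ Real.log N0 ^ K := by positivity
            have e4 : 2 * ((3 * Cb + Real.log N0 ^ K) * ((M : ℝ) ^ 2 / Real.log M ^ K)) +
                2 * (Cb * M ^ 2 / Real.log M ^ K) =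
                (8 * Cb + 2 * Real.log N0 ^ K) * ((M : ℝ) ^ 2 / Real.log M ^ K) := by ring
            rw [e4]
            calc _ ≤ (8 * Cb + 2 * Real.log N0 ^ K) * (3 / 8 * ((N : ℝ) ^ 2 / Real.log N ^ K)) :=
                  mul_le_mul_of_nonneg_left hh (by positivity)
              _ = (3 * Cb + 3 / 4 * Real.log N0 ^ K) * ((N : ℝ) ^ 2 / Real.log N ^ K) := by ring
              _ ≤ _ := by
                  apply mul_le_mul_of_nonneg_right _ h3
                  linarith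

/-- **Families of weights.** -/
theorem negF_univ {Ω : Type} [MeasurableSpace Ω] (m : Measure Ω) [IsFiniteMeasure m] (g : Ω → ℕ → ℂ)
    (hg1 : ∀ ω n, ‖g ω n‖ ≤ 1) (A : ℝ → ℂ) (hA1 : ∀ x, ‖A x‖ ≤ 1) (hAm : Measurable A)
    (hAv : PolyVar A) (hAw : WNeg A) (b c : ℝ) (hc : 0 < c) :
    NegF (m.prod (volume.restrict (Set.Icc (0 : ℝ) 1)))
      (fun p n => g p.1 n * A (Real.exp (b + p.2) * (n : ℝ) ^ c)) := by
  intro _ K
  obtain ⟨C, hC, h⟩ := full A hA1 hAm hAv hAw b c hc K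
  have hmu : 0 ≤ m.real Set.univ := measureReal_nonneg
  refine ⟨C * m.real Set.univ, by positivity, fun N τ hN _ => ?_⟩
  refine (lintegral_prod_le _).trans ?_
  calc _ ≤ ∫⁻ _ω, ENNReal.ofReal (C * (N ^ 2 / Real.log N ^ K)) ∂m := by
        refine lintegral_mono fun ω => ?_
        have h1 := h N hN (fun n => g ω n * er τ (Real.log n)) (fun n => by
          rw [norm_mul, er_norm, mul_one]
          exact hg1 ω n)
        refine le_trans (le_of_eq (lintegral_congr fun u => ?_)) h1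
        congr 2
        refine Finset.sum_congr rfl fun n _ => ?_
        show g ω n * A (Real.exp (b + u) * (n : ℝ) ^ c) * er τ (Real.log n) = _
        ring
    _ = _ := by
        have hl : 0 ≤ Real.log N := Real.log_natCast_nonneg _
        rw [lintegral_const, mul_comm, ← ENNReal.ofReal_toReal (measure_ne_top m Set.univ),
          ← ENNReal.ofReal_mul ENNReal.toReal_nonneg]
        congr 1
        show m.real Set.univ * (C * (N ^ 2 / Real.log N ^ K)) = _
        ring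

/-- products of dilated functions one of which oscillates -/
theorem negF_pi (w : ℕ → ℂ) (hw : ∀ n, ‖w n‖ ≤ 1) (k : ℕ) (A : Fin (k + 1) → ℝ → ℂ)
    (hA1 : ∀ i x, ‖A i x‖ ≤ 1) (i : Fin (k + 1)) (hAm : Measurable (A i)) (hAv : PolyVar (A i))
    (hAw : WNeg (A i)) (b c : Fin (k + 1) → ℝ) (hc : 0 < c i) :
    NegF (Measure.pi fun _ : Fin (k + 1) => (volume : Measure ℝ).restrict (Set.Icc (0 : ℝ) 1))
      (fun ω n => w n * ∏ j, A j (Real.exp (b j + ω j) * (n : ℝ) ^ (c j))) := by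
  have h2 := negF_univ
    (Measure.pi fun _ : Fin k => (volume : Measure ℝ).restrict (Set.Icc (0 : ℝ) 1))
    (fun ω n => w n * ∏ j : Fin k, A (i.succAbove j)
      (Real.exp (b (i.succAbove j) + ω j) * (n : ℝ) ^ (c (i.succAbove j))))
    (fun ω n => by
      rw [norm_mul, norm_prod]
      have h3 : ∏ j : Fin k, ‖A (i.succAbove j)
          (Real.exp (b (i.succAbove j) + ω j) * (n : ℝ) ^ (c (i.succAbove j)))‖ ≤ 1 :=
        Finset.prod_le_one (fun _ _ => norm_nonneg _) (fun j _ => hA1 _ _)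
      exact mul_le_one₀ (hw n) (Finset.prod_nonneg fun _ _ => norm_nonneg _) h3)
    (A i) (hA1 i) hAm hAv hAw (b i) (c i) hc
  intro P K
  obtain ⟨C, hC0, hC⟩ := h2 P K
  refine ⟨C, hC0, fun N τ hN2 hτ => ?_⟩
  refine le_trans (le_of_eq ?_) (hC N τ hN2 hτ)
  have mp1 := measurePreserving_piFinSuccAbove
    (fun _ : Fin (k + 1) => (volume : Measure ℝ).restrict (Set.Icc (0 : ℝ) 1)) i
  have mp2 : MeasurePreserving (Prod.swap : ℝ × (Fin k → ℝ) → (Fin k → ℝ) × ℝ)
      (((volume : Measure ℝ).restrict (Set.Icc (0 : ℝ) 1)).prod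
        (Measure.pi fun _ : Fin k => (volume : Measure ℝ).restrict (Set.Icc (0 : ℝ) 1)))
      ((Measure.pi fun _ : Fin k => (volume : Measure ℝ).restrict (Set.Icc (0 : ℝ) 1)).prod
        ((volume : Measure ℝ).restrict (Set.Icc (0 : ℝ) 1))) := Measure.measurePreserving_swap
  rw [← mp2.lintegral_comp_emb MeasurableEquiv.prodComm.measurableEmbedding,
    ← mp1.lintegral_comp_emb (MeasurableEquiv.measurableEmbedding _)]
  apply lintegral_congr
  intro ω
  congr 2
  apply Finset.sum_congr rfl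
  intro n _
  have e0 : ∏ j, A j (Real.exp (b j + ω j) * (n : ℝ) ^ c j) =
      A i (Real.exp (b i + ω i) * (n : ℝ) ^ c i) *
        ∏ j : Fin k, A (i.succAbove j)
          (Real.exp (b (i.succAbove j) + ω (i.succAbove j)) * (n : ℝ) ^ c (i.succAbove j)) :=
    Fin.prod_univ_succAbove _ i
  have e1 : ((MeasurableEquiv.piFinSuccAbove (fun _ : Fin (k + 1) => ℝ) i) ω).2 =
    fun j => ω (i.succAbove j) := by
    funext j
    rfl
  have e2 : ((MeasurableEquiv.piFinSuccAbove (fun _ : Fin (k + 1) => ℝ) i) ω).1 = ω i := rfl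
  simp only [Prod.fst_swap, Prod.snd_swap, e1, e2, e0]
  ring

/-- from the cubes to all positive parameters -/
theorem ae_cubes (k : ℕ) (P : (Fin k → ℝ) → Prop)
    (h : ∀ b : Fin k → ℤ, ∀ᵐ ω ∂(Measure.pi fun _ : Fin k => (volume : Measure ℝ).restrict (Set.Icc (0 : ℝ) 1)),
      P (fun i => Real.exp (b i + ω i))) :
    ∀ᵐ α ∂((volume : Measure (Fin k → ℝ)).restrict {α | ∀ i, 0 < α i}), P α := by
  have hmeas : MeasurableSet {α : Fin k → ℝ | ∀ i, 0 < α i} := by
    have e : {α : Fin k → ℝ | ∀ i, 0 < α i} = Set.pi Set.univ (fun _ => Set.Ioi (0 : ℝ)) := by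
      ext α
      simp
    rw [e]
    exact MeasurableSet.univ_pi fun _ => measurableSet_Ioi
  rw [ae_restrict_iff' hmeas]
  have hcube : MeasurableSet (Set.pi Set.univ (fun _ : Fin k => Set.Icc (0 : ℝ) 1)) :=
    MeasurableSet.univ_pi fun _ => measurableSet_Icc
  have key : ∀ b : Fin k → ℤ, (volume : Measure (Fin k → ℝ))
      {ω | ω ∈ Set.pi Set.univ (fun _ : Fin k => Set.Icc (0 : ℝ) 1) ∧
        ¬ P (fun i => Real.exp (b i + ω i))} = 0 := by
    intro b
    have h3 := h b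
    rw [← Measure.restrict_pi_pi, ← volume_pi, ae_restrict_iff' hcube] at h3
    rw [ae_iff] at h3
    refine measure_mono_null ?_ h3
    intro ω hω
    simp only [Set.mem_setOf_eq, Classical.not_imp]
    exact ⟨hω.1, hω.2⟩
  rw [ae_iff]
  refine measure_mono_null ?_ (measure_iUnion_null fun b : Fin k → ℤ =>
    addHaar_image_eq_zero_of_differentiableOn_of_addHaar_eq_zero (volume : Measure (Fin k → ℝ))
      (f := fun ω i => Real.exp (b i + ω i)) ?_ (key b))
  · intro α hα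
    simp only [Set.mem_setOf_eq, Classical.not_imp] at hα
    obtain ⟨hα1, hα2⟩ := hα
    rw [Set.mem_iUnion]
    have e : (fun i => Real.exp (((⌊Real.log (α i)⌋ : ℤ) : ℝ) + Int.fract (Real.log (α i)))) = α := by
      funext i
      rw [Int.floor_add_fract, Real.exp_log (hα1 i)]
    refine ⟨fun i => ⌊Real.log (α i)⌋, fun i => Int.fract (Real.log (α i)), ⟨?_, ?_⟩, e⟩
    · intro i _
      exact ⟨Int.fract_nonneg _, (Int.fract_lt_one _).le⟩
    · rw [e]
      exact hα2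
  · apply Differentiable.differentiableOn
    rw [differentiable_pi]
    intro i
    exact ((differentiable_apply i).const_add _).exp

/-- **Almost every tuple of dilations, arbitrary weights.** -/
theorem ae_univ (w : ℕ → ℂ) (hw : ∀ n, ‖w n‖ ≤ 1) (k : ℕ) (A : Fin (k + 1) → ℝ → ℂ)
    (hA1 : ∀ i x, ‖A i x‖ ≤ 1) (hAm : ∀ i, Measurable (A i)) (i : Fin (k + 1)) (hAv : PolyVar (A i))
    (hAw : WNeg (A i)) (c : Fin (k + 1) → ℝ) (hc : 0 < c i) :
    ∀ᵐ α ∂((volume : Measure (Fin (k + 1) → ℝ)).restrict {α | ∀ i, 0 < α i}), ∀ K : ℕ,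
      Tendsto (fun N : ℕ => (Real.log N) ^ K / N *
        ‖∑ n ∈ Finset.Icc 1 N, w n * ∏ j, A j (α j * (n : ℝ) ^ (c j))‖) atTop (𝓝 0) := by
  refine ae_cubes (k + 1) (fun α => ∀ K : ℕ,
      Tendsto (fun N : ℕ => (Real.log N) ^ K / N *
        ‖∑ n ∈ Finset.Icc 1 N, w n * ∏ j, A j (α j * (n : ℝ) ^ (c j))‖) atTop (𝓝 0)) fun b => ?_
  exact Pool.Agent.Y901.VK.bc (Fin (k + 1) → ℝ)
    (Measure.pi fun _ : Fin (k + 1) => (volume : Measure ℝ).restrict (Set.Icc (0 : ℝ) 1))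
    (fun ω n => w n * ∏ j, A j (Real.exp (b j + ω j) * (n : ℝ) ^ (c j)))
    (fun n => by
      apply Measurable.const_mul
      apply Finset.measurable_prod
      intro j _
      exact (hAm j).comp (((measurable_pi_apply j).const_add _).exp.mul_const _))
    (fun ω n => by
      rw [norm_mul, norm_prod]
      have h3 : ∏ j, ‖A j (Real.exp (b j + ω j) * (n : ℝ) ^ (c j))‖ ≤ 1 :=
        Finset.prod_le_one (fun _ _ => norm_nonneg _) (fun j _ => hA1 _ _)
      exact mul_le_one₀ (hw n) (Finset.prod_nonneg fun _ _ => norm_nonneg _) h3)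
    (negF_pi w hw k A hA1 i (hAm i) hAv hAw (fun j => (b j : ℝ)) c hc)

end Pool.Agent.U996.UW
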