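import Pool.Agent.U996.UW.Full
import Pool.Agent.Y957.VK.Fin3

/-!
# Primes along dilated powers with arbitrary weights, almost every tuple of dilations
-/

set_option autoImplicit false

namespace Pool.Agent.U996.UW

open Finset MeasureTheory Filter Topology
open scoped ENNReal Chebyshev
open Pool.Agent.H376R2.MR (er)
open Pool.Agent.Y957.AD (er_norm er_add er_zero PolyVar)
open Pool.Agent.Y957.VK

/-- the shifted step function of a sequence -/
noncomputable def sh (f : ℕ → ℂ) (h : ℤ) (t : ℝ) : ℂ := f ((⌊t⌋₊ : ℤ) + h).toNat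

theorem sh_le {f : ℕ → ℂ} (hf : ∀ n, ‖f n‖ ≤ 1) (h : ℤ) (t : ℝ) : ‖sh f h t‖ ≤ 1 := hf _

theorem sh_meas (f : ℕ → ℂ) (h : ℤ) : Measurable (sh f h) :=
  (measurable_from_nat (f := fun m : ℕ => f ((m : ℤ) + h).toNat)).comp Nat.measurable_floor

theorem sh_var {f : ℕ → ℂ} (hf : ∀ n, ‖f n‖ ≤ 1) (h : ℤ) : PolyVar (sh f h) :=
  Pool.Agent.Y950.AD.polyVar_step (fun x => ⌊x⌋) (fun x y hxy => Int.floor_le_floor hxy)
      1 1 one_pos (fun X hX => by simpa using Int.floor_le X)
      (fun z => f ((z.toNat : ℤ) + h).toNat) (fun z => hf _)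

theorem sh_neg {f : ℕ → ℂ} (hf : ∀ n, ‖f n‖ ≤ 1) (hn : Neg f) (h : ℤ) : WNeg (sh f h) :=
  wneg_of f hf hn h

/-- the primes -/
def pI (n : ℕ) : ℂ := if n.Prime then 1 else 0

/-- the density of the primes -/
noncomputable def pR (n : ℕ) : ℂ := if n ≤ 2 then 0 else ((1 / Real.log n : ℝ) : ℂ)

theorem log_three : 1 < Real.log 3 := by
  have h := Real.exp_one_lt_three
  rwa [Real.lt_log_iff_exp_lt (by norm_num)]

theorem log_ge {n : ℕ} (hn : 3 ≤ n) : 1 ≤ Real.log n :=
  log_three.le.trans (Real.log_le_log (by norm_num) (by exact_mod_cast hn))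

theorem pI_le (n : ℕ) : ‖pI n‖ ≤ 1 := by
  unfold pI
  split_ifs <;> simp

theorem pR_le (n : ℕ) : ‖pR n‖ ≤ 1 := by
  unfold pR
  split_ifs with h
  · simp
  · have h1 := log_ge (n := n) (by omega)
    rw [Complex.norm_real, Real.norm_of_nonneg (by positivity), div_le_one (by linarith)]
    exact h1

theorem fp_le (n : ℕ) : ‖pI n - pR n‖ ≤ 1 := by
  by_cases h : n ≤ 2
  · have e : pI n - pR n = pI n := by
      unfold pR
      rw [if_pos h, sub_zero]
    rw [e]
    exact pI_le n
  unfold pI pR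
  rw [if_neg h]
  split_ifs with h2
  · have h1 := log_ge (n := n) (by omega)
    have h3 : (1 : ℂ) - ((1 / Real.log n : ℝ) : ℂ) = ((1 - 1 / Real.log n : ℝ) : ℂ) := by
      push_cast
      ring
    have h4 : 1 / Real.log n ≤ 1 := by rw [div_le_one (by linarith)]; exact h1
    have h5 : 0 ≤ 1 / Real.log n := by positivity
    rw [h3, Complex.norm_real, Real.norm_of_nonneg (by linarith)]
    linarith
  · have h1 := log_ge (n := n) (by omega)
    rw [zero_sub, norm_neg, Complex.norm_real, Real.norm_of_nonneg (by positivity),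
      div_le_one (by linarith)]
    exact h1

/-- comparison of the normalisations -/
theorem fp_cmp (n : ℕ) (hn : 1 ≤ n) : ‖(pI n - pR n) - lamw n / Lg n‖ ≤
    5 / n + if n.Prime then 0 else ArithmeticFunction.vonMangoldt n := by
  have hn0 : (0 : ℝ) < n := by exact_mod_cast hn
  have hL0 : 0 < Real.log ((n : ℝ) + 3) := Real.log_pos (by linarith)
  have hL1 : 1 ≤ Real.log ((n : ℝ) + 3) := by
    have := Real.log_le_log (show (0 : ℝ) < 3 by norm_num) (show (3 : ℝ) ≤ n + 3 by linarith)
    linarith [log_three]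
  have hΛ := ArithmeticFunction.vonMangoldt_nonneg (n := n)
  have e1 : lamw n / Lg n =
      (((ArithmeticFunction.vonMangoldt n - 1) / Real.log ((n : ℝ) + 3) : ℝ) : ℂ) := by
    unfold lamw Lg
    push_cast
    ring
  have hlogdiff : Real.log ((n : ℝ) + 3) - Real.log n ≤ 3 / n := by
    rw [← Real.log_div (by linarith) hn0.ne']
    have h := Real.log_le_sub_one_of_pos (show 0 < ((n : ℝ) + 3) / n by positivity)
    have e : ((n : ℝ) + 3) / n - 1 = 3 / n := by field_simp; ring
    linarith
  have hlogle : Real.log n ≤ Real.log ((n : ℝ) + 3) := Real.log_le_log hn0 (by linarith)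
  have h35 : 3 / (n : ℝ) ≤ 5 / n := div_le_div_of_nonneg_right (by norm_num) hn0.le
  by_cases h2 : n ≤ 2
  · refine (norm_sub_le _ _).trans ?_
    have e2 := fp_le n
    have e3 : ‖lamw n / Lg n‖ = |ArithmeticFunction.vonMangoldt n - 1| / Real.log ((n : ℝ) + 3) := by
      rw [e1, Complex.norm_real, Real.norm_eq_abs, abs_div, abs_of_pos hL0]
    rw [e3]
    have h3 : |ArithmeticFunction.vonMangoldt n - 1| ≤ 1 := by
      have h4 : ArithmeticFunction.vonMangoldt n ≤ Real.log n := ArithmeticFunction.vonMangoldt_le_log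
      have h5 : Real.log n ≤ Real.log 2 := Real.log_le_log hn0 (by exact_mod_cast h2)
      have h6 := Real.log_two_lt_d9
      rw [abs_le]
      constructor <;> linarith
    have h4 : |ArithmeticFunction.vonMangoldt n - 1| / Real.log ((n : ℝ) + 3) ≤ 1 :=
      (div_le_div_of_nonneg_right h3 hL0.le).trans (by rw [div_le_one hL0]; exact hL1)
    have h5 : 2 ≤ 5 / (n : ℝ) := by
      rw [le_div_iff₀ hn0]
      have : (n : ℝ) ≤ 2 := by exact_mod_cast h2
      linarith
    have h6 : 0 ≤ (if n.Prime then 0 else ArithmeticFunction.vonMangoldt n) := by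
      split_ifs
      · exact le_rfl
      · exact hΛ
    linarith
  · have hn3 : 3 ≤ n := by omega
    have hlog1 := log_ge hn3
    have hlog0 : 0 < Real.log n := by linarith
    have hinv : 0 ≤ 1 / Real.log n - 1 / Real.log ((n : ℝ) + 3) := by
      have := one_div_le_one_div_of_le hlog0 hlogle
      linarith
    have hinv2 : (1 / Real.log n - 1 / Real.log ((n : ℝ) + 3)) * Real.log n ≤ 3 / n := by
      have e : (1 / Real.log n - 1 / Real.log ((n : ℝ) + 3)) * Real.log n =
          (Real.log ((n : ℝ) + 3) - Real.log n) / Real.log ((n : ℝ) + 3) := by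
        field_simp
      rw [e]
      exact (div_le_self (by linarith) hL1).trans hlogdiff
    by_cases hp : n.Prime
    · rw [if_pos hp, add_zero]
      have e2 : pI n - pR n - lamw n / Lg n =
          (((1 / Real.log n - 1 / Real.log ((n : ℝ) + 3)) * (Real.log n - 1) : ℝ) : ℂ) := by
        rw [e1, ArithmeticFunction.vonMangoldt_apply_prime hp]
        unfold pI pR
        rw [if_neg h2, if_pos hp]
        have : (1 / Real.log n - 1 / Real.log ((n : ℝ) + 3)) * (Real.log n - 1) =
            1 - 1 / Real.log n - (Real.log n - 1) / Real.log ((n : ℝ) + 3) := by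
          field_simp
        rw [this]
        push_cast
        ring
      rw [e2, Complex.norm_real, Real.norm_of_nonneg (mul_nonneg hinv (by linarith))]
      refine le_trans ?_ (hinv2.trans h35)
      exact mul_le_mul_of_nonneg_left (by linarith) hinv
    · rw [if_neg hp]
      have e2 : pI n - pR n - lamw n / Lg n =
          ((-((1 / Real.log n - 1 / Real.log ((n : ℝ) + 3)) +
            ArithmeticFunction.vonMangoldt n / Real.log ((n : ℝ) + 3)) : ℝ) : ℂ) := by
        rw [e1]
        unfold pI pR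
        rw [if_neg h2, if_neg hp]
        push_cast
        ring
      have h3 : 0 ≤ ArithmeticFunction.vonMangoldt n / Real.log ((n : ℝ) + 3) := by positivity
      have h4 : ArithmeticFunction.vonMangoldt n / Real.log ((n : ℝ) + 3) ≤
          ArithmeticFunction.vonMangoldt n := div_le_self hΛ hL1
      rw [e2, Complex.norm_real, Real.norm_eq_abs, abs_neg, abs_of_nonneg (by linarith)]
      have h5 : (1 / Real.log n - 1 / Real.log ((n : ℝ) + 3)) ≤ 5 / n := by
        refine le_trans ?_ (hinv2.trans h35)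
        exact le_mul_of_one_le_right hinv hlog1
      linarith

theorem pp_sum (N : ℕ) (hN : 1 ≤ N) :
    ∑ n ∈ Icc 1 N, (if n.Prime then 0 else ArithmeticFunction.vonMangoldt n) ≤
      2 * Real.sqrt N * Real.log N := by
  have h1 := Chebyshev.psi_sub_theta_le (x := (N : ℝ)) (by exact_mod_cast hN)
  rw [Chebyshev.psi_sub_theta_eq_sum_not_prime, Nat.floor_natCast] at h1
  refine le_trans (le_of_eq ?_) h1
  rw [Finset.sum_filter]
  refine Finset.sum_congr rfl fun n _ => ?_
  by_cases hp : n.Prime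
  · rw [if_pos hp, if_neg (not_not.2 hp)]
  · rw [if_neg hp, if_pos hp]

/-- **The primes minus their density.** -/
theorem neg_fp : Neg (fun n => pI n - pR n) := by
  intro A K
  obtain ⟨C, hC⟩ := Pool.Agent.Y748.VK.wneg lamw lw_all.1 lw_all.2.2 A K
  obtain ⟨D, hD⟩ : ∃ D : ℝ, ∀ N : ℕ, 2 ≤ N →
      (5 * (1 + Real.log N) + 2 * Real.sqrt N * Real.log N) * Real.log N ^ K ≤ D * N := by
    refine ⟨5 * ((K.factorial : ℝ) + (K + 1).factorial) +
      2 * ((K + 1).factorial / (1 / 2) ^ (K + 1)), fun N hN => ?_⟩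
    have hN1 : (1 : ℝ) ≤ N := by exact_mod_cast (by omega : 1 ≤ N)
    have hN0 : (0 : ℝ) < N := by linarith
    have h1 := log_pow_le_rpow K (δ := 1) one_pos hN1
    have h2 := log_pow_le_rpow (K + 1) (δ := 1) one_pos hN1
    have h3 := log_pow_le_rpow (K + 1) (δ := 1 / 2) (by norm_num) hN1
    rw [one_pow, div_one, Real.rpow_one] at h1 h2
    rw [← Real.sqrt_eq_rpow] at h3
    have h4 : Real.sqrt N * Real.sqrt N = N := Real.mul_self_sqrt hN0.le
    have h5 : Real.sqrt N * Real.log N ^ (K + 1) ≤ (K + 1).factorial / (1 / 2) ^ (K + 1) * N := by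
      have := mul_le_mul_of_nonneg_left h3 (Real.sqrt_nonneg (N : ℝ))
      calc _ ≤ _ := this
        _ = (K + 1).factorial / (1 / 2) ^ (K + 1) * (Real.sqrt N * Real.sqrt N) := by ring
        _ = _ := by rw [h4]
    have e : (5 * (1 + Real.log N) + 2 * Real.sqrt N * Real.log N) * Real.log N ^ K =
        5 * (Real.log N ^ K + Real.log N ^ (K + 1)) +
          2 * (Real.sqrt N * Real.log N ^ (K + 1)) := by ring
    rw [e]
    nlinarith
  refine ⟨C + D, fun N τ hN hτ => ?_⟩
  have h1 := hC N τ hN hτ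
  have hNr : (2 : ℝ) ≤ N := by exact_mod_cast hN
  have hlog : 0 < Real.log N := Real.log_pos (by linarith)
  have hlK : 0 < Real.log N ^ K := by positivity
  have h2 : ‖∑ n ∈ Icc 1 N, ((pI n - pR n) - lamw n / Lg n) * er τ (Real.log n)‖ ≤
      5 * (1 + Real.log N) + 2 * Real.sqrt N * Real.log N := by
    refine (norm_sum_le _ _).trans ?_
    have h3 : ∑ n ∈ Icc 1 N, ‖((pI n - pR n) - lamw n / Lg n) * er τ (Real.log n)‖ ≤
        ∑ n ∈ Icc 1 N, (5 / (n : ℝ) + if n.Prime then 0 else ArithmeticFunction.vonMangoldt n) := by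
      refine Finset.sum_le_sum fun n hn => ?_
      rw [norm_mul, er_norm, mul_one]
      exact fp_cmp n (Finset.mem_Icc.1 hn).1
    refine h3.trans ?_
    rw [Finset.sum_add_distrib]
    have h4 : ∑ n ∈ Icc 1 N, 5 / (n : ℝ) ≤ 5 * (1 + Real.log N) := by
      have h5 := Pool.Agent.Y950.AD.harm N
      calc ∑ n ∈ Icc 1 N, 5 / (n : ℝ) = 5 * ∑ n ∈ Icc 1 N, 1 / (n : ℝ) := by
            rw [Finset.mul_sum]
            exact Finset.sum_congr rfl fun n _ => by ring
        _ ≤ _ := mul_le_mul_of_nonneg_left h5 (by norm_num)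
    exact add_le_add h4 (pp_sum N (by omega))
  have e1 : ∑ n ∈ Icc 1 N, (pI n - pR n) * er τ (Real.log n) =
      ∑ n ∈ Icc 1 N, lamw n / Lg n * er τ (Real.log n) +
        ∑ n ∈ Icc 1 N, ((pI n - pR n) - lamw n / Lg n) * er τ (Real.log n) := by
    rw [← Finset.sum_add_distrib]
    exact Finset.sum_congr rfl fun n _ => by ring
  rw [e1]
  refine (norm_add_le _ _).trans ?_
  have h5 : 5 * (1 + Real.log N) + 2 * Real.sqrt N * Real.log N ≤ D * N / Real.log N ^ K := by
    rw [le_div_iff₀ hlK]
    exact hD N hN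
  calc _ ≤ C * N / Real.log N ^ K + D * N / Real.log N ^ K := add_le_add h1 (h2.trans h5)
    _ = _ := by ring

end Pool.Agent.U996.UW
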