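import Pool.Agent.U996.UW.Full

/-!
# Arbitrary index sets and points; one coordinate of a cube
-/

set_option autoImplicit false

namespace Pool.Agent.U996.UW

open Finset MeasureTheory Filter Topology
open scoped ENNReal
open Pool.Agent.Y957.AD (PolyVar)
open Pool.Agent.Y957.VK

/-- **Arbitrary finite families of points.** -/
theorem full_map (A : ℝ → ℂ) (hA1 : ∀ x, ‖A x‖ ≤ 1) (hAm : Measurable A) (hAv : PolyVar A) (hAw : WNeg A)
    (b c : ℝ) (hc : 0 < c) (K : ℕ) : ∃ C : ℝ, 0 ≤ C ∧ ∀ (ι : Type) (S : Finset ι) (v : ι → ℂ) (x : ι → ℕ)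
      (X B : ℕ), 2 ≤ X → (∀ j ∈ S, ‖v j‖ ≤ 1) → (∀ j ∈ S, 1 ≤ x j ∧ x j ≤ X) →
      (∀ m, (S.filter fun j => x j = m).card ≤ B) →
        ∫⁻ u in Set.Icc (0 : ℝ) 1, ‖∑ j ∈ S, v j * A (Real.exp (b + u) * (x j : ℝ) ^ c)‖ₑ ^ 2 ≤
          ENNReal.ofReal (C * B ^ 2 * (X ^ 2 / Real.log X ^ K)) := by
  obtain ⟨C, hC, h⟩ := full A hA1 hAm hAv hAw b c hc K
  refine ⟨C, hC, fun ι S v x X B hX hv hx hB => ?_⟩
  classical
  rcases S.eq_empty_or_nonempty with hS | ⟨j0, hj0⟩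
  · rw [hS]
    simp
  have hB1 : 1 ≤ B := by
    refine le_trans ?_ (hB (x j0))
    exact Finset.card_pos.2 ⟨j0, Finset.mem_filter.2 ⟨hj0, rfl⟩⟩
  have hB0 : (0 : ℝ) < B := by exact_mod_cast hB1
  have hBc : (B : ℂ) ≠ 0 := by exact_mod_cast hB0.ne'
  obtain ⟨W, hW⟩ : ∃ W : ℕ → ℂ, W = fun m => (∑ j ∈ S.filter fun j => x j = m, v j) / B := ⟨_, rfl⟩
  have hW1 : ∀ m, ‖W m‖ ≤ 1 := by
    intro m
    rw [hW]
    simp only
    rw [norm_div, Complex.norm_natCast, div_le_one hB0]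
    calc ‖∑ j ∈ S.filter fun j => x j = m, v j‖ ≤ ∑ j ∈ S.filter fun j => x j = m, ‖v j‖ :=
          norm_sum_le _ _
      _ ≤ ∑ _j ∈ S.filter fun j => x j = m, (1 : ℝ) :=
          Finset.sum_le_sum fun j hj => hv j (Finset.mem_filter.1 hj).1
      _ = ((S.filter fun j => x j = m).card : ℝ) := by simp
      _ ≤ B := by exact_mod_cast hB m
  have e1 : ∀ u : ℝ, ∑ j ∈ S, v j * A (Real.exp (b + u) * (x j : ℝ) ^ c) =
      (B : ℂ) * ∑ m ∈ Icc 1 X, W m * A (Real.exp (b + u) * (m : ℝ) ^ c) := by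
    intro u
    rw [← Finset.sum_fiberwise_of_maps_to (g := x) (t := Icc 1 X)
      (fun j hj => Finset.mem_Icc.2 (hx j hj)), Finset.mul_sum]
    refine Finset.sum_congr rfl fun m _ => ?_
    rw [hW]
    simp only
    rw [← mul_assoc, mul_div_cancel₀ _ hBc, Finset.sum_mul]
    refine Finset.sum_congr rfl fun j hj => ?_
    rw [(Finset.mem_filter.1 hj).2]
  have h2 := h X hX W hW1
  calc ∫⁻ u in Set.Icc (0 : ℝ) 1, ‖∑ j ∈ S, v j * A (Real.exp (b + u) * (x j : ℝ) ^ c)‖ₑ ^ 2 =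
        ∫⁻ u in Set.Icc (0 : ℝ) 1, ENNReal.ofReal ((B : ℝ) ^ 2) *
          ‖∑ m ∈ Icc 1 X, W m * A (Real.exp (b + u) * (m : ℝ) ^ c)‖ₑ ^ 2 := by
        refine lintegral_congr fun u => ?_
        rw [e1, enorm_mul, mul_pow]
        congr 1
        rw [enorm_sq, Complex.norm_natCast]
    _ = ENNReal.ofReal ((B : ℝ) ^ 2) * ∫⁻ u in Set.Icc (0 : ℝ) 1,
          ‖∑ m ∈ Icc 1 X, W m * A (Real.exp (b + u) * (m : ℝ) ^ c)‖ₑ ^ 2 :=
        lintegral_const_mul' _ _ ENNReal.ofReal_ne_top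
    _ ≤ ENNReal.ofReal ((B : ℝ) ^ 2) * ENNReal.ofReal (C * (X ^ 2 / Real.log X ^ K)) := by gcongr
    _ = _ := by
        rw [← ENNReal.ofReal_mul (by positivity)]
        congr 1
        ring

/-- one coordinate of a cube -/
theorem cube_update (k : ℕ) (i : Fin (k + 1)) (G : (Fin (k + 1) → ℝ) → ℝ≥0∞) (C : ℝ≥0∞)
    (hG : ∀ ω : Fin (k + 1) → ℝ, (∀ j, ω j ∈ Set.Icc (0 : ℝ) 1) →
      ∫⁻ u in Set.Icc (0 : ℝ) 1, G (Function.update ω i u) ≤ C) :
    ∫⁻ ω, G ω ∂(Measure.pi fun _ : Fin (k + 1) => (volume : Measure ℝ).restrict (Set.Icc (0 : ℝ) 1)) ≤ C := by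
  have mp1 := (measurePreserving_piFinSuccAbove
    (fun _ : Fin (k + 1) => (volume : Measure ℝ).restrict (Set.Icc (0 : ℝ) 1)) i).symm
  have mp2 : MeasurePreserving (Prod.swap : (Fin k → ℝ) × ℝ → ℝ × (Fin k → ℝ))
      ((Measure.pi fun _ : Fin k => (volume : Measure ℝ).restrict (Set.Icc (0 : ℝ) 1)).prod
        ((volume : Measure ℝ).restrict (Set.Icc (0 : ℝ) 1)))
      (((volume : Measure ℝ).restrict (Set.Icc (0 : ℝ) 1)).prod
        (Measure.pi fun _ : Fin k => (volume : Measure ℝ).restrict (Set.Icc (0 : ℝ) 1))) :=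
    Measure.measurePreserving_swap
  rw [← mp1.lintegral_comp_emb (MeasurableEquiv.measurableEmbedding _),
    ← mp2.lintegral_comp_emb MeasurableEquiv.prodComm.measurableEmbedding]
  refine (lintegral_prod_le _).trans ?_
  have : IsProbabilityMeasure ((volume : Measure ℝ).restrict (Set.Icc (0 : ℝ) 1)) := by
    refine ⟨?_⟩
    rw [Measure.restrict_apply MeasurableSet.univ, Set.univ_inter, Real.volume_Icc]
    norm_num
  have hcube : MeasurableSet (Set.pi Set.univ (fun _ : Fin k => Set.Icc (0 : ℝ) 1)) :=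
    MeasurableSet.univ_pi fun _ => measurableSet_Icc
  have hae : ∀ᵐ ω ∂(Measure.pi fun _ : Fin k => (volume : Measure ℝ).restrict (Set.Icc (0 : ℝ) 1)),
      ω ∈ Set.pi Set.univ (fun _ : Fin k => Set.Icc (0 : ℝ) 1) := by
    rw [← Measure.restrict_pi_pi]
    exact ae_restrict_mem hcube
  calc _ ≤ ∫⁻ _ω, C ∂(Measure.pi fun _ : Fin k => (volume : Measure ℝ).restrict (Set.Icc (0 : ℝ) 1)) := by
        refine lintegral_mono_ae ?_
        filter_upwards [hae] with ω hω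
        refine le_trans (le_of_eq ?_) (hG (i.insertNth 0 ω) ?_)
        · refine lintegral_congr fun u => ?_
          have e1 : (MeasurableEquiv.piFinSuccAbove (fun _ : Fin (k + 1) => ℝ) i).symm (u, ω) =
              Function.update (i.insertNth (α := fun _ => ℝ) 0 ω) i u := by
            funext j
            show (i.insertNth (α := fun _ => ℝ) u ω) j = _
            refine Fin.succAboveCases i ?_ (fun l => ?_) j
            · simp
            · simp
          exact congrArg G e1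
        · intro j
          refine Fin.succAboveCases i ?_ (fun l => ?_) j
          · simp
          · rw [Fin.insertNth_apply_succAbove]
            exact hω l (Set.mem_univ l)
    _ = C := by simp

end Pool.Agent.U996.UW
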