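import Pool.Agent.Y957.AD.Basic

/-!
# The large sieve inequality for arbitrary weights in its Schur test form
-/

set_option autoImplicit false

namespace Pool.Agent.U996.UW

open Finset MeasureTheory
open Pool.Agent.H376R2.MR (er)
open Pool.Agent.Y957.AD (er_norm er_add er_zero)

theorem er_cont (l : ℝ) : Continuous fun ξ : ℝ => er ξ l := by
  unfold er
  fun_prop

theorem er_sub_left (ξ x l : ℝ) : er (ξ - x) l = er ξ l * starRingEnd ℂ (er x l) := by
  unfold er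
  rw [← Complex.exp_conj, ← Complex.exp_add]
  congr 1
  rw [map_mul, Complex.conj_I, Complex.conj_ofReal]
  push_cast
  ring

theorem er_neg_left (ξ l : ℝ) : er (-ξ) l = starRingEnd ℂ (er ξ l) := by
  have h := er_sub_left 0 ξ l
  rwa [zero_sub, er_zero, one_mul] at h

/-- Schur test -/
theorem schur (s : Finset ℕ) (w : ℕ → ℂ) (l : ℕ → ℝ) (φ : ℝ → ℝ) (hφ : Continuous φ)
    (hφ0 : ∀ x, 0 ≤ φ x) (T M : ℝ) (hM0 : 0 ≤ M)
    (hM : ∀ ξ ∈ Set.Icc (-T) T,
      ∫ x in Set.Icc (-T) T, ‖∑ n ∈ s, er (ξ - x) (l n)‖ * φ x ≤ M) :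
    ∫ ξ in Set.Icc (-T) T, ‖∑ n ∈ s, w n * er ξ (l n)‖ ^ 2 * φ ξ ≤ M * ∑ n ∈ s, ‖w n‖ ^ 2 := by
  obtain ⟨J, hJ⟩ : ∃ J : Set ℝ, J = Set.Icc (-T) T := ⟨_, rfl⟩
  rw [← hJ] at hM ⊢
  have hJc : IsCompact J := by rw [hJ]; exact isCompact_Icc
  have hJm : MeasurableSet J := hJc.measurableSet
  obtain ⟨D, hD⟩ : ∃ D : ℝ → ℂ, D = fun ξ => ∑ n ∈ s, w n * er ξ (l n) := ⟨_, rfl⟩
  obtain ⟨Kf, hKf⟩ : ∃ Kf : ℝ → ℂ, Kf = fun ξ => ∑ n ∈ s, er ξ (l n) := ⟨_, rfl⟩
  have hDc : Continuous D := by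
    rw [hD]
    exact continuous_finsetSum _ fun n _ => continuous_const.mul (er_cont _)
  have hKc : Continuous Kf := by
    rw [hKf]
    exact continuous_finsetSum _ fun n _ => er_cont _
  have hφC : Continuous fun ξ => ((φ ξ : ℝ) : ℂ) := Complex.continuous_ofReal.comp hφ
  have hint : ∀ f : ℝ → ℂ, Continuous f → IntegrableOn f J := fun f hf =>
    hf.continuousOn.integrableOn_compact hJc
  have hintr : ∀ f : ℝ → ℝ, Continuous f → IntegrableOn f J := fun f hf =>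
    hf.continuousOn.integrableOn_compact hJc
  obtain ⟨I, hI⟩ : ∃ I : ℝ, I = ∫ ξ in J, ‖D ξ‖ ^ 2 * φ ξ := ⟨_, rfl⟩
  have hI0 : 0 ≤ I := by
    rw [hI]
    exact setIntegral_nonneg hJm fun ξ _ => mul_nonneg (sq_nonneg _) (hφ0 ξ)
  obtain ⟨a, ha⟩ : ∃ a : ℕ → ℂ, a = fun n =>
      ∫ ξ in J, er ξ (l n) * (starRingEnd ℂ (D ξ) * (φ ξ : ℂ)) := ⟨_, rfl⟩
  have hg : Continuous fun ξ => starRingEnd ℂ (D ξ) * (φ ξ : ℂ) :=
    (Complex.continuous_conj.comp hDc).mul hφC
  -- (1)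
  have e1 : (I : ℂ) = ∑ n ∈ s, w n * a n := by
    rw [hI, ← integral_complex_ofReal]
    simp only [ha]
    have h1 : ∀ n ∈ s, w n * ∫ ξ in J, er ξ (l n) * (starRingEnd ℂ (D ξ) * (φ ξ : ℂ)) =
        ∫ ξ in J, w n * (er ξ (l n) * (starRingEnd ℂ (D ξ) * (φ ξ : ℂ))) := fun n _ => by
      rw [integral_const_mul]
    rw [Finset.sum_congr rfl h1, ← integral_finsetSum]
    · refine setIntegral_congr_fun hJm fun ξ _ => ?_
      show ((‖D ξ‖ ^ 2 * φ ξ : ℝ) : ℂ) =
        ∑ n ∈ s, w n * (er ξ (l n) * (starRingEnd ℂ (D ξ) * (φ ξ : ℂ)))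
      have e2 : ∑ n ∈ s, w n * (er ξ (l n) * (starRingEnd ℂ (D ξ) * (φ ξ : ℂ))) =
          D ξ * (starRingEnd ℂ (D ξ) * (φ ξ : ℂ)) := by
        rw [show D ξ = ∑ n ∈ s, w n * er ξ (l n) from by rw [hD], Finset.sum_mul]
        refine Finset.sum_congr rfl fun n _ => by ring
      rw [e2, ← mul_assoc, Complex.mul_conj, Complex.normSq_eq_norm_sq]
      push_cast
      ring
    · intro n _
      exact hint _ (continuous_const.mul ((er_cont _).mul hg))
  -- (2)
  have h2 : I ^ 2 ≤ (∑ n ∈ s, ‖w n‖ ^ 2) * ∑ n ∈ s, ‖a n‖ ^ 2 := by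
    have h3 : I ≤ ∑ n ∈ s, ‖w n‖ * ‖a n‖ := by
      have h4 : ‖(I : ℂ)‖ ≤ ∑ n ∈ s, ‖w n‖ * ‖a n‖ := by
        rw [e1]
        refine (norm_sum_le _ _).trans (le_of_eq ?_)
        exact Finset.sum_congr rfl fun n _ => norm_mul _ _
      rwa [Complex.norm_real, Real.norm_of_nonneg hI0] at h4
    calc I ^ 2 ≤ (∑ n ∈ s, ‖w n‖ * ‖a n‖) ^ 2 := pow_le_pow_left₀ hI0 h3 2
      _ ≤ _ := Finset.sum_mul_sq_le_sq_mul_sq _ _ _
  -- (3)
  obtain ⟨H, hH⟩ : ∃ H : ℝ → ℂ, H = fun x =>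
      ∫ ξ in J, Kf (ξ - x) * (starRingEnd ℂ (D ξ) * (φ ξ : ℂ)) := ⟨_, rfl⟩
  have e3 : ((∑ n ∈ s, ‖a n‖ ^ 2 : ℝ) : ℂ) = ∫ x in J, D x * (φ x : ℂ) * H x := by
    have h3 : ∀ x, H x = ∑ n ∈ s, starRingEnd ℂ (er x (l n)) * a n := by
      intro x
      rw [hH]
      simp only [ha]
      have h4 : ∀ n ∈ s, starRingEnd ℂ (er x (l n)) *
          ∫ ξ in J, er ξ (l n) * (starRingEnd ℂ (D ξ) * (φ ξ : ℂ)) =
          ∫ ξ in J, starRingEnd ℂ (er x (l n)) * (er ξ (l n) * (starRingEnd ℂ (D ξ) * (φ ξ : ℂ))) :=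
        fun n _ => by rw [integral_const_mul]
      rw [Finset.sum_congr rfl h4, ← integral_finsetSum]
      · refine setIntegral_congr_fun hJm fun ξ _ => ?_
        show Kf (ξ - x) * (starRingEnd ℂ (D ξ) * (φ ξ : ℂ)) =
          ∑ n ∈ s, starRingEnd ℂ (er x (l n)) * (er ξ (l n) * (starRingEnd ℂ (D ξ) * (φ ξ : ℂ)))
        rw [show Kf (ξ - x) = ∑ n ∈ s, er (ξ - x) (l n) from by rw [hKf], Finset.sum_mul]
        refine Finset.sum_congr rfl fun n _ => ?_
        rw [er_sub_left]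
        ring
      · intro n _
        exact hint _ (continuous_const.mul ((er_cont _).mul hg))
    have h5 : ∀ x, D x * (φ x : ℂ) * H x =
        ∑ n ∈ s, a n * (starRingEnd ℂ (er x (l n)) * (D x * (φ x : ℂ))) := by
      intro x
      rw [h3, Finset.mul_sum]
      refine Finset.sum_congr rfl fun n _ => by ring
    rw [setIntegral_congr_fun hJm fun x _ => h5 x, integral_finsetSum]
    · push_cast
      refine Finset.sum_congr rfl fun n _ => ?_
      rw [integral_const_mul]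
      have e4 : ∫ x in J, starRingEnd ℂ (er x (l n)) * (D x * (φ x : ℂ)) = starRingEnd ℂ (a n) := by
        rw [ha, ← integral_conj]
        refine setIntegral_congr_fun hJm fun x _ => ?_
        show starRingEnd ℂ (er x (l n)) * (D x * (φ x : ℂ)) =
          starRingEnd ℂ (er x (l n) * (starRingEnd ℂ (D x) * (φ x : ℂ)))
        rw [map_mul, map_mul, Complex.conj_conj, Complex.conj_ofReal]
      rw [e4, Complex.mul_conj, Complex.normSq_eq_norm_sq]
      push_cast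
      rfl
    · intro n _
      exact hint _ (continuous_const.mul
        ((Complex.continuous_conj.comp (er_cont _)).mul (hDc.mul hφC)))
  -- (4)
  obtain ⟨R, hR⟩ : ∃ R : ℝ → ℝ → ℝ, R = fun x ξ =>
      ‖Kf (ξ - x)‖ * (‖D ξ‖ * φ ξ) * (‖D x‖ * φ x) := ⟨_, rfl⟩
  obtain ⟨R1, hR1⟩ : ∃ R1 : ℝ → ℝ → ℝ, R1 = fun x ξ =>
      ‖Kf (ξ - x)‖ * φ ξ * (‖D x‖ ^ 2 * φ x) := ⟨_, rfl⟩
  have hKc2 : Continuous fun p : ℝ × ℝ => ‖Kf (p.2 - p.1)‖ :=
    (hKc.comp (continuous_snd.sub continuous_fst)).norm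
  have hR1c : Continuous (Function.uncurry R1) := by
    rw [hR1]
    exact (hKc2.mul (hφ.comp continuous_snd)).mul
      (((hDc.comp continuous_fst).norm.pow 2).mul (hφ.comp continuous_fst))
  have hRc : Continuous (Function.uncurry R) := by
    rw [hR]
    exact (hKc2.mul ((hDc.comp continuous_snd).norm.mul (hφ.comp continuous_snd))).mul
      ((hDc.comp continuous_fst).norm.mul (hφ.comp continuous_fst))
  have hpint : ∀ f : ℝ × ℝ → ℝ, Continuous f →
      Integrable f ((volume.restrict J).prod (volume.restrict J)) := by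
    intro f hf
    rw [Measure.prod_restrict]
    exact hf.continuousOn.integrableOn_compact (hJc.prod hJc)
  have hxint : ∀ f : ℝ × ℝ → ℝ, Continuous f → IntegrableOn (fun x => ∫ ξ in J, f (x, ξ)) J :=
    fun f hf => (hpint f hf).integral_prod_left
  have h6 : ∑ n ∈ s, ‖a n‖ ^ 2 ≤ ∫ x in J, ∫ ξ in J, R x ξ := by
    have h7 : ‖((∑ n ∈ s, ‖a n‖ ^ 2 : ℝ) : ℂ)‖ ≤ ∫ x in J, ∫ ξ in J, R x ξ := by
      rw [e3]
      refine (norm_integral_le_integral_norm _).trans ?_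
      refine setIntegral_mono_on ?_ (hxint _ hRc) hJm fun x _ => ?_
      · have hHc : Continuous H := by
          have : H = fun x => ∑ n ∈ s, starRingEnd ℂ (er x (l n)) * a n := by
            funext x
            rw [hH]
            simp only [ha]
            have h4 : ∀ n ∈ s, starRingEnd ℂ (er x (l n)) *
                ∫ ξ in J, er ξ (l n) * (starRingEnd ℂ (D ξ) * (φ ξ : ℂ)) =
                ∫ ξ in J, starRingEnd ℂ (er x (l n)) *
                  (er ξ (l n) * (starRingEnd ℂ (D ξ) * (φ ξ : ℂ))) :=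
              fun n _ => by rw [integral_const_mul]
            rw [Finset.sum_congr rfl h4, ← integral_finsetSum]
            · refine setIntegral_congr_fun hJm fun ξ _ => ?_
              show Kf (ξ - x) * (starRingEnd ℂ (D ξ) * (φ ξ : ℂ)) =
                ∑ n ∈ s, starRingEnd ℂ (er x (l n)) *
                  (er ξ (l n) * (starRingEnd ℂ (D ξ) * (φ ξ : ℂ)))
              rw [show Kf (ξ - x) = ∑ n ∈ s, er (ξ - x) (l n) from by rw [hKf], Finset.sum_mul]
              refine Finset.sum_congr rfl fun n _ => ?_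
              rw [er_sub_left]
              ring
            · intro n _
              exact hint _ (continuous_const.mul ((er_cont _).mul hg))
          rw [this]
          exact continuous_finsetSum _ fun n _ =>
            (Complex.continuous_conj.comp (er_cont _)).mul continuous_const
        exact hintr _ ((hDc.mul hφC).mul hHc).norm
      · rw [norm_mul, norm_mul, Complex.norm_real, Real.norm_of_nonneg (hφ0 x)]
        have h8 : ‖H x‖ ≤ ∫ ξ in J, ‖Kf (ξ - x)‖ * (‖D ξ‖ * φ ξ) := by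
          rw [hH]
          refine (norm_integral_le_integral_norm _).trans (le_of_eq ?_)
          refine setIntegral_congr_fun hJm fun ξ _ => ?_
          show ‖Kf (ξ - x) * (starRingEnd ℂ (D ξ) * (φ ξ : ℂ))‖ = _
          rw [norm_mul, norm_mul, Complex.norm_conj, Complex.norm_real, Real.norm_of_nonneg (hφ0 ξ)]
        have h9 : ∫ ξ in J, R x ξ = (∫ ξ in J, ‖Kf (ξ - x)‖ * (‖D ξ‖ * φ ξ)) * (‖D x‖ * φ x) := by
          rw [← integral_mul_const]
          exact setIntegral_congr_fun hJm fun ξ _ => by rw [hR]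
        rw [h9, mul_comm]
        exact mul_le_mul_of_nonneg_right h8 (mul_nonneg (norm_nonneg _) (hφ0 x))
    refine le_trans ?_ h7
    rw [Complex.norm_real]
    exact le_abs_self _
  have h10 : ∫ x in J, ∫ ξ in J, R x ξ ≤
      ∫ x in J, ∫ ξ in J, (R1 x ξ + R1 ξ x) / 2 := by
    refine setIntegral_mono_on (hxint _ hRc) (hxint (fun p => (R1 p.1 p.2 + R1 p.2 p.1) / 2) ?_) hJm
      fun x _ => ?_
    · exact (hR1c.add (hR1c.comp continuous_swap)).div_const 2
    · refine setIntegral_mono_on (hintr _ (hRc.comp (Continuous.prodMk_right x)))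
        (hintr _ (((hR1c.comp (Continuous.prodMk_right x)).add
          (hR1c.comp (Continuous.prodMk_left x))).div_const 2)) hJm fun ξ _ => ?_
      have e5 : ‖Kf (x - ξ)‖ = ‖Kf (ξ - x)‖ := by
        have : Kf (x - ξ) = starRingEnd ℂ (Kf (ξ - x)) := by
          rw [hKf]
          simp only [map_sum]
          refine Finset.sum_congr rfl fun n _ => ?_
          rw [← er_neg_left, neg_sub]
        rw [this, Complex.norm_conj]
      rw [hR, hR1]
      simp only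
      rw [e5]
      have h11 : 0 ≤ ‖Kf (ξ - x)‖ * φ ξ * φ x :=
        mul_nonneg (mul_nonneg (norm_nonneg _) (hφ0 ξ)) (hφ0 x)
      nlinarith [mul_nonneg h11 (sq_nonneg (‖D ξ‖ - ‖D x‖))]
  have h12 : ∫ x in J, ∫ ξ in J, (R1 x ξ + R1 ξ x) / 2 = ∫ x in J, ∫ ξ in J, R1 x ξ := by
    have e6 : ∀ x ∈ J, ∫ ξ in J, (R1 x ξ + R1 ξ x) / 2 =
        (∫ ξ in J, R1 x ξ) / 2 + (∫ ξ in J, R1 ξ x) / 2 := by
      intro x _
      have i1 : Integrable (fun ξ => R1 x ξ) (volume.restrict J) :=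
        hintr _ (hR1c.comp (Continuous.prodMk_right x))
      have i2 : Integrable (fun ξ => R1 ξ x) (volume.restrict J) :=
        hintr _ (hR1c.comp (Continuous.prodMk_left x))
      rw [integral_div, integral_add i1 i2]
      ring
    have i3 : Integrable (fun x => (∫ ξ in J, R1 x ξ) / 2) (volume.restrict J) :=
      (hxint _ hR1c).div_const 2
    have i4 : Integrable (fun x => (∫ ξ in J, R1 ξ x) / 2) (volume.restrict J) :=
      (hxint (fun p => R1 p.2 p.1) (hR1c.comp continuous_swap)).div_const 2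
    rw [setIntegral_congr_fun hJm e6, integral_add i3 i4, integral_div, integral_div]
    have e7 : ∫ x in J, ∫ ξ in J, R1 ξ x = ∫ x in J, ∫ ξ in J, R1 x ξ :=
      (integral_integral_swap (f := fun x ξ => R1 x ξ) (hpint _ hR1c)).symm
    rw [e7]
    ring
  have h13 : ∫ x in J, ∫ ξ in J, R1 x ξ ≤ M * I := by
    have h14 : ∫ x in J, ∫ ξ in J, R1 x ξ ≤ ∫ x in J, M * (‖D x‖ ^ 2 * φ x) := by
      refine setIntegral_mono_on (hxint _ hR1c)
        (hintr _ (continuous_const.mul ((hDc.norm.pow 2).mul hφ))) hJm fun x hx => ?_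
      have h15 : ∫ ξ in J, R1 x ξ = (∫ ξ in J, ‖Kf (ξ - x)‖ * φ ξ) * (‖D x‖ ^ 2 * φ x) := by
        rw [← integral_mul_const]
        exact setIntegral_congr_fun hJm fun ξ _ => by rw [hR1]
      rw [h15]
      refine mul_le_mul_of_nonneg_right ?_ (mul_nonneg (sq_nonneg _) (hφ0 x))
      refine le_trans (le_of_eq ?_) (hM x hx)
      refine setIntegral_congr_fun hJm fun ξ _ => ?_
      show ‖Kf (ξ - x)‖ * φ ξ = ‖∑ n ∈ s, er (x - ξ) (l n)‖ * φ ξ
      have : ∑ n ∈ s, er (x - ξ) (l n) = starRingEnd ℂ (Kf (ξ - x)) := by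
        rw [hKf]
        simp only [map_sum]
        refine Finset.sum_congr rfl fun n _ => ?_
        rw [← er_neg_left, neg_sub]
      rw [this, Complex.norm_conj]
    rwa [integral_const_mul, ← hI] at h14
  have h16 : ∑ n ∈ s, ‖a n‖ ^ 2 ≤ M * I := h6.trans (h10.trans (h12.le.trans h13))
  have hW : 0 ≤ ∑ n ∈ s, ‖w n‖ ^ 2 := Finset.sum_nonneg fun _ _ => sq_nonneg _
  have h17 : I ^ 2 ≤ (M * ∑ n ∈ s, ‖w n‖ ^ 2) * I := by
    calc I ^ 2 ≤ _ := h2
      _ ≤ (∑ n ∈ s, ‖w n‖ ^ 2) * (M * I) := mul_le_mul_of_nonneg_left h16 hW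
      _ = _ := by ring
  have hfin : I ≤ M * ∑ n ∈ s, ‖w n‖ ^ 2 := by
    rcases hI0.eq_or_lt with h0 | h0
    · rw [← h0]
      exact mul_nonneg hM0 hW
    · nlinarith
  have e8 : ∫ ξ in J, ‖∑ n ∈ s, w n * er ξ (l n)‖ ^ 2 * φ ξ = I := by rw [hI, hD]
  rw [e8]
  exact hfin

end Pool.Agent.U996.UW
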