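import Pool.Agent.U996.UW.Primes

/-!
# Telescoping: a product of sequences along dilated powers and the product of their densities
-/

set_option autoImplicit false

namespace Pool.Agent.U996.UW

open Finset MeasureTheory Filter Topology
open scoped ENNReal
open Pool.Agent.Y957.VK

theorem prod_tele : ∀ (k : ℕ) (X Y : Fin k → ℂ), ∏ j, X j - ∏ j, Y j =
    ∑ i, ∏ j, (if j < i then X j else if j = i then X j - Y j else Y j) := by
  intro k
  induction k with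
  | zero => intro X Y; simp
  | succ k ih =>
    intro X Y
    rw [Fin.sum_univ_succ]
    have e1 : ∏ j, (if j < (0 : Fin (k + 1)) then X j else if j = 0 then X j - Y j else Y j) =
        (X 0 - Y 0) * ∏ j : Fin k, Y j.succ := by
      rw [Fin.prod_univ_succ]
      simp [Fin.succ_ne_zero]
    have e2 : ∀ i : Fin k, ∏ j, (if j < i.succ then X j else if j = i.succ then X j - Y j else Y j) =
        X 0 * ∏ j : Fin k, (if j < i then X j.succ else if j = i then X j.succ - Y j.succ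
          else Y j.succ) := by
      intro i
      rw [Fin.prod_univ_succ]
      simp
    rw [e1, Finset.sum_congr rfl fun i _ => e2 i, ← Finset.mul_sum,
      ← ih (fun j => X j.succ) (fun j => Y j.succ), Fin.prod_univ_succ, Fin.prod_univ_succ]
    ring

/-- **Products of sequences along dilated powers, arbitrary weights.** -/
theorem ae_tele (w : ℕ → ℂ) (hw : ∀ n, ‖w n‖ ≤ 1) (k : ℕ) (f g : ℕ → ℂ) (hf : ∀ n, ‖f n‖ ≤ 1)
    (hg : ∀ n, ‖g n‖ ≤ 1) (hfg : ∀ n, ‖f n - g n‖ ≤ 1) (hn : Neg (fun n => f n - g n))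
    (h : Fin (k + 1) → ℤ) (c : Fin (k + 1) → ℝ) (hc : ∀ i, 0 < c i) :
    ∀ᵐ α ∂((volume : Measure (Fin (k + 1) → ℝ)).restrict {α | ∀ i, 0 < α i}), ∀ K : ℕ,
      Tendsto (fun N : ℕ => (Real.log N) ^ K / N *
        ‖∑ n ∈ Finset.Icc 1 N, w n * (∏ j, sh f (h j) (α j * (n : ℝ) ^ (c j)) -
          ∏ j, sh g (h j) (α j * (n : ℝ) ^ (c j)))‖) atTop (𝓝 0) := by
  obtain ⟨A, hA⟩ : ∃ A : Fin (k + 1) → Fin (k + 1) → ℝ → ℂ, A = fun i j =>
      if j < i then sh f (h j) else if j = i then sh (fun n => f n - g n) (h j) else sh g (h j) :=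
    ⟨_, rfl⟩
  have hA1 : ∀ i j x, ‖A i j x‖ ≤ 1 := by
    intro i j x
    rw [hA]
    simp only
    split_ifs
    · exact sh_le hf _ _
    · exact sh_le hfg _ _
    · exact sh_le hg _ _
  have hAm : ∀ i j, Measurable (A i j) := by
    intro i j
    rw [hA]
    simp only
    split_ifs <;> exact sh_meas _ _
  have hAii : ∀ i, A i i = sh (fun n => f n - g n) (h i) := by
    intro i
    rw [hA]
    simp
  have hall : ∀ i : Fin (k + 1),
      ∀ᵐ α ∂((volume : Measure (Fin (k + 1) → ℝ)).restrict {α | ∀ i, 0 < α i}), ∀ K : ℕ,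
      Tendsto (fun N : ℕ => (Real.log N) ^ K / N *
        ‖∑ n ∈ Finset.Icc 1 N, w n * ∏ j, A i j (α j * (n : ℝ) ^ (c j))‖) atTop (𝓝 0) := by
    intro i
    refine ae_univ w hw k (A i) (hA1 i) (hAm i) i ?_ ?_ c (hc i)
    · rw [hAii]
      exact sh_var hfg _
    · rw [hAii]
      exact sh_neg hfg hn _
  rw [← ae_all_iff] at hall
  filter_upwards [hall] with α hα K
  have h1 : Tendsto (fun N : ℕ => ∑ i : Fin (k + 1), (Real.log N) ^ K / N *
        ‖∑ n ∈ Finset.Icc 1 N, w n * ∏ j, A i j (α j * (n : ℝ) ^ (c j))‖) atTop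
        (𝓝 (∑ _i : Fin (k + 1), 0)) := tendsto_finset_sum _ fun i _ => hα i K
  rw [Finset.sum_const_zero] at h1
  refine squeeze_zero (fun N => by
    have := Real.log_natCast_nonneg N
    positivity) (fun N => ?_) h1
  have hl := Real.log_natCast_nonneg N
  rw [← Finset.mul_sum]
  apply mul_le_mul_of_nonneg_left _ (by positivity)
  have e1 : ∑ n ∈ Finset.Icc 1 N, w n * (∏ j, sh f (h j) (α j * (n : ℝ) ^ (c j)) -
      ∏ j, sh g (h j) (α j * (n : ℝ) ^ (c j))) =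
      ∑ i : Fin (k + 1), ∑ n ∈ Finset.Icc 1 N, w n * ∏ j, A i j (α j * (n : ℝ) ^ (c j)) := by
    rw [Finset.sum_comm]
    refine Finset.sum_congr rfl fun n _ => ?_
    rw [prod_tele, Finset.mul_sum]
    refine Finset.sum_congr rfl fun i _ => ?_
    congr 1
    refine Finset.prod_congr rfl fun j _ => ?_
    rw [hA]
    simp only
    split_ifs <;> rfl
  rw [e1]
  exact norm_sum_le _ _

/-- `1` if `z` is a prime, else `0` -/
noncomputable def pz (z : ℤ) : ℝ := if z.toNat.Prime then 1 else 0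

/-- `1 / log z` if `z ≥ 3`, else `0` -/
noncomputable def rz (z : ℤ) : ℝ := if 3 ≤ z then 1 / Real.log z else 0

theorem sh_pI (h : ℤ) (t : ℝ) (ht : 0 ≤ t) : sh pI h t = ((pz (⌊t⌋ + h) : ℝ) : ℂ) := by
  unfold sh pI pz
  rw [show ((⌊t⌋₊ : ℕ) : ℤ) = ⌊t⌋ from Int.natCast_floor_eq_floor ht]
  split_ifs <;> simp

theorem sh_pR (h : ℤ) (t : ℝ) (ht : 0 ≤ t) : sh pR h t = ((rz (⌊t⌋ + h) : ℝ) : ℂ) := by
  unfold sh pR rz
  rw [show ((⌊t⌋₊ : ℕ) : ℤ) = ⌊t⌋ from Int.natCast_floor_eq_floor ht]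
  by_cases h3 : 3 ≤ ⌊t⌋ + h
  · have h4 : ¬ (⌊t⌋ + h).toNat ≤ 2 := by omega
    rw [if_neg h4, if_pos h3]
    have h5 : (((⌊t⌋ + h).toNat : ℕ) : ℤ) = ⌊t⌋ + h := Int.toNat_of_nonneg (by omega)
    have h6 : (((⌊t⌋ + h).toNat : ℕ) : ℝ) = ((⌊t⌋ + h : ℤ) : ℝ) := by exact_mod_cast h5
    rw [h6]
  · have h4 : (⌊t⌋ + h).toNat ≤ 2 := by omega
    rw [if_pos h4, if_neg h3]
    simp

/-- **Primes along dilated powers, arbitrary real weights.** -/
theorem ae_primes (w : ℕ → ℝ) (hw : ∀ n, |w n| ≤ 1) (k : ℕ) (c : Fin (k + 1) → ℝ)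
    (hc : ∀ i, 0 < c i) :
    ∀ᵐ α ∂((volume : Measure (Fin (k + 1) → ℝ)).restrict {α | ∀ i, 0 < α i}),
      ∀ (h : Fin (k + 1) → ℤ) (K : ℕ),
      Tendsto (fun N : ℕ => (Real.log N) ^ K / N *
        |∑ n ∈ Finset.Icc 1 N, w n * (∏ j, pz (⌊α j * (n : ℝ) ^ (c j)⌋ + h j) -
          ∏ j, rz (⌊α j * (n : ℝ) ^ (c j)⌋ + h j))|) atTop (𝓝 0) := by
  rw [ae_all_iff]
  intro h
  have h1 := ae_tele (fun n => ((w n : ℝ) : ℂ)) (fun n => by
    rw [Complex.norm_real]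
    exact hw n) k pI pR pI_le pR_le fp_le neg_fp h c hc
  have hmeas : MeasurableSet {α : Fin (k + 1) → ℝ | ∀ i, 0 < α i} := by
    have e : {α : Fin (k + 1) → ℝ | ∀ i, 0 < α i} = Set.pi Set.univ (fun _ => Set.Ioi (0 : ℝ)) := by
      ext α
      simp
    rw [e]
    exact MeasurableSet.univ_pi fun _ => measurableSet_Ioi
  filter_upwards [h1, ae_restrict_mem hmeas] with α hα hpos K
  refine (hα K).congr fun N => ?_
  congr 1
  have e1 : ∑ n ∈ Finset.Icc 1 N, ((w n : ℝ) : ℂ) * (∏ j, sh pI (h j) (α j * (n : ℝ) ^ (c j)) -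
      ∏ j, sh pR (h j) (α j * (n : ℝ) ^ (c j))) =
      ((∑ n ∈ Finset.Icc 1 N, w n * (∏ j, pz (⌊α j * (n : ℝ) ^ (c j)⌋ + h j) -
          ∏ j, rz (⌊α j * (n : ℝ) ^ (c j)⌋ + h j)) : ℝ) : ℂ) := by
    push_cast
    refine Finset.sum_congr rfl fun n _ => ?_
    have h2 : ∀ j, 0 ≤ α j * (n : ℝ) ^ (c j) := fun j =>
      mul_nonneg (hpos j).le (Real.rpow_nonneg (Nat.cast_nonneg n) _)
    rw [Finset.prod_congr rfl fun j _ => sh_pI (h j) _ (h2 j),
      Finset.prod_congr rfl fun j _ => sh_pR (h j) _ (h2 j)]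
  rw [e1, Complex.norm_real, Real.norm_eq_abs]

end Pool.Agent.U996.UW
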