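import Pool.Agent.U996.UW.Zeta

/-!
# Oscillating integrals of a shifted step function over a window on the logarithmic scale
-/

set_option autoImplicit false

namespace Pool.Agent.U996.UW

open Finset MeasureTheory
open Pool.Agent.H376R2.MR (er)
open Pool.Agent.Y957.AD (er_norm er_add er_zero)
open Pool.Agent.Y957.VK

/-- the oscillating integrals over windows on the logarithmic scale are small -/
def WNeg (A : ℝ → ℂ) : Prop := ∀ (P K : ℕ) (L : ℝ), 0 ≤ L → ∃ C : ℝ, 0 ≤ C ∧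
  ∀ x η : ℝ, 1 ≤ x → |η| ≤ Real.exp (P * x) →
    ‖∫ y in (0 : ℝ)..L, A (Real.exp (x + y)) * er η y‖ ≤ C / x ^ K

theorem abel_id (c G : ℕ → ℂ) (m0 : ℕ) : ∀ j : ℕ, m0 ≤ j → ∑ m ∈ Ico m0 j, c m * G m =
    (∑ m ∈ Ico m0 j, c m) * G j -
      ∑ m ∈ Ico m0 j, (∑ i ∈ Ico m0 (m + 1), c i) * (G (m + 1) - G m) := by
  intro j hj
  induction j, hj using Nat.le_induction with
  | base => simp
  | succ j hj ih =>
    rw [Finset.sum_Ico_succ_top hj, ih, Finset.sum_Ico_succ_top hj (fun m =>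
      (∑ i ∈ Ico m0 (m + 1), c i) * (G (m + 1) - G m)), Finset.sum_Ico_succ_top hj c]
    ring

theorem abel_bd (c G : ℕ → ℂ) (m0 m1 : ℕ) (h01 : m0 ≤ m1) (Bd g1 g2 : ℝ) (hBd : 0 ≤ Bd)
    (hB : ∀ j, m0 ≤ j → j ≤ m1 → ‖∑ m ∈ Ico m0 j, c m‖ ≤ Bd) (hG : ‖G m1‖ ≤ g1)
    (hV : ∀ m ∈ Ico m0 m1, ‖G (m + 1) - G m‖ ≤ g2) :
    ‖∑ m ∈ Ico m0 m1, c m * G m‖ ≤ Bd * (g1 + (m1 - m0 : ℝ) * g2) := by
  rw [abel_id c G m0 m1 h01]
  refine (norm_sub_le _ _).trans ?_
  have h1 : ‖(∑ m ∈ Ico m0 m1, c m) * G m1‖ ≤ Bd * g1 := by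
    rw [norm_mul]
    exact mul_le_mul (hB m1 h01 le_rfl) hG (norm_nonneg _) hBd
  have h2 : ‖∑ m ∈ Ico m0 m1, (∑ i ∈ Ico m0 (m + 1), c i) * (G (m + 1) - G m)‖ ≤
      (m1 - m0 : ℝ) * (Bd * g2) := by
    refine (norm_sum_le _ _).trans ?_
    have h3 : ∑ m ∈ Ico m0 m1, ‖(∑ i ∈ Ico m0 (m + 1), c i) * (G (m + 1) - G m)‖ ≤
        ∑ _m ∈ Ico m0 m1, Bd * g2 := by
      refine Finset.sum_le_sum fun m hm => ?_
      have hm' := Finset.mem_Ico.1 hm
      rw [norm_mul]
      exact mul_le_mul (hB (m + 1) (by omega) (by omega)) (hV m hm) (norm_nonneg _) hBd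
    refine h3.trans (le_of_eq ?_)
    rw [Finset.sum_const, Nat.card_Ico, nsmul_eq_mul, Nat.cast_sub h01]
  calc _ ≤ Bd * g1 + (m1 - m0 : ℝ) * (Bd * g2) := add_le_add h1 h2
    _ = _ := by ring

/-- the length of the `m`-th cell -/
noncomputable def dl (m : ℕ) : ℝ := Real.log (m + 1) - Real.log m

/-- the oscillating integral over the `m`-th cell -/
noncomputable def ps (η : ℝ) (m : ℕ) : ℂ := ∫ y in (0 : ℝ)..(dl m), er η y

theorem dl_le {m : ℕ} (hm : 1 ≤ m) : dl m ≤ 1 / m := by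
  have hm0 : (0 : ℝ) < m := by exact_mod_cast hm
  unfold dl
  rw [← Real.log_div (by positivity) hm0.ne']
  have h := Real.log_le_sub_one_of_pos (show (0 : ℝ) < (m + 1) / m by positivity)
  have e : ((m : ℝ) + 1) / m - 1 = 1 / m := by field_simp; ring
  linarith

theorem dl_nonneg {m : ℕ} (hm : 1 ≤ m) : 0 ≤ dl m := by
  have hm0 : (0 : ℝ) < m := by exact_mod_cast hm
  unfold dl
  have := Real.log_le_log hm0 (show (m : ℝ) ≤ m + 1 by linarith)
  linarith

theorem er_int (η : ℝ) (a b : ℝ) : IntervalIntegrable (fun y => er η y) volume a b := by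
  apply Continuous.intervalIntegrable
  unfold er
  fun_prop

theorem ps_le (η : ℝ) {m : ℕ} (hm : 1 ≤ m) : ‖ps η m‖ ≤ 1 / m := by
  unfold ps
  have h := intervalIntegral.norm_integral_le_of_norm_le_const (a := 0) (b := dl m) (C := 1)
    (f := fun y => er η y) (fun y _ => (er_norm η y).le)
  rw [sub_zero, one_mul, abs_of_nonneg (dl_nonneg hm)] at h
  exact h.trans (dl_le hm)

theorem ps_le2 (η : ℝ) (hη : η ≠ 0) (m : ℕ) : ‖ps η m‖ ≤ 2 / |η| := by
  unfold ps
  have h1 : ∀ y ∈ Set.uIcc (0 : ℝ) (dl m), HasDerivAt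
      (fun z : ℝ => er η z / ((η : ℂ) * Complex.I)) (er η y) y := by
    intro y _
    have h2 : HasDerivAt (fun z : ℝ => ((η * z : ℝ) : ℂ) * Complex.I) (((η * 1 : ℝ) : ℂ) * Complex.I) y :=
      (((hasDerivAt_id y).const_mul η).ofReal_comp).mul_const _
    have h3 := h2.cexp.div_const ((η : ℂ) * Complex.I)
    have h4 : (η : ℂ) * Complex.I ≠ 0 := mul_ne_zero (by exact_mod_cast hη) Complex.I_ne_zero
    have e : Complex.exp (((η * y : ℝ) : ℂ) * Complex.I) * (((η * 1 : ℝ) : ℂ) * Complex.I) /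
        ((η : ℂ) * Complex.I) = er η y := by
      rw [mul_one, mul_div_assoc, div_self h4, mul_one]
      rfl
    rw [e] at h3
    exact h3
  rw [intervalIntegral.integral_eq_sub_of_hasDerivAt h1 (er_int η _ _), ← sub_div, norm_div,
    norm_mul, Complex.norm_I, mul_one, Complex.norm_real, Real.norm_eq_abs]
  refine div_le_div_of_nonneg_right ?_ (abs_nonneg _)
  refine (norm_sub_le _ _).trans ?_
  rw [er_norm, er_norm]
  norm_num

theorem ps_diff (η : ℝ) {m : ℕ} (hm : 1 ≤ m) : ‖ps η (m + 1) - ps η m‖ ≤ 1 / (m : ℝ) ^ 2 := by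
  have hm0 : (0 : ℝ) < m := by exact_mod_cast hm
  unfold ps
  rw [intervalIntegral.integral_interval_sub_left (er_int η _ _) (er_int η _ _)]
  have h := intervalIntegral.norm_integral_le_of_norm_le_const (a := dl m) (b := dl (m + 1)) (C := 1)
    (f := fun y => er η y) (fun y _ => (er_norm η y).le)
  rw [one_mul] at h
  refine h.trans ?_
  unfold dl
  push_cast
  have e : Real.log ((m : ℝ) + 1 + 1) - Real.log (m + 1) - (Real.log (m + 1) - Real.log m) =
      -Real.log (1 + 1 / (m * (m + 2))) := by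
    have e1 : (1 + 1 / ((m : ℝ) * (m + 2))) = ((m + 1) * (m + 1)) / (m * (m + 1 + 1)) := by
      field_simp
      ring
    rw [e1, Real.log_div (by positivity) (by positivity), Real.log_mul (by positivity) (by positivity),
      Real.log_mul (by positivity) (by positivity)]
    ring
  rw [e, abs_neg, abs_of_nonneg (Real.log_nonneg (by
    have : (0 : ℝ) ≤ 1 / (m * (m + 2)) := by positivity
    linarith))]
  have h1 := Real.log_le_sub_one_of_pos (show (0 : ℝ) < 1 + 1 / (m * (m + 2)) by positivity)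
  have h2 : 1 / ((m : ℝ) * (m + 2)) ≤ 1 / (m : ℝ) ^ 2 := by
    apply one_div_le_one_div_of_le (by positivity)
    nlinarith
  linarith

/-- the phases caused by the shift -/
theorem shift_log {m H : ℝ} {h : ℝ} (hH : |h| ≤ H) (hm : 2 * H + 2 ≤ m) :
    |(Real.log (m + 1) - Real.log (m + 1 + h)) - (Real.log m - Real.log (m + h))| ≤ 4 * H / m ^ 2 := by
  have hH0 : 0 ≤ H := (abs_nonneg _).trans hH
  have hm0 : 0 < m := by linarith
  have h1 := abs_le.1 hH
  have h2 : 0 < m + h := by linarith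
  have h3 : 0 < m + 1 + h := by linarith
  obtain ⟨t, ht⟩ : ∃ t : ℝ, t = h / (m * (m + 1 + h)) := ⟨_, rfl⟩
  have e : (Real.log (m + 1) - Real.log (m + 1 + h)) - (Real.log m - Real.log (m + h)) =
      Real.log (1 + t) := by
    have e1 : 1 + t = ((m + 1) * (m + h)) / (m * (m + 1 + h)) := by
      rw [ht]
      field_simp
      ring
    rw [e1, Real.log_div (by positivity) (by positivity), Real.log_mul (by positivity) (by positivity),
      Real.log_mul (by positivity) (by positivity)]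
    ring
  have h4 : m / 2 ≤ m + 1 + h := by linarith
  have h5 : |t| ≤ 2 * H / m ^ 2 := by
    rw [ht, abs_div, abs_of_pos (show 0 < m * (m + 1 + h) by positivity),
      div_le_div_iff₀ (by positivity) (by positivity)]
    have : m ^ 2 / 2 ≤ m * (m + 1 + h) := by nlinarith
    nlinarith [mul_le_mul hH (le_refl (m ^ 2)) (by positivity) hH0]
  have h6 : 2 * H / m ^ 2 ≤ 1 / 2 := by
    rw [div_le_iff₀ (by positivity)]
    nlinarith
  have h7 : |t| ≤ 1 / 2 := h5.trans h6
  have h8 : |Real.log (1 + t)| ≤ 2 * |t| := by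
    have h9 := abs_le.1 h7
    rw [abs_le]
    constructor
    · have h10 := Real.one_sub_inv_le_log_of_pos (show 0 < 1 + t by linarith)
      have h11 : 1 - (1 + t)⁻¹ = t / (1 + t) := by
        have : (1 + t) ≠ 0 := by linarith
        field_simp
        ring
      rw [h11] at h10
      have h12 : -(2 * |t|) ≤ t / (1 + t) := by
        rw [le_div_iff₀ (by linarith)]
        nlinarith [neg_abs_le t, abs_nonneg t]
      linarith
    · have h10 := Real.log_le_sub_one_of_pos (show 0 < 1 + t by linarith)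
      linarith [le_abs_self t, abs_nonneg t]
  rw [e]
  refine h8.trans ?_
  calc 2 * |t| ≤ 2 * (2 * H / m ^ 2) := by linarith
    _ = _ := by ring

end Pool.Agent.U996.UW
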