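import Pool.Agent.Y957.VK.Fin2a
import Pool.Agent.Y957.AD.Basic

/-!
# Sums of `n^{iτ}` over a dyadic block, all frequencies up to a power of the length
-/

set_option autoImplicit false

namespace Pool.Agent.U996.UW

open Finset
open Pool.Agent.H376R2.MR (er)
open Pool.Agent.Y957.AD (er_norm er_add er_zero)
open Pool.Agent.Y957.VK

theorem er_lip (τ x y : ℝ) : ‖er τ x - er τ y‖ ≤ |τ| * |x - y| := by
  have e : er τ x - er τ y = er τ y * (er τ (x - y) - 1) := by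
    rw [mul_sub, ← er_add, mul_one]
    congr 2
    ring
  rw [e, norm_mul, er_norm, one_mul]
  unfold er
  have h := Real.norm_exp_I_mul_ofReal_sub_one_le (x := τ * (x - y))
  rw [mul_comm Complex.I, Real.norm_eq_abs, abs_mul] at h
  exact h

/-- high frequencies -/
theorem zhigh (A : ℕ) : ∃ C δ : ℝ, 0 < C ∧ 0 < δ ∧ δ ≤ 1 / 10 ∧ ∀ (N N' : ℕ) (τ : ℝ), 2 ≤ N → N ≤ N' →
    N' ≤ 2 * N → (N : ℝ) ^ (1 / 2 : ℝ) ≤ |τ| → |τ| ≤ (N : ℝ) ^ A →
      ‖∑ n ∈ Ioc N N', er τ (Real.log n)‖ ≤ C * (N : ℝ) ^ (1 - δ) := by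
  obtain ⟨C, c, hc, hc1, h⟩ := zs_all
  have hA : (1 : ℝ) ≤ (1 + A) ^ 2 := one_le_pow₀ (by
    have : (0 : ℝ) ≤ A := Nat.cast_nonneg A
    linarith)
  refine ⟨Real.exp (C * (1 + A) ^ C), c / (1 + A) ^ 2, by positivity, by positivity, ?_,
    fun N N' τ hN h1 h2 h3 h4 => ?_⟩
  · exact (div_le_self hc.le hA).trans hc1
  have hN2 : (2 : ℝ) ≤ N := by exact_mod_cast hN
  have hN0 : (0 : ℝ) < N := by linarith
  have hN1 : (1 : ℝ) < N := by linarith
  have hlog : 0 < Real.log N := Real.log_pos hN1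
  have hτ0 : 0 < |τ| := lt_of_lt_of_le (by positivity) h3
  obtain ⟨κ, hκ⟩ : ∃ κ, κ = Real.log |τ| / Real.log N := ⟨_, rfl⟩
  have e1 : |τ| = (N : ℝ) ^ κ := by
    rw [Real.rpow_def_of_pos hN0, hκ, mul_div_cancel₀ _ hlog.ne', Real.exp_log hτ0]
  have hk1 : 1 / 2 ≤ κ := by
    rw [e1] at h3
    exact (Real.rpow_le_rpow_left_iff hN1).1 h3
  have hk2 : κ ≤ A := by
    rw [e1, ← Real.rpow_natCast] at h4
    exact (Real.rpow_le_rpow_left_iff hN1).1 h4
  have h5 := h N N' (-τ) κ hN h1 h2 hk1 (by rw [abs_neg]; exact e1)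
  have e2 : ∑ n ∈ Ioc N N', (n : ℂ) ^ (-((-τ : ℝ) : ℂ) * Complex.I) =
      ∑ n ∈ Ioc N N', er τ (Real.log n) := by
    refine Finset.sum_congr rfl fun n hn => ?_
    rw [cpow_er n (by have := (Finset.mem_Ioc.1 hn).1; omega) τ]
  rw [e2] at h5
  refine h5.trans ?_
  have h6 : (1 + κ) ^ C ≤ (1 + (A : ℝ)) ^ C := pow_le_pow_left₀ (by linarith) (by linarith) C
  have h7 : (1 + κ) ^ 2 ≤ (1 + (A : ℝ)) ^ 2 := pow_le_pow_left₀ (by linarith) (by linarith) 2
  have h8 : c / (1 + (A : ℝ)) ^ 2 ≤ c / (1 + κ) ^ 2 :=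
    div_le_div_of_nonneg_left hc.le (by positivity) h7
  refine mul_le_mul ?_ ?_ (by positivity) (by positivity)
  · exact Real.exp_le_exp.2 (mul_le_mul_of_nonneg_left h6 (Nat.cast_nonneg C))
  · exact Real.rpow_le_rpow_of_exponent_le hN1.le (by linarith)

/-- the primitive of `x^{iτ}` -/
noncomputable def prim (τ x : ℝ) : ℂ := (x : ℂ) * er τ (Real.log x) / (1 + (τ : ℂ) * Complex.I)

theorem one_add_ne (τ : ℝ) : (1 + (τ : ℂ) * Complex.I) ≠ 0 := by
  intro h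
  have := congrArg Complex.re h
  simp at this

theorem one_add_norm (τ : ℝ) : (1 + |τ|) / 2 ≤ ‖(1 + (τ : ℂ) * Complex.I)‖ := by
  have h1 := Complex.abs_re_le_norm (1 + (τ : ℂ) * Complex.I)
  have h2 := Complex.abs_im_le_norm (1 + (τ : ℂ) * Complex.I)
  simp at h1 h2
  linarith

theorem prim_deriv (τ : ℝ) {x : ℝ} (hx : 0 < x) : HasDerivAt (prim τ) (er τ (Real.log x)) x := by
  have h1 : HasDerivAt (fun y : ℝ => (y : ℂ)) 1 x := Complex.ofRealCLM.hasDerivAt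
  have h2 : HasDerivAt (fun y : ℝ => ((τ * Real.log y : ℝ) : ℂ) * Complex.I)
      (((τ * x⁻¹ : ℝ) : ℂ) * Complex.I) x :=
    (((Real.hasDerivAt_log hx.ne').const_mul τ).ofReal_comp).mul_const _
  have h3 := (h1.mul h2.cexp).div_const (1 + (τ : ℂ) * Complex.I)
  have e : (1 * Complex.exp (((τ * Real.log x : ℝ) : ℂ) * Complex.I) +
      (x : ℂ) * (Complex.exp (((τ * Real.log x : ℝ) : ℂ) * Complex.I) *
        (((τ * x⁻¹ : ℝ) : ℂ) * Complex.I))) / (1 + (τ : ℂ) * Complex.I) = er τ (Real.log x) := by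
    unfold er
    rw [div_eq_iff (one_add_ne τ)]
    have hx' : (x : ℂ) ≠ 0 := by exact_mod_cast hx.ne'
    push_cast
    field_simp
  rw [e] at h3
  exact h3

theorem prim_step (τ : ℝ) (n : ℕ) (hn : 1 ≤ n) :
    ‖prim τ (n + 1 : ℕ) - prim τ n - er τ (Real.log (n + 1 : ℕ))‖ ≤ |τ| / n := by
  have hn1 : (1 : ℝ) ≤ n := by exact_mod_cast hn
  have hn0 : (0 : ℝ) < n := by linarith
  obtain ⟨z, hz⟩ : ∃ z : ℂ, z = er τ (Real.log (n + 1 : ℕ)) := ⟨_, rfl⟩
  have h1 : ∀ x ∈ Set.Icc (n : ℝ) (n + 1), HasDerivWithinAt (fun y : ℝ => prim τ y - (y : ℂ) * z)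
      (er τ (Real.log x) - 1 * z) (Set.Icc (n : ℝ) (n + 1)) x := by
    intro x hx
    have hx0 : 0 < x := lt_of_lt_of_le hn0 hx.1
    exact ((prim_deriv τ hx0).sub
      ((Complex.ofRealCLM.hasDerivAt (x := x)).mul_const z)).hasDerivWithinAt
  have h2 : ∀ x ∈ Set.Icc (n : ℝ) (n + 1), ‖er τ (Real.log x) - 1 * z‖ ≤ |τ| / n := by
    intro x hx
    have hx0 : 0 < x := lt_of_lt_of_le hn0 hx.1
    rw [one_mul, hz]
    refine (er_lip _ _ _).trans ?_
    have h3 : |Real.log x - Real.log ((n + 1 : ℕ) : ℝ)| ≤ 1 / n := by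
      rw [abs_sub_comm, abs_of_nonneg]
      · have h4 : Real.log ((n + 1 : ℕ) : ℝ) ≤ Real.log (x * (1 + 1 / n)) := by
          refine Real.log_le_log (by positivity) ?_
          push_cast
          have := hx.1
          rw [mul_add, mul_one, mul_one_div]
          have h5 : 1 ≤ x / n := by rw [one_le_div hn0]; exact this
          linarith
        rw [Real.log_mul hx0.ne' (by positivity)] at h4
        have h5 := Real.log_le_sub_one_of_pos (show (0 : ℝ) < 1 + 1 / n by positivity)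
        linarith
      · have h4 : Real.log x ≤ Real.log ((n + 1 : ℕ) : ℝ) := by
          refine Real.log_le_log hx0 ?_
          push_cast
          exact hx.2
        linarith
    calc |τ| * |Real.log x - Real.log ((n + 1 : ℕ) : ℝ)| ≤ |τ| * (1 / n) :=
          mul_le_mul_of_nonneg_left h3 (abs_nonneg _)
      _ = _ := by ring
  have h3 := (convex_Icc (n : ℝ) (n + 1)).norm_image_sub_le_of_norm_hasDerivWithin_le h1 h2
    (Set.left_mem_Icc.2 (by linarith)) (Set.right_mem_Icc.2 (by linarith))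
  have e : prim τ (n + 1 : ℝ) - ((n + 1 : ℝ) : ℂ) * z - (prim τ n - ((n : ℝ) : ℂ) * z) =
      prim τ (n + 1 : ℕ) - prim τ n - z := by
    push_cast
    ring
  simp only [add_sub_cancel_left, norm_one, mul_one] at h3
  rw [← hz, ← e]
  exact_mod_cast h3

theorem prim_norm (τ : ℝ) (n : ℕ) : ‖prim τ n‖ ≤ 2 * n / (1 + |τ|) := by
  unfold prim
  have h := one_add_norm τ
  have h0 : 0 < 1 + |τ| := by positivity
  rw [norm_div, norm_mul, er_norm, mul_one, Complex.norm_real, Real.norm_natCast,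
    div_le_div_iff₀ (by linarith) h0]
  have : (0 : ℝ) ≤ n := Nat.cast_nonneg n
  nlinarith

/-- low frequencies -/
theorem zlow (N N' : ℕ) (τ : ℝ) (hN : 1 ≤ N) (h1 : N ≤ N') (h2 : N' ≤ 2 * N) :
    ‖∑ n ∈ Ioc N N', er τ (Real.log n)‖ ≤ 6 * N / (1 + |τ|) + |τ| := by
  have hN0 : (0 : ℝ) < N := by exact_mod_cast hN
  have key : ∀ m : ℕ, N ≤ m →
      ‖prim τ m - prim τ N - ∑ n ∈ Ioc N m, er τ (Real.log n)‖ ≤ (m - N : ℝ) * (|τ| / N) := by
    intro m hm
    induction m, hm using Nat.le_induction with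
    | base => simp
    | succ m hm ih =>
      rw [Finset.sum_Ioc_succ_top (by omega)]
      have h3 := prim_step τ m (by omega)
      have hmN : (N : ℝ) ≤ m := by exact_mod_cast hm
      have h4 : |τ| / m ≤ |τ| / N := div_le_div_of_nonneg_left (abs_nonneg _) hN0 hmN
      have e : prim τ (m + 1 : ℕ) - prim τ N -
          (∑ k ∈ Ioc N m, er τ (Real.log k) + er τ (Real.log (m + 1 : ℕ))) =
          (prim τ m - prim τ N - ∑ n ∈ Ioc N m, er τ (Real.log n)) +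
            (prim τ (m + 1 : ℕ) - prim τ m - er τ (Real.log (m + 1 : ℕ))) := by ring
      rw [e]
      refine (norm_add_le _ _).trans ?_
      push_cast at *
      linarith
  have h3 := key N' h1
  have h4 := prim_norm τ N'
  have h5 := prim_norm τ N
  have h0 : 0 < 1 + |τ| := by positivity
  have h6 : ((N' : ℝ) - N) * (|τ| / N) ≤ |τ| := by
    have h7 : ((N' : ℝ) - N) ≤ N := by
      have : (N' : ℝ) ≤ 2 * N := by exact_mod_cast h2
      linarith
    calc ((N' : ℝ) - N) * (|τ| / N) ≤ N * (|τ| / N) := mul_le_mul_of_nonneg_right h7 (by positivity)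
      _ = |τ| := by field_simp
  have e : ∑ n ∈ Ioc N N', er τ (Real.log n) = prim τ N' - prim τ N -
      (prim τ N' - prim τ N - ∑ n ∈ Ioc N N', er τ (Real.log n)) := by ring
  rw [e]
  refine (norm_sub_le _ _).trans ?_
  have h7 := norm_sub_le (prim τ N') (prim τ N)
  have h8 : 2 * (N' : ℝ) / (1 + |τ|) + 2 * N / (1 + |τ|) ≤ 6 * N / (1 + |τ|) := by
    rw [← add_div]
    apply div_le_div_of_nonneg_right _ h0.le
    have : (N' : ℝ) ≤ 2 * N := by exact_mod_cast h2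
    linarith
  linarith

/-- all frequencies up to a power of the length -/
theorem zall (A : ℕ) : ∃ C δ : ℝ, 0 < C ∧ 0 < δ ∧ δ ≤ 1 / 10 ∧ ∀ (N N' : ℕ) (τ : ℝ), 2 ≤ N → N ≤ N' →
    N' ≤ 2 * N → |τ| ≤ (N : ℝ) ^ A →
      ‖∑ n ∈ Ioc N N', er τ (Real.log n)‖ ≤ C * (N / (1 + |τ|) + (N : ℝ) ^ (1 - δ)) := by
  obtain ⟨C, δ, hC, hδ, hδ1, h⟩ := zhigh A
  refine ⟨C + 6, δ, by positivity, hδ, hδ1, fun N N' τ hN h1 h2 h3 => ?_⟩
  have hN2 : (2 : ℝ) ≤ N := by exact_mod_cast hN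
  have hN0 : (0 : ℝ) < N := by linarith
  have h0 : 0 < 1 + |τ| := by positivity
  have hp : 0 < (N : ℝ) ^ (1 - δ) := by positivity
  have hq : 0 < (N : ℝ) / (1 + |τ|) := by positivity
  rcases le_or_gt ((N : ℝ) ^ (1 / 2 : ℝ)) |τ| with h4 | h4
  · have h5 := h N N' τ hN h1 h2 h4 h3
    nlinarith
  · have h5 := zlow N N' τ (by omega) h1 h2
    have h6 : (N : ℝ) ^ (1 / 2 : ℝ) ≤ (N : ℝ) ^ (1 - δ) :=
      Real.rpow_le_rpow_of_exponent_le (by linarith) (by linarith)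
    have e : 6 * (N : ℝ) / (1 + |τ|) = 6 * (N / (1 + |τ|)) := by ring
    rw [e] at h5
    nlinarith

end Pool.Agent.U996.UW
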